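import Pool.Agent.U515.CL.Final

set_option autoImplicit false

/-! Convex functions and quadratic polynomials. -/

open MeasureTheory Set ENNReal NNReal Real Metric

namespace Pool.Agent.U515.CL

open Pool.Agent.H810R3.Tub Pool.Agent.U527.Crv

variable {d : ℕ}

theorem dir_convex {ψ : Vec d → ℝ} (h : ConvexOn ℝ univ ψ) : Dir ψ := by
  intro w
  left
  intro x
  have h1 := (h.translate_right x).comp_linearMap (LinearMap.toSpanSingleton ℝ (Vec d) w)
  rw [preimage_univ, preimage_univ] at h1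
  have e : (fun t : ℝ => ψ (x + t • w)) =
      (ψ ∘ (fun z => x + z)) ∘ (LinearMap.toSpanSingleton ℝ (Vec d) w) := by
    funext t
    simp [LinearMap.toSpanSingleton_apply]
  rw [e]
  exact h1

/-- A convex function is steep at the points where it is larger than at some point `c`. -/
theorem steep_convex {ψ : Vec d → ℝ} (h : Dir ψ) (hconv : ConvexOn ℝ univ ψ) {Λ lam lam' : ℝ}
    (hΛ : 0 ≤ Λ) (hlam' : 0 < lam') (h1 : lam' ≤ 1) (h2 : lam' * (4 * (Λ + 1)) ≤ lam)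
    (hlip : ∀ y z, ‖y‖ ≤ 2 → ‖z‖ ≤ 2 → |ψ y - ψ z| ≤ Λ * ‖y - z‖)
    {c x : Vec d} (hc : ‖c‖ ≤ 1) (hx : ‖x‖ ≤ 1) (hcx : ψ c + lam ≤ ψ x) :
    ∃ e : Vec d, ‖e‖ = 1 ∧ ∀ y θ, ‖y - x‖ ≤ lam' → 0 ≤ θ → θ ≤ lam' →
      ψ y + lam' * θ ≤ ψ (y + θ • e) := by
  have hlam : 0 < lam := lt_of_lt_of_le (by positivity) h2
  have hne : x - c ≠ 0 := by
    intro h0
    have : x = c := sub_eq_zero.1 h0
    rw [this] at hcx
    linarith
  have hD : 0 < ‖x - c‖ := norm_pos_iff.2 hne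
  have hD2 : ‖x - c‖ ≤ 2 := by
    calc ‖x - c‖ ≤ ‖x‖ + ‖c‖ := norm_sub_le _ _
      _ ≤ 1 + 1 := add_le_add hx hc
      _ = 2 := by norm_num
  refine ⟨‖x - c‖⁻¹ • (x - c), ?_, ?_⟩
  · rw [norm_smul, norm_inv, norm_norm, inv_mul_cancel₀ hD.ne']
  intro y θ hy h0 hθ
  rcases h0.eq_or_lt with h00 | h00
  · rw [← h00]
    simp
  set e : Vec d := ‖x - c‖⁻¹ • (x - c) with he
  have hline : ∀ z, ConvexOn ℝ univ (fun t : ℝ => ψ (z + t • e)) := by
    intro z
    have h1 := (hconv.translate_right z).comp_linearMap (LinearMap.toSpanSingleton ℝ (Vec d) e)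
    rw [preimage_univ, preimage_univ] at h1
    have e' : (fun t : ℝ => ψ (z + t • e)) =
        (ψ ∘ (fun u => z + u)) ∘ (LinearMap.toSpanSingleton ℝ (Vec d) e) := by
      funext t
      simp [LinearMap.toSpanSingleton_apply]
    rw [e']
    exact h1
  have hs := conv_step hline y (s := ‖x - c‖) (a := θ) hD h00
  have hDe : ‖x - c‖ • e = x - c := by
    rw [he, smul_smul, mul_inv_cancel₀ hD.ne', one_smul]
  rw [hDe] at hs
  have hb : y - (x - c) - c = y - x := by abel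
  have hbn : ‖y - (x - c)‖ ≤ 2 := by
    calc ‖y - (x - c)‖ = ‖(y - x) + c‖ := by congr 1; abel
      _ ≤ ‖y - x‖ + ‖c‖ := norm_add_le _ _
      _ ≤ 1 + 1 := add_le_add (hy.trans h1) hc
      _ = 2 := by norm_num
  have hyn : ‖y‖ ≤ 2 := by
    calc ‖y‖ = ‖(y - x) + x‖ := by congr 1; abel
      _ ≤ ‖y - x‖ + ‖x‖ := norm_add_le _ _
      _ ≤ 1 + 1 := add_le_add (hy.trans h1) hx
      _ = 2 := by norm_num
  have k1 := abs_le.1 (hlip _ _ hbn (hc.trans (by norm_num)))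
  rw [hb] at k1
  have k2 := abs_le.1 (hlip _ _ hyn (hx.trans (by norm_num)))
  have k3 : Λ * ‖y - x‖ ≤ Λ * lam' := mul_le_mul_of_nonneg_left hy hΛ
  have k4 : 2 * lam' ≤ ψ y - ψ (y - (x - c)) := by
    have : 4 * (Λ * lam') + 4 * lam' ≤ lam := by linarith
    have h6 : 0 ≤ Λ * lam' := by positivity
    linarith [k1.2, k2.1]
  have k5 : lam' ≤ (ψ y - ψ (y - (x - c))) / ‖x - c‖ := by
    rw [le_div_iff₀ hD]
    nlinarith
  have k6 := k5.trans hs
  rw [le_div_iff₀ h00] at k6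
  linarith

/-- The quadratic polynomial with the linear map `Q` and the vector `b`. -/
noncomputable def quad (Q : Vec d →L[ℝ] Vec d) (b : Vec d) (x : Vec d) : ℝ :=
  inner ℝ (Q x) x + inner ℝ b x

theorem quad_add (Q : Vec d →L[ℝ] Vec d) (b x e : Vec d) (θ : ℝ) :
    quad Q b (x + θ • e) = quad Q b x +
      θ * (inner ℝ (Q x) e + inner ℝ (Q e) x + inner ℝ b e) + θ ^ 2 * inner ℝ (Q e) e := by
  unfold quad
  simp only [map_add, map_smul, inner_add_left, inner_add_right, inner_smul_left, inner_smul_right,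
    conj_trivial]
  ring

theorem dir_quad (Q : Vec d →L[ℝ] Vec d) (b : Vec d) : Dir (quad Q b) := by
  intro w
  have hf : ∀ (x : Vec d), (fun t : ℝ => quad Q b (x + t • w)) = fun t => quad Q b x +
      t * (inner ℝ (Q x) w + inner ℝ (Q w) x + inner ℝ b w) + t ^ 2 * inner ℝ (Q w) w := by
    intro x
    funext t
    exact quad_add Q b x w t
  simp only [hf]
  rcases le_total 0 (inner ℝ (Q w) w) with h | h
  · left
    intro x
    refine ⟨convex_univ, ?_⟩
    intro s _ t _ a c ha hc hac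
    simp only [smul_eq_mul]
    have h1 : 0 ≤ a * c * ((s - t) ^ 2 * inner ℝ (Q w) w) := by positivity
    have ha' : a = 1 - c := by linarith
    rw [ha'] at h1 ⊢
    nlinarith
  · right
    intro x
    refine ⟨convex_univ, ?_⟩
    intro s _ t _ a c ha hc hac
    simp only [smul_eq_mul]
    have h1 : 0 ≤ a * c * ((s - t) ^ 2 * -inner ℝ (Q w) w) := by
      have : 0 ≤ -inner ℝ (Q w) w := by linarith
      positivity
    have ha' : a = 1 - c := by linarith
    rw [ha'] at h1 ⊢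
    nlinarith

theorem quad_lip (Q : Vec d →L[ℝ] Vec d) (b : Vec d) {Λ : ℝ} (hQ : ‖Q‖ ≤ Λ) (hb : ‖b‖ ≤ Λ) :
    ∀ y z, ‖y‖ ≤ 2 → ‖z‖ ≤ 2 → |quad Q b y - quad Q b z| ≤ (5 * Λ) * ‖y - z‖ := by
  intro y z hy hz
  have hΛ : 0 ≤ Λ := (norm_nonneg b).trans hb
  have e : quad Q b y - quad Q b z = inner ℝ (Q (y - z)) y + inner ℝ (Q z) (y - z) +
      inner ℝ b (y - z) := by
    unfold quad
    simp only [map_sub, inner_sub_left, inner_sub_right]
    ring
  rw [e]
  have k1 : |inner ℝ (Q (y - z)) y| ≤ (Λ * ‖y - z‖) * 2 := by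
    refine (abs_real_inner_le_norm _ _).trans ?_
    have : ‖Q (y - z)‖ ≤ Λ * ‖y - z‖ := (Q.le_opNorm _).trans (by gcongr)
    gcongr
  have k2 : |inner ℝ (Q z) (y - z)| ≤ (Λ * 2) * ‖y - z‖ := by
    refine (abs_real_inner_le_norm _ _).trans ?_
    have : ‖Q z‖ ≤ Λ * 2 := (Q.le_opNorm _).trans (by gcongr)
    gcongr
  have k3 : |inner ℝ b (y - z)| ≤ Λ * ‖y - z‖ := by
    refine (abs_real_inner_le_norm _ _).trans ?_
    gcongr
  calc _ ≤ |inner ℝ (Q (y - z)) y| + |inner ℝ (Q z) (y - z)| + |inner ℝ b (y - z)| := by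
        refine (abs_add_le _ _).trans ?_
        gcongr
        exact abs_add_le _ _
    _ ≤ (Λ * ‖y - z‖) * 2 + (Λ * 2) * ‖y - z‖ + Λ * ‖y - z‖ := by gcongr
    _ = _ := by ring

/-- The gradient of the quadratic polynomial. -/
noncomputable def grad (Q : Vec d →L[ℝ] Vec d) (b x : Vec d) : Vec d :=
  Q x + (ContinuousLinearMap.adjoint Q) x + b

theorem steep_quad (Q : Vec d →L[ℝ] Vec d) (b : Vec d) {Λ lam lam' : ℝ} (hQ : ‖Q‖ ≤ Λ)
    (hΛ : 0 ≤ Λ) (hlam' : 0 < lam') (h2 : lam' * (3 * Λ + 1) ≤ lam)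
    {x : Vec d} (hx : lam ≤ ‖grad Q b x‖) :
    ∃ e : Vec d, ‖e‖ = 1 ∧ ∀ y θ, ‖y - x‖ ≤ lam' → 0 ≤ θ → θ ≤ lam' →
      quad Q b y + lam' * θ ≤ quad Q b (y + θ • e) := by
  have hlam : 0 < lam := lt_of_lt_of_le (by positivity) h2
  have hg : 0 < ‖grad Q b x‖ := lt_of_lt_of_le hlam hx
  refine ⟨‖grad Q b x‖⁻¹ • grad Q b x, ?_, ?_⟩
  · rw [norm_smul, norm_inv, norm_norm, inv_mul_cancel₀ hg.ne']
  set e : Vec d := ‖grad Q b x‖⁻¹ • grad Q b x with he
  have hen : ‖e‖ = 1 := by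
    rw [he, norm_smul, norm_inv, norm_norm, inv_mul_cancel₀ hg.ne']
  intro y θ hy h0 hθ
  rw [quad_add]
  have hgr : ∀ z, inner ℝ (Q z) e + inner ℝ (Q e) z + inner ℝ b e = inner ℝ (grad Q b z) e := by
    intro z
    unfold grad
    rw [inner_add_left, inner_add_left, ContinuousLinearMap.adjoint_inner_left,
      real_inner_comm z (Q e)]
  rw [hgr]
  have k0 : inner ℝ (grad Q b x) e = ‖grad Q b x‖ := by
    rw [he, inner_smul_right, real_inner_self_eq_norm_sq]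
    field_simp
  have k1 : inner ℝ (grad Q b y) e = inner ℝ (grad Q b x) e + inner ℝ (grad Q b y - grad Q b x) e := by
    rw [inner_sub_left]; ring
  have k2 : ‖grad Q b y - grad Q b x‖ ≤ 2 * Λ * lam' := by
    have e1 : grad Q b y - grad Q b x = Q (y - x) + (ContinuousLinearMap.adjoint Q) (y - x) := by
      unfold grad
      rw [map_sub, map_sub]
      abel
    rw [e1]
    calc _ ≤ ‖Q (y - x)‖ + ‖(ContinuousLinearMap.adjoint Q) (y - x)‖ := norm_add_le _ _
      _ ≤ Λ * lam' + Λ * lam' := by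
          have g1 : ‖Q (y - x)‖ ≤ Λ * lam' := (Q.le_opNorm _).trans (by gcongr)
          have g2 : ‖(ContinuousLinearMap.adjoint Q) (y - x)‖ ≤ Λ * lam' := by
            refine (ContinuousLinearMap.le_opNorm _ _).trans ?_
            have : ‖ContinuousLinearMap.adjoint Q‖ = ‖Q‖ := LinearIsometryEquiv.norm_map _ _
            rw [this]
            gcongr
          exact add_le_add g1 g2
      _ = _ := by ring
  have k3 : -(2 * Λ * lam') ≤ inner ℝ (grad Q b y - grad Q b x) e := by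
    have g := abs_real_inner_le_norm (grad Q b y - grad Q b x) e
    rw [hen, mul_one] at g
    exact (abs_le.1 (g.trans k2)).1
  have k4 : -Λ ≤ inner ℝ (Q e) e := by
    have g := abs_real_inner_le_norm (Q e) e
    have g1 : ‖Q e‖ ≤ Λ * 1 := (Q.le_opNorm _).trans (by rw [hen]; gcongr)
    rw [hen, mul_one] at g
    rw [mul_one] at g1
    exact (abs_le.1 (g.trans g1)).1
  have k5 : lam - 2 * Λ * lam' ≤ inner ℝ (grad Q b y) e := by
    rw [k1, k0]
    linarith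
  have k6 : θ * (lam - 2 * Λ * lam') ≤ θ * inner ℝ (grad Q b y) e :=
    mul_le_mul_of_nonneg_left k5 h0
  have k7 : θ ^ 2 * -Λ ≤ θ ^ 2 * inner ℝ (Q e) e := mul_le_mul_of_nonneg_left k4 (sq_nonneg θ)
  have k8 : θ ^ 2 * Λ ≤ θ * (lam' * Λ) := by
    rw [sq, mul_assoc]
    gcongr
  nlinarith

end Pool.Agent.U515.CL
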