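import Pool.Agent.U515.CL.Crit2
import Pool.Agent.R134.Kak.Boxes
import Pool.Agent.U527.Crv.Pack

set_option autoImplicit false

/-! Boxes dual to the caps of the paraboloid: reduction of the integrals to the counting function of
the slabs. -/

open MeasureTheory Set ENNReal NNReal Real Metric

namespace Pool.Agent.U515.CL

open Pool.Agent.H810R3.Tub Pool.Agent.U527.Crv
open Pool.Agent.R134.Kak (fub lint_time lint_scale)

variable {d : ℕ}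

theorem cover_pow {α : Type*} (t : Finset α) (f : α → ℝ≥0∞) {q : ℝ} (hq : 0 < q) :
    (∑ a ∈ t, f a) ^ q ≤ (t.card : ℝ≥0∞) ^ q * ∑ a ∈ t, f a ^ q := by
  rcases t.eq_empty_or_nonempty with rfl | hne
  · simp [hq]
  · obtain ⟨b, hb, hmax⟩ := t.exists_max_image f hne
    calc (∑ a ∈ t, f a) ^ q ≤ ((t.card : ℝ≥0∞) * f b) ^ q := by
          apply ENNReal.rpow_le_rpow _ hq.le
          rw [← nsmul_eq_mul]
          exact Finset.sum_le_card_nsmul _ _ _ hmax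
      _ = (t.card : ℝ≥0∞) ^ q * f b ^ q := ENNReal.mul_rpow_of_nonneg _ _ hq.le
      _ ≤ _ := by
          gcongr
          exact Finset.single_le_sum (f := fun a => f a ^ q) (fun _ _ => zero_le) hb

theorem cover_ball (d : ℕ) (A : ℝ) : ∃ t : Finset (Vec d), ∀ u : Vec d, ‖u‖ ≤ A →
    ∃ a ∈ t, ‖u - a‖ < 3 := by
  obtain ⟨t, ht, hfin, hcov⟩ := (isCompact_closedBall (0 : Vec d) A).finite_cover_balls
    (by norm_num : (0:ℝ) < 3)
  refine ⟨hfin.toFinset, ?_⟩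
  intro u hu
  have h1 : u ∈ closedBall (0 : Vec d) A := by rwa [mem_closedBall_zero_iff]
  obtain ⟨a, ha, hua⟩ := mem_iUnion₂.1 (hcov h1)
  refine ⟨a, hfin.mem_toFinset.2 ha, ?_⟩
  rwa [mem_ball, dist_eq_norm] at hua

/-- Points of a box. -/
theorem box_term {σ N : ℝ} (hσ : 0 < σ) (S : ℝ≥0) (hN : 1 ≤ N) {ω β : Vec d} {s : ℝ}
    {f : Fin d → Space d} (hω : ‖ω‖ ≤ 1)
    (hf : Orthonormal ℝ (Fin.cons (nor ω) f : Fin (d + 1) → Space d)) (hs : |s| ≤ S * N ^ 2)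
    {t : ℝ} {x : Vec d}
    (hy : (WithLp.toLp 2 (x, t) : Space d) ∈
      box N (nor ω) f (WithLp.toLp 2 (β + s • (-(2 : ℝ) • ω), s))) :
    2 / N ^ 2 * t ∈ Icc (-(1 + d + 2 * (S:ℝ))) (1 + d + 2 * S) ∧
      ‖(N ^ 2)⁻¹ • x - (N ^ 2)⁻¹ • β - (2 / N ^ 2 * t) • (-ω)‖ ≤ 2 * d / σ * (σ / N) := by
  have hS0 : (0 : ℝ) ≤ S := S.2
  have hN0 : 0 < N := by linarith
  have hN2 : 0 < N ^ 2 := by positivity
  obtain ⟨h1, h2⟩ := box_coord hN hω hf hy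
  have e1 : ((WithLp.toLp 2 (x, t) : Space d) -
      WithLp.toLp 2 (β + s • (-(2 : ℝ) • ω), s)).snd = t - s := rfl
  have e2 : ((WithLp.toLp 2 (x, t) : Space d) -
      WithLp.toLp 2 (β + s • (-(2 : ℝ) • ω), s)).fst = x - (β + s • (-(2 : ℝ) • ω)) := rfl
  rw [e1] at h1 h2
  rw [e2] at h1
  constructor
  · have ht : |t| ≤ ((1 + (d : ℝ)) / 2 + S) * N ^ 2 := by
      have h3 : |t| ≤ |t - s| + |s| := by
        have := abs_add_le (t - s) s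
        rwa [sub_add_cancel] at this
      calc |t| ≤ |t - s| + |s| := h3
        _ ≤ (1 + (d:ℝ)) * N ^ 2 / 2 + S * N ^ 2 := add_le_add h2 hs
        _ = _ := by ring
    have h5 : |2 / N ^ 2 * t| ≤ 1 + (d:ℝ) + 2 * (S:ℝ) := by
      rw [abs_mul, abs_of_pos (by positivity : (0:ℝ) < 2 / N ^ 2), div_mul_eq_mul_div, div_le_iff₀ hN2]
      calc 2 * |t| ≤ 2 * (((1 + (d : ℝ)) / 2 + S) * N ^ 2) := by gcongr
        _ = (1 + (d:ℝ) + 2 * (S:ℝ)) * N ^ 2 := by ring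
    exact abs_le.1 h5
  · have e3 : (N ^ 2)⁻¹ • x - (N ^ 2)⁻¹ • β - (2 / N ^ 2 * t) • (-ω) =
        (N ^ 2)⁻¹ • (x - (β + s • (-(2 : ℝ) • ω)) + (2 * (t - s)) • ω) := by
      have e4 : (2 / N ^ 2 * t) • (-ω) = ((N ^ 2)⁻¹ * (-(2 * t))) • ω := by
        rw [smul_neg, ← neg_smul]
        congr 1
        ring
      rw [e4]
      module
    rw [e3, norm_smul, norm_inv, Real.norm_eq_abs, abs_of_pos hN2, inv_mul_le_iff₀ hN2]
    refine h1.trans (le_of_eq ?_)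
    field_simp

/-- The counting function of the boxes is bounded by translates of the one of the slabs. -/
theorem box_pt {σ N : ℝ} (hσ : 0 < σ) (S : ℝ≥0) (hN : 1 ≤ N) {ι : Type} [Fintype ι] {ω β : ι → Vec d}
    {s : ι → ℝ} {f : ι → Fin d → Space d} (hω : ∀ i, ‖ω i‖ ≤ 1)
    (hf : ∀ i, Orthonormal ℝ (Fin.cons (nor (ω i)) (f i) : Fin (d + 1) → Space d))
    (hs : ∀ i, |s i| ≤ S * N ^ 2) (t₀ : Finset (Vec d))
    (ht₀ : ∀ u : Vec d, ‖u‖ ≤ 2 * d / σ → ∃ a ∈ t₀, ‖u - a‖ < 3) (t : ℝ) (x : Vec d) :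
    Fb N ω f (fun i => WithLp.toLp 2 (β i + s i • (-(2 : ℝ) • ω i), s i)) (WithLp.toLp 2 (x, t)) ≤
      ∑ b ∈ t₀, Uf (σ / N) (fun i => -ω i) (fun i => (N ^ 2)⁻¹ • β i)
        ((N ^ 2)⁻¹ • x - (σ / N) • b) (2 / N ^ 2 * t) := by
  have hN0 : 0 < N := by linarith
  set δ : ℝ := σ / N with hδ
  have hδ0 : 0 < δ := by positivity
  unfold Fb Uf
  rw [Finset.sum_comm]
  refine Finset.sum_le_sum fun i _ => ?_
  by_cases hmem : (WithLp.toLp 2 (x, t) : Space d) ∈ box N (nor (ω i)) (f i)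
      (WithLp.toLp 2 (β i + s i • (-(2 : ℝ) • ω i), s i))
  · rw [indicator_of_mem hmem]
    have h1 := (box_term hσ S hN (hω i) (hf i) (hs i) hmem).2
    rw [← hδ] at h1
    generalize hu : (N ^ 2)⁻¹ • x - (N ^ 2)⁻¹ • β i - (2 / N ^ 2 * t) • (-ω i) = u at h1
    obtain ⟨b, hb, hub⟩ := ht₀ (δ⁻¹ • u) (by
      rw [norm_smul, norm_inv, Real.norm_eq_abs, abs_of_pos hδ0, inv_mul_le_iff₀ hδ0]
      linarith)
    have h2 : (1:ℝ≥0∞) ≤ ENNReal.ofReal (chi (3 * δ)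
        ((N ^ 2)⁻¹ • x - δ • b - (N ^ 2)⁻¹ • β i - (2 / N ^ 2 * t) • (-ω i))) := by
      unfold chi
      rw [indicator_of_mem, ENNReal.ofReal_one]
      rw [mem_ball_zero_iff]
      have e5 : (N ^ 2)⁻¹ • x - δ • b - (N ^ 2)⁻¹ • β i - (2 / N ^ 2 * t) • (-ω i) =
          δ • (δ⁻¹ • u - b) := by
        rw [smul_sub, smul_inv_smul₀ hδ0.ne', ← hu]
        abel
      rw [e5, norm_smul, Real.norm_eq_abs, abs_of_pos hδ0]
      nlinarith
    exact h2.trans (Finset.single_le_sum (f := fun b => ENNReal.ofReal (chi (3 * δ)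
        ((N ^ 2)⁻¹ • x - δ • b - (N ^ 2)⁻¹ • β i - (2 / N ^ 2 * t) • (-ω i))))
        (fun _ _ => zero_le) hb)
  · rw [indicator_of_notMem hmem]
    exact zero_le

/-- One slice. -/
theorem slice_bd {q A : ℝ} (hq : 0 < q) (hA : 0 < A) (g : Vec d → ℝ≥0∞) (hg : Measurable g)
    (t₀ : Finset (Vec d)) (δ : ℝ) (h : Vec d → ℝ≥0∞)
    (hh : ∀ x, h x ≤ ∑ b ∈ t₀, g (A⁻¹ • x - δ • b)) :
    ∫⁻ x : Vec d, h x ^ q ≤
      ENNReal.ofReal (((t₀.card : ℝ) + 1) ^ q * ((t₀.card : ℝ) + 1) * A ^ d) * ∫⁻ x : Vec d, g x ^ q := by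
  set m : ℝ := (t₀.card : ℝ) with hm
  have hm0 : 0 ≤ m := Nat.cast_nonneg _
  have hgq : Measurable (fun x => g x ^ q) := hg.pow_const q
  have hme : ∀ b : Vec d, Measurable (fun x : Vec d => g (A⁻¹ • x - δ • b) ^ q) := fun b =>
    hgq.comp ((measurable_const_smul _).sub_const _)
  calc ∫⁻ x : Vec d, h x ^ q
      ≤ ∫⁻ x : Vec d, (t₀.card : ℝ≥0∞) ^ q * ∑ b ∈ t₀, g (A⁻¹ • x - δ • b) ^ q := by
        refine lintegral_mono fun x => ?_
        exact (ENNReal.rpow_le_rpow (hh x) hq.le).trans (cover_pow _ _ hq)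
    _ = (t₀.card : ℝ≥0∞) ^ q * ∑ b ∈ t₀, ∫⁻ x : Vec d, g (A⁻¹ • x - δ • b) ^ q := by
        rw [lintegral_const_mul _ (Finset.measurable_fun_sum _ fun b _ => hme b),
          lintegral_finsetSum _ fun b _ => hme b]
    _ = (t₀.card : ℝ≥0∞) ^ q * ∑ b ∈ t₀, ENNReal.ofReal (A ^ d) * ∫⁻ x : Vec d, g x ^ q := by
        congr 1
        refine Finset.sum_congr rfl fun b _ => ?_
        have h1 := lint_scale hA (fun x : Vec d => g (x - δ • b) ^ q)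
          (hgq.comp (measurable_id.sub_const _))
        rw [h1]
        congr 1
        exact lintegral_sub_right_eq_self (fun x : Vec d => g x ^ q) (δ • b)
    _ ≤ _ := by
        rw [Finset.sum_const, nsmul_eq_mul, ← mul_assoc, ← mul_assoc]
        refine mul_le_mul' ?_ le_rfl
        have e6 : (t₀.card : ℝ≥0∞) = ENNReal.ofReal m := by rw [hm, ENNReal.ofReal_natCast]
        rw [e6, ENNReal.ofReal_rpow_of_nonneg hm0 hq.le, ← ENNReal.ofReal_mul (by positivity),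
          ← ENNReal.ofReal_mul (by positivity)]
        apply ENNReal.ofReal_le_ofReal
        have h1 : m ^ q ≤ (m + 1) ^ q := Real.rpow_le_rpow hm0 (by linarith) hq.le
        have h2 : m ≤ m + 1 := by linarith
        have hAd : 0 ≤ A ^ d := by positivity
        exact mul_le_mul_of_nonneg_right (mul_le_mul h1 h2 hm0 (by positivity)) hAd

/-- The slices together. -/
theorem assemble {q A c T : ℝ} (hq : 0 < q) (hA : 0 < A) (hc : 0 < c) (P : Space d → ℝ≥0∞)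
    (hP : Measurable P) (U : ℝ × Vec d → ℝ≥0∞) (hU : Measurable U) (t₀ : Finset (Vec d)) (δ : ℝ)
    (hpt : ∀ t x, P (WithLp.toLp 2 (x, t)) ≤ ∑ b ∈ t₀, U (c * t, A⁻¹ • x - δ • b))
    (hsupp : ∀ t x, c * t ∉ Icc (-T) T → P (WithLp.toLp 2 (x, t)) = 0) :
    ∫⁻ y, P y ^ q ≤
      ENNReal.ofReal (c⁻¹ * (((t₀.card : ℝ) + 1) ^ q * ((t₀.card : ℝ) + 1) * A ^ d)) *
        ∫⁻ z in Icc (-T) T, ∫⁻ x, U (z, x) ^ q := by
  have hUq : Measurable (fun p : ℝ × Vec d => U p ^ q) := hU.pow_const q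
  have hUx : ∀ z, Measurable (fun x : Vec d => U (z, x)) := fun z =>
    hU.comp (measurable_const.prodMk measurable_id)
  set I : ℝ → ℝ≥0∞ := fun z => ∫⁻ x : Vec d, U (z, x) ^ q with hI
  have hIm : Measurable I := Measurable.lintegral_prod_right' hUq
  set B : ℝ≥0∞ := ENNReal.ofReal (((t₀.card : ℝ) + 1) ^ q * ((t₀.card : ℝ) + 1) * A ^ d) with hB
  set H : ℝ → ℝ≥0∞ := (Icc (-T) T).indicator (fun z => B * I z) with hH
  have hHm : Measurable H := (hIm.const_mul _).indicator measurableSet_Icc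
  have hslice : ∀ t, ∫⁻ x : Vec d, P (WithLp.toLp 2 (x, t)) ^ q ≤ H (c * t) := by
    intro t
    by_cases ht : c * t ∈ Icc (-T) T
    · rw [hH, indicator_of_mem ht]
      exact slice_bd hq hA (fun x => U (c * t, x)) (hUx _) t₀ δ (fun x => P (WithLp.toLp 2 (x, t)))
        (hpt t)
    · rw [hH, indicator_of_notMem ht]
      have : ∀ x : Vec d, P (WithLp.toLp 2 (x, t)) ^ q = 0 := by
        intro x
        rw [hsupp t x ht, ENNReal.zero_rpow_of_pos hq]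
      simp only [this, lintegral_zero]
      exact le_refl _
  rw [fub (hP.pow_const q)]
  calc ∫⁻ t : ℝ, ∫⁻ x : Vec d, P (WithLp.toLp 2 (x, t)) ^ q
      ≤ ∫⁻ t : ℝ, H (c * t) := lintegral_mono hslice
    _ = ENNReal.ofReal |c⁻¹| * ∫⁻ t : ℝ, H t := lint_time hc.ne' H hHm
    _ = ENNReal.ofReal |c⁻¹| * (B * ∫⁻ z in Icc (-T) T, I z) := by
        rw [hH, lintegral_indicator measurableSet_Icc, lintegral_const_mul _ hIm]
    _ = _ := by
        rw [← mul_assoc, hB, ← ENNReal.ofReal_mul (abs_nonneg _), abs_of_pos (inv_pos.2 hc)]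

/-- **Reduction to slabs.** -/
theorem box_uf {q σ : ℝ} (hq : 0 < q) (hσ : 0 < σ) (S : ℝ≥0) :
    ∃ M : ℝ, 0 < M ∧ ∀ N : ℝ, 1 ≤ N → ∀ (ι : Type) [Fintype ι] (ω β : ι → Vec d) (s : ι → ℝ)
      (f : ι → Fin d → Space d), (∀ i, ‖ω i‖ ≤ 1) →
      (∀ i, Orthonormal ℝ (Fin.cons (nor (ω i)) (f i) : Fin (d + 1) → Space d)) →
      (∀ i, |s i| ≤ S * N ^ 2) →
      ∫⁻ y, Fb N ω f (fun i => WithLp.toLp 2 (β i + s i • (-(2 : ℝ) • ω i), s i)) y ^ q ≤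
        ENNReal.ofReal (M * (N ^ (d + 2) * N ^ d)) *
          ∫⁻ z in Icc (-(1 + d + 2 * (S:ℝ))) (1 + d + 2 * S), ∫⁻ x,
            Uf (σ / N) (fun i => -ω i) (fun i => (N ^ 2)⁻¹ • β i) x z ^ q := by
  obtain ⟨t₀, ht₀⟩ := cover_ball d (2 * d / σ)
  refine ⟨((t₀.card : ℝ) + 1) ^ q * ((t₀.card : ℝ) + 1), by positivity, ?_⟩
  intro N hN ι _ ω β s f hω hf hs
  have hN0 : 0 < N := by linarith
  have hN2 : 0 < N ^ 2 := by positivity
  have hc0 : (0:ℝ) < 2 / N ^ 2 := by positivity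
  refine (assemble (T := 1 + (d:ℝ) + 2 * (S:ℝ)) hq hN2 hc0 _ (Fb_measurable N ω f _)
    (fun p => Uf (σ / N) (fun i => -ω i) (fun i => (N ^ 2)⁻¹ • β i) p.2 p.1)
    (Uf_meas (σ / N) (fun i => -ω i) (fun i => (N ^ 2)⁻¹ • β i)) t₀ (σ / N)
    (fun t x => box_pt hσ S hN hω hf hs t₀ ht₀ t x) ?_).trans ?_
  · intro t x ht
    unfold Fb
    refine Finset.sum_eq_zero fun i _ => ?_
    exact indicator_of_notMem (fun hm => ht (box_term hσ S hN (hω i) (hf i) (hs i) hm).1) _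
  · refine mul_le_mul' ?_ le_rfl
    apply ENNReal.ofReal_le_ofReal
    rw [inv_div]
    have e7 : (N ^ 2) ^ d = N ^ d * N ^ d := by rw [← pow_mul, mul_comm 2 d, pow_mul, sq]
    have e8 : N ^ (d + 2) = N ^ d * N ^ 2 := pow_add _ _ _
    rw [e7, e8]
    have : 0 ≤ ((t₀.card : ℝ) + 1) ^ q * ((t₀.card : ℝ) + 1) * (N ^ d * N ^ 2 * N ^ d) := by positivity
    calc N ^ 2 / 2 * (((t₀.card : ℝ) + 1) ^ q * ((t₀.card : ℝ) + 1) * (N ^ d * N ^ d)) =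
        1 / 2 * (((t₀.card : ℝ) + 1) ^ q * ((t₀.card : ℝ) + 1) * (N ^ d * N ^ 2 * N ^ d)) := by ring
      _ ≤ _ := by linarith

theorem card_le (hd : 1 ≤ d) {σ N : ℝ} (hσ : 0 < σ) (hσ1 : σ ≤ 1) (hN : 1 ≤ N) {ι : Type} [Fintype ι]
    (ω : ι → Vec d) (hω : ∀ i, ‖ω i‖ ≤ 1) (hsep : ∀ i j, i ≠ j → σ / N ≤ ‖ω i - ω j‖) :
    (Fintype.card ι : ℝ) ≤ (3 / σ) ^ d * N ^ d := by
  have hN0 : 0 < N := by linarith
  have h := packing hd (Finset.univ : Finset ι) ω 0 (R := 1) (ε := σ / N) (by positivity) (by norm_num)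
    (fun i _ j _ hij => hsep i j hij) (fun i _ => by rw [sub_zero]; exact hω i)
  rw [Finset.card_univ] at h
  refine h.trans ?_
  rw [← mul_pow]
  apply pow_le_pow_left₀ (by positivity)
  have : 1 ≤ N / σ := by rw [le_div_iff₀ hσ]; linarith
  calc 1 + 2 * 1 / (σ / N) = 1 + 2 * (N / σ) := by field_simp
    _ ≤ 3 * (N / σ) := by linarith
    _ = _ := by ring

theorem dir_caps {φ : Vec d → ℝ} (h : Dir φ) {σ : ℝ} (hσ : 0 < σ) : Dir (fun y => σ * φ (-y)) := by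
  intro w
  rcases h (-w) with h | h
  · left
    intro x
    have h1 := (h (-x)).smul hσ.le
    have e : (fun t : ℝ => σ * φ (-(x + t • w))) = fun t : ℝ => σ • φ (-x + t • (-w)) := by
      funext t
      rw [smul_eq_mul, smul_neg, neg_add]
    rw [e]
    exact h1
  · right
    intro x
    have h1 := (h (-x)).smul hσ.le
    have e : (fun t : ℝ => σ * φ (-(x + t • w))) = fun t : ℝ => σ • φ (-x + t • (-w)) := by
      funext t
      rw [smul_eq_mul, smul_neg, neg_add]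
    rw [e]
    exact h1

theorem data_caps {σ N K L l : ℝ} (hσ : 0 < σ) (hσ1 : σ ≤ 1) (hN : 1 ≤ N) (hl : 0 < l)
    {ι : Type} {φ : Vec d → ℝ} {F : ℤ → Vec d} {ω β : ι → Vec d} (hω : ∀ i, ‖ω i‖ ≤ 1)
    (hsep : ∀ i j, i ≠ j → σ / N ≤ ‖ω i - ω j‖)
    (hpos : ∀ i, ‖β i - F ⌊N * φ (ω i)⌋‖ ≤ K * N)
    (hlip : ∀ x y, ‖x‖ ≤ 2 → ‖y‖ ≤ 2 → |φ x - φ y| ≤ L * ‖x - y‖)
    (hst : ∀ i, ∃ e : Vec d, ‖e‖ = 1 ∧ ∀ y θ, ‖y - ω i‖ ≤ l → 0 ≤ θ → θ ≤ l →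
      φ y + l * θ ≤ φ (y + θ • e)) :
    Data (fun y => σ * φ (-y)) (fun k => (N ^ 2)⁻¹ • F k) (fun i => -ω i)
      (fun i => (N ^ 2)⁻¹ • β i) (fun i => ⌊N * φ (ω i)⌋) (σ * L) (σ * l) (σ / N) (K / σ) := by
  have hN0 : 0 < N := by linarith
  have hN2 : 0 < N ^ 2 := by positivity
  refine ⟨?_, ?_, ?_, ?_, ?_, ?_⟩
  · intro y z hy hz
    have h := hlip (-y) (-z) (by rwa [norm_neg]) (by rwa [norm_neg])
    have e : -y - -z = -(y - z) := by abel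
    rw [e, norm_neg] at h
    rw [← mul_sub, abs_mul, abs_of_pos hσ, mul_assoc]
    exact mul_le_mul_of_nonneg_left h hσ.le
  · intro i
    rw [norm_neg]
    exact hω i
  · intro i
    obtain ⟨e, he, h⟩ := hst i
    refine ⟨-e, by rwa [norm_neg], ?_⟩
    intro y θ hy h0 h1
    have hll : σ * l ≤ l := by nlinarith
    have h2 := h (-y) θ (by
      have e2 : -y - ω i = -(y - -ω i) := by abel
      rw [e2, norm_neg]
      exact hy.trans hll) h0 (h1.trans hll)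
    have e3 : -(y + θ • -e) = -y + θ • e := by
      rw [smul_neg]
      abel
    show σ * φ (-y) + σ * l * θ ≤ σ * φ (-(y + θ • -e))
    rw [e3]
    calc σ * φ (-y) + σ * l * θ = σ * (φ (-y) + l * θ) := by ring
      _ ≤ _ := mul_le_mul_of_nonneg_left h2 hσ.le
  · intro i j hij
    have e : -ω i - -ω j = -(ω i - ω j) := by abel
    show σ / N ≤ ‖-ω i - -ω j‖
    rw [e, norm_neg]
    exact hsep i j hij
  · intro i
    show |σ * φ (- -ω i) - (⌊N * φ (ω i)⌋ : ℝ) * (σ / N)| ≤ σ / N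
    rw [neg_neg]
    have h1 := Int.floor_le (N * φ (ω i))
    have h2 := Int.lt_floor_add_one (N * φ (ω i))
    have e : σ * φ (ω i) - (⌊N * φ (ω i)⌋ : ℝ) * (σ / N) =
        (N * φ (ω i) - ⌊N * φ (ω i)⌋) * (σ / N) := by
      field_simp
    rw [e, abs_mul, abs_of_pos (by positivity : 0 < σ / N), abs_of_nonneg (by linarith)]
    have h3 : N * φ (ω i) - ⌊N * φ (ω i)⌋ ≤ 1 := by linarith
    calc _ ≤ 1 * (σ / N) := mul_le_mul_of_nonneg_right h3 (by positivity)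
      _ = _ := one_mul _
  · intro i
    show ‖(N ^ 2)⁻¹ • β i - (N ^ 2)⁻¹ • F ⌊N * φ (ω i)⌋‖ ≤ K / σ * (σ / N)
    rw [← smul_sub, norm_smul, norm_inv, Real.norm_eq_abs, abs_of_pos hN2, inv_mul_le_iff₀ hN2]
    refine (hpos i).trans (le_of_eq ?_)
    field_simp

/-- The integral estimate above the critical exponent. -/
theorem caps_two (hd : 1 ≤ d) {σ K L l q : ℝ} (hσ : 0 < σ) (hσ1 : σ ≤ 1) (hK : 0 ≤ K) (hL : 0 ≤ L)
    (hl : 0 < l) (S : ℝ≥0) (hq : 1 + 1 / (d:ℝ) < q) (hq2 : q ≤ 2) :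
    ∃ E : ℝ, 0 < E ∧ ∀ N : ℝ, 1 ≤ N → ∀ (φ : Vec d → ℝ), Dir φ → ∀ (F : ℤ → Vec d)
      (ι : Type) [Fintype ι] [Nonempty ι] (ω β : ι → Vec d) (s : ι → ℝ) (f : ι → Fin d → Space d),
      (∀ i, ‖ω i‖ ≤ 1) → (∀ i j, i ≠ j → σ / N ≤ ‖ω i - ω j‖) →
      (∀ i, Orthonormal ℝ (Fin.cons (nor (ω i)) (f i) : Fin (d + 1) → Space d)) →
      (∀ i, |s i| ≤ S * N ^ 2) → (∀ i, ‖β i - F ⌊N * φ (ω i)⌋‖ ≤ K * N) →
      (∀ x y, ‖x‖ ≤ 2 → ‖y‖ ≤ 2 → |φ x - φ y| ≤ L * ‖x - y‖) →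
      (∀ i, ∃ e : Vec d, ‖e‖ = 1 ∧ ∀ y θ, ‖y - ω i‖ ≤ l → 0 ≤ θ → θ ≤ l →
        φ y + l * θ ≤ φ (y + θ • e)) →
      ∫⁻ y, Fb N ω f (fun i => WithLp.toLp 2 (β i + s i • (-(2 : ℝ) • ω i), s i)) y ^ q ≤
        ENNReal.ofReal (E * N ^ (d + 2) * (Fintype.card ι : ℝ) ^ (q - 1 / (d : ℝ))) := by
  have hd0 : (0:ℝ) < d := by exact_mod_cast hd
  have hd1 : (0:ℝ) < 1 / d := by positivity
  have hS0 : (0 : ℝ) ≤ S := S.2
  obtain ⟨M, hM, hbox⟩ := box_uf (d := d) (q := q) (σ := σ) (by linarith) hσ S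
  set T : ℝ := 1 + d + 2 * S with hT
  have hT0 : 0 < T := by rw [hT]; positivity
  set κ : ℝ := 6 + 2 * (K / σ) with hκ
  have hκ0 : 0 < κ := by rw [hκ]; positivity
  set E1 : ℝ := max 1 (E0 d T κ (σ * L) (σ * l) q) with hE1
  have hE10 : 0 < E1 := lt_of_lt_of_le one_pos (le_max_left _ _)
  refine ⟨M * E1, by positivity, ?_⟩
  intro N hN φ hφ F ι _ _ ω β s f hω hsep hf hs hpos hlip hst
  have hN0 : 0 < N := by linarith
  have hδ1 : σ / N ≤ 1 := by rw [div_le_one hN0]; linarith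
  have D := data_caps (K := K) hσ hσ1 hN hl hω hsep hpos hlip hst
  have h1 := total hd hκ0 (by positivity : 0 ≤ σ * L) (by positivity : 0 < σ * l) hT0 hq hq2
    (dir_caps hφ hσ) D hκ.ge (by positivity : 0 < σ / N) hδ1
  refine (hbox N hN ι ω β s f hω hf hs).trans ?_
  refine (mul_le_mul' le_rfl h1).trans ?_
  rw [← ENNReal.ofReal_mul (by positivity)]
  apply ENNReal.ofReal_le_ofReal
  have hc : 0 ≤ (Fintype.card ι : ℝ) ^ (q - 1 / (d:ℝ)) := by positivity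
  have hδN : (σ / N) ^ d * N ^ d ≤ 1 := by
    rw [← mul_pow, div_mul_cancel₀ _ hN0.ne']
    exact pow_le_one₀ hσ.le hσ1
  calc M * (N ^ (d + 2) * N ^ d) * (E0 d T κ (σ * L) (σ * l) q *
        ((σ / N) ^ d * (Fintype.card ι : ℝ) ^ (q - 1 / (d:ℝ))))
      ≤ M * (N ^ (d + 2) * N ^ d) * (E1 * ((σ / N) ^ d * (Fintype.card ι : ℝ) ^ (q - 1 / (d:ℝ)))) := by
        gcongr
        exact le_max_right _ _
    _ = M * E1 * N ^ (d + 2) * (Fintype.card ι : ℝ) ^ (q - 1 / (d:ℝ)) * ((σ / N) ^ d * N ^ d) := by ring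
    _ ≤ M * E1 * N ^ (d + 2) * (Fintype.card ι : ℝ) ^ (q - 1 / (d:ℝ)) * 1 := by gcongr
    _ = _ := by ring

/-- The integral estimate at the critical exponent. -/
theorem caps_crit (hd : 1 ≤ d) {σ K L l : ℝ} (hσ : 0 < σ) (hσ1 : σ ≤ 1) (hK : 0 ≤ K) (hL : 0 ≤ L)
    (hl : 0 < l) (S : ℝ≥0) :
    ∃ E : ℝ, 0 < E ∧ ∀ N : ℝ, 1 ≤ N → ∀ (φ : Vec d → ℝ), Dir φ → ∀ (F : ℤ → Vec d)
      (ι : Type) [Fintype ι] [Nonempty ι] (ω β : ι → Vec d) (s : ι → ℝ) (f : ι → Fin d → Space d),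
      (∀ i, ‖ω i‖ ≤ 1) → (∀ i j, i ≠ j → σ / N ≤ ‖ω i - ω j‖) →
      (∀ i, Orthonormal ℝ (Fin.cons (nor (ω i)) (f i) : Fin (d + 1) → Space d)) →
      (∀ i, |s i| ≤ S * N ^ 2) → (∀ i, ‖β i - F ⌊N * φ (ω i)⌋‖ ≤ K * N) →
      (∀ x y, ‖x‖ ≤ 2 → ‖y‖ ≤ 2 → |φ x - φ y| ≤ L * ‖x - y‖) →
      (∀ i, ∃ e : Vec d, ‖e‖ = 1 ∧ ∀ y θ, ‖y - ω i‖ ≤ l → 0 ≤ θ → θ ≤ l →
        φ y + l * θ ≤ φ (y + θ • e)) →
      ∫⁻ y, Fb N ω f (fun i => WithLp.toLp 2 (β i + s i • (-(2 : ℝ) • ω i), s i)) y ^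
          (1 + 1 / (d : ℝ)) ≤
        ENNReal.ofReal (E * (N ^ (d + 2) * N ^ d) * (1 + Real.log N)) := by
  have hd0 : (0:ℝ) < d := by exact_mod_cast hd
  have hd1 : (0:ℝ) < 1 / d := by positivity
  have hS0 : (0 : ℝ) ≤ S := S.2
  obtain ⟨M, hM, hbox⟩ := box_uf (d := d) (q := 1 + 1 / (d:ℝ)) (σ := σ) (by linarith) hσ S
  set T : ℝ := 1 + d + 2 * S with hT
  have hT0 : 0 < T := by rw [hT]; positivity
  set κ : ℝ := 6 + 2 * (K / σ) with hκ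
  have hκ0 : 0 < κ := by rw [hκ]; positivity
  obtain ⟨E2, hE2, hcr⟩ := crit_total (d := d) (κ := κ) (Λ := σ * L) (lam := σ * l) hd hκ0
    (by positivity) (by positivity) hT0
  set A : ℝ := (3 / σ) ^ d with hA
  have h3σ : 1 ≤ 3 / σ := by rw [le_div_iff₀ hσ]; linarith
  have hA1 : 1 ≤ A := one_le_pow₀ h3σ
  have hlogA : 0 ≤ Real.log A := Real.log_nonneg hA1
  refine ⟨M * (E2 * (A * (1 + Real.log A + d))), by positivity, ?_⟩
  intro N hN φ hφ F ι _ _ ω β s f hω hsep hf hs hpos hlip hst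
  have hN0 : 0 < N := by linarith
  have hδ1 : σ / N ≤ 1 := by rw [div_le_one hN0]; linarith
  have D := data_caps (K := K) hσ hσ1 hN hl hω hsep hpos hlip hst
  have h1 := hcr ι _ (dir_caps hφ hσ) _ _ _ _ _ _ D hκ.ge (by positivity) hδ1
  refine (hbox N hN ι ω β s f hω hf hs).trans ?_
  refine (mul_le_mul' le_rfl h1).trans ?_
  rw [← ENNReal.ofReal_mul (by positivity)]
  apply ENNReal.ofReal_le_ofReal
  have hcard := card_le hd hσ hσ1 hN ω hω hsep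
  rw [← hA] at hcard
  have hc1 : (1:ℝ) ≤ Fintype.card ι := by exact_mod_cast Fintype.card_pos
  set c : ℝ := (Fintype.card ι : ℝ) with hc
  have hc0 : 0 < c := by linarith
  have hlogN : 0 ≤ Real.log N := Real.log_nonneg hN
  have hlogc : 0 ≤ Real.log c := Real.log_nonneg hc1
  have hlog : Real.log c ≤ Real.log A + d * Real.log N := by
    have h2 := Real.log_le_log hc0 hcard
    rwa [Real.log_mul (by positivity) (by positivity), Real.log_pow N d] at h2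
  have h3 : 1 + Real.log c ≤ (1 + Real.log A + d) * (1 + Real.log N) := by nlinarith
  have hδN : (σ / N) ^ d * N ^ d ≤ 1 := by
    rw [← mul_pow, div_mul_cancel₀ _ hN0.ne']
    exact pow_le_one₀ hσ.le hσ1
  calc M * (N ^ (d + 2) * N ^ d) * (E2 * ((σ / N) ^ d * (c * (1 + Real.log c))))
      = M * N ^ (d + 2) * (E2 * (c * (1 + Real.log c))) * ((σ / N) ^ d * N ^ d) := by ring
    _ ≤ M * N ^ (d + 2) * (E2 * (c * (1 + Real.log c))) * 1 := by gcongr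
    _ ≤ M * N ^ (d + 2) * (E2 * (A * N ^ d * ((1 + Real.log A + d) * (1 + Real.log N)))) * 1 := by
        gcongr
    _ = _ := by ring

end Pool.Agent.U515.CL
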