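import Pool.Agent.U515.CL.Window

set_option autoImplicit false

/-! The sum over all windows, critical exponent. -/

open MeasureTheory Set ENNReal Real Metric

namespace Pool.Agent.U515.CL

open Pool.Agent.H810R3.Tub Pool.Agent.U527.Crv

variable {d : ℕ}

/-- A layer is met in the windows of a few scales only. -/
theorem active_close {ψ : Vec d → ℝ} {p w x x' : Vec d} {δ Λ κ T g r r' ρ ρ' z z' : ℝ}
    (hδ : 0 < δ) (hΛ : 0 ≤ Λ) (hκ : 0 < κ) (hρ : 0 < ρ) (hρ' : 0 < ρ') (hρT : ρ ≤ T) (hρT' : ρ' ≤ T)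
    (hlip : ∀ y z, ‖y‖ ≤ 2 → ‖z‖ ≤ 2 → |ψ y - ψ z| ≤ Λ * ‖y - z‖)
    (hc : ∀ x, ConvexOn ℝ univ (fun t : ℝ => ψ (x + t • w)))
    (hx : ‖x‖ ≤ 1) (hx' : ‖x'‖ ≤ 1) (hxr : |ψ x - r| ≤ δ) (hxr' : |ψ x' - r| ≤ δ)
    (hp : |ψ p - r'| ≤ δ) (hgap : r - r' = g * δ)
    (hB : 3 * T + 2 * Λ * κ ≤ g * ρ) (hB' : 3 * T + 2 * Λ * κ ≤ g * ρ')
    (hz : ρ ≤ z) (hz' : ρ' ≤ z') (hz2' : z' ≤ 2 * ρ')
    (hxz : ‖x - (p + z⁻¹ • w)‖ ≤ κ * δ / ρ) (hxz' : ‖x' - (p + z'⁻¹ • w)‖ ≤ κ * δ / ρ')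
    (hb : κ * δ / ρ ≤ 1) (hb' : κ * δ / ρ' ≤ 1) : ρ ≤ 10 * ρ' := by
  have hT : 0 < T := lt_of_lt_of_le hρ hρT
  have hz0 : 0 < z := lt_of_lt_of_le hρ hz
  have hz0' : 0 < z' := lt_of_lt_of_le hρ' hz'
  by_cases hzz : z ≤ z'
  · linarith
  push Not at hzz
  have est : ∀ (y : Vec d) (τ ζ : ℝ), 0 < τ → τ ≤ T → 3 * T + 2 * Λ * κ ≤ g * τ → ‖y‖ ≤ 1 → |ψ y - r| ≤ δ →
      ‖y - (p + ζ⁻¹ • w)‖ ≤ κ * δ / τ → κ * δ / τ ≤ 1 →
      g * δ / 3 ≤ ψ (p + ζ⁻¹ • w) - ψ p ∧ ψ (p + ζ⁻¹ • w) - ψ p ≤ 5 * (g * δ) / 3 := by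
    intro y τ ζ hτ hτT hBτ hy hyr hyz hbτ
    have h1 : ‖p + ζ⁻¹ • w‖ ≤ 2 := by
      calc ‖p + ζ⁻¹ • w‖ = ‖y - (y - (p + ζ⁻¹ • w))‖ := by congr 1; abel
        _ ≤ ‖y‖ + ‖y - (p + ζ⁻¹ • w)‖ := norm_sub_le _ _
        _ ≤ 1 + 1 := add_le_add hy (hyz.trans hbτ)
        _ = 2 := by norm_num
    have h2 := abs_le.1 (hlip y (p + ζ⁻¹ • w) (hy.trans (by norm_num)) h1)
    have h3 : Λ * ‖y - (p + ζ⁻¹ • w)‖ ≤ Λ * (κ * δ / τ) := mul_le_mul_of_nonneg_left hyz hΛ
    have h4 := abs_le.1 hyr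
    have h5 := abs_le.1 hp
    have h6 : 3 * (2 * δ + Λ * (κ * δ / τ)) ≤ 2 * (g * δ) := by
      have k1 : 2 * δ ≤ 2 * T * δ / τ := by
        rw [le_div_iff₀ hτ]
        nlinarith
      have k2 : (3 * T + 2 * Λ * κ) * δ / τ ≤ g * δ := by
        rw [div_le_iff₀ hτ]
        nlinarith
      have e3 : (3 * T + 2 * Λ * κ) * δ / τ = 3 / 2 * (2 * T * δ / τ) + 2 * (Λ * (κ * δ / τ)) := by ring
      rw [e3] at k2
      have k4 : 0 ≤ Λ * (κ * δ / τ) := by positivity
      linarith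
    constructor <;> linarith [h2.1, h2.2, h4.1, h4.2, h5.1, h5.2]
  obtain ⟨a1, _⟩ := est x ρ z hρ hρT hB hx hxr hxz hb
  obtain ⟨_, a2⟩ := est x' ρ' z' hρ' hρT' hB' hx' hxr' hxz' hb'
  have hg : 0 < g * δ := by
    have : 0 < g * ρ := by
      have : 0 ≤ 2 * Λ * κ := by positivity
      linarith
    have : 0 < g := by
      by_contra hcon
      push Not at hcon
      nlinarith
    positivity
  -- convexity
  have hle : z' / z ≤ 1 := by rw [div_le_one hz0]; exact hzz.le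
  have hc0 : 0 ≤ z' / z := by positivity
  have h1 := (hc p).2 (mem_univ (0:ℝ)) (mem_univ z'⁻¹) (by linarith : 0 ≤ 1 - z' / z) hc0
    (by ring)
  simp only [smul_eq_mul, mul_zero, zero_add, zero_smul, add_zero] at h1
  have e1 : z' / z * z'⁻¹ = z⁻¹ := by field_simp
  rw [e1] at h1
  have h2 : ψ (p + z⁻¹ • w) - ψ p ≤ z' / z * (ψ (p + z'⁻¹ • w) - ψ p) := by linarith
  have h3 : g * δ / 3 ≤ z' / z * (5 * (g * δ) / 3) := by
    refine a1.trans (h2.trans ?_)
    exact mul_le_mul_of_nonneg_left a2 hc0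
  have h4 : 1 ≤ 5 * (z' / z) := by
    by_contra hcon
    push Not at hcon
    nlinarith
  have h5 : z ≤ 5 * z' := by
    have : z ≤ 5 * (z' / z) * z := by nlinarith
    calc z ≤ 5 * (z' / z) * z := this
      _ = 5 * z' := by field_simp
  linarith

/-- The constants. -/
noncomputable def K1 (d : ℕ) (T κ Λ lam : ℝ) : ℝ :=
  (T + 2 * C1 κ lam) ^ d + 24 * Λ + 2 * A1 d T κ Λ lam * (3 * T + 2 * Λ * κ + 1 + T)

noncomputable def K2 (d : ℕ) (T κ Λ : ℝ) : ℝ := 16 * A2 d T κ Λ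

/-- The sum over the windows, for one tube. -/
theorem crit_fixed (hd : 1 ≤ d) {T κ Λ lam : ℝ} (hκ0 : 0 < κ) (hΛ : 0 ≤ Λ) (hlam : 0 < lam)
    {ι : Type} [Fintype ι] {ψ : Vec d → ℝ} {F : ℤ → Vec d}
    {v β : ι → Vec d} {ℓ : ι → ℤ} {δ K ρ₀ : ℝ} (D : Data ψ F v β ℓ Λ lam δ K)
    (hκ : 6 + 2 * K ≤ κ) (hδ : 0 < δ) (hδ1 : δ ≤ 1) (hρ₀ : 0 < ρ₀) (L : ℕ)
    (hL : ∀ l < L, 2 ^ l * ρ₀ ≤ T) (hT : 0 < T) (t : ι) (P : Finset ι)
    (hP : ∀ s ∈ P, Good ψ F (ℓ t) (ℓ s)) :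
    ∑ l ∈ Finset.range L, (2 ^ l * ρ₀) ^ (d - 1) *
        ∑ s ∈ P, ov δ (2 ^ l * ρ₀) (β t - β s) (v t - v s) ≤
      L * K1 d T κ Λ lam + K2 d T κ Λ *
        (1 + Real.log ((⌈(Fintype.card ι : ℝ) * T ^ (d - 1)⌉₊ + 3 : ℕ) : ℝ)) := by
  classical
  have hA1 : 0 ≤ A1 d T κ Λ lam := by unfold A1; positivity
  have hA2 : 0 ≤ A2 d T κ Λ := by unfold A2; positivity
  have hC1 : 0 < C1 κ lam := by unfold C1; positivity
  set N : ℝ := (Fintype.card ι : ℝ) with hNd
  have hNpos : 0 < N := by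
    rw [hNd]
    exact_mod_cast Fintype.card_pos_iff.2 ⟨t⟩
  set X : ℝ := N * T ^ (d - 1) with hX
  have hX0 : 0 < X := by positivity
  set G : ℕ := ⌈X⌉₊ + 2 with hG
  set B : ℝ := 3 * T + 2 * Λ * κ + 1 with hB
  have hB1 : 1 ≤ B := by
    have : 0 ≤ 2 * Λ * κ := by positivity
    rw [hB]; linarith
  set ρ : ℕ → ℝ := fun l => 2 ^ l * ρ₀ with hρd
  have hρ0 : ∀ l, 0 < ρ l := fun l => by rw [hρd]; positivity
  have hρT : ∀ l < L, ρ l ≤ T := hL
  have hpow : ∀ l, (ρ l) ^ (d - 1) * (ρ l / (ρ l) ^ d) = 1 := by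
    intro l
    have h0 := hρ0 l
    have e : (ρ l) ^ d = (ρ l) ^ (d - 1) * ρ l := by
      rw [← pow_succ, Nat.sub_add_cancel hd]
    rw [e]
    field_simp
  set f : ℕ → ι → ℝ := fun l s => ov δ (ρ l) (β t - β s) (v t - v s) with hf
  have hf0 : ∀ l s, 0 ≤ f l s := fun l s => ov_nonneg _ _
  set far : ℕ → Finset ι := fun l => P.filter (fun s => ¬ ‖v t - v s‖ ≤ C1 κ lam * δ / ρ l) with hfar
  set P4 : ℕ → Finset ι := fun l =>
    ((far l).filter (fun s => ¬ G < (ℓ s - ℓ t).natAbs)).filter (fun s => f l s ≠ 0) with hP4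
  set c : ℕ → ℤ → ℝ := fun l j => ∑ s ∈ (P4 l).filter (fun s => ℓ s = j), f l s with hc
  have hc0 : ∀ l j, 0 ≤ c l j := fun l j => Finset.sum_nonneg fun s _ => hf0 l s
  set gg : ℤ → ℝ := fun j => ((j - ℓ t).natAbs : ℝ) with hgg
  have hgg0 : ∀ j, 0 ≤ gg j := fun j => Nat.cast_nonneg _
  set act : ℕ → ℤ → Prop := fun l j => B ≤ gg j * ρ l ∧ c l j ≠ 0 with hact
  -- one window
  have hone : ∀ l < L, (ρ l) ^ (d - 1) * ∑ s ∈ P, f l s ≤
      (T + 2 * C1 κ lam) ^ d + 24 * Λ +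
        ∑ j ∈ Finset.Icc (ℓ t - G) (ℓ t + G), (ρ l) ^ (d - 1) * c l j := by
    intro l hl
    have h0 := hρ0 l
    have hlT := hρT l hl
    have hr0 : 0 ≤ (ρ l) ^ (d - 1) := by positivity
    have hsplit : ∑ s ∈ P, f l s = ∑ s ∈ P.filter (fun s => ‖v t - v s‖ ≤ C1 κ lam * δ / ρ l), f l s +
        (∑ s ∈ (far l).filter (fun s => G < (ℓ s - ℓ t).natAbs), f l s +
          ∑ s ∈ (far l).filter (fun s => ¬ G < (ℓ s - ℓ t).natAbs), f l s) := by
      rw [Finset.sum_filter_add_sum_filter_not, hfar]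
      simp only
      rw [Finset.sum_filter_add_sum_filter_not]
    have h1 : ∑ s ∈ P.filter (fun s => ‖v t - v s‖ ≤ C1 κ lam * δ / ρ l), f l s ≤
        (T + 2 * C1 κ lam) ^ d * (ρ l / (ρ l) ^ d) := by
      set P1 := P.filter (fun s => ‖v t - v s‖ ≤ C1 κ lam * δ / ρ l) with hP1
      have hcc := packing hd P1 v (v t) (R := C1 κ lam * δ / ρ l) (ε := δ) hδ (by positivity)
        (fun i _ j _ hij => D.sep i j hij) (fun i hi => by
          rw [hP1, Finset.mem_filter] at hi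
          rw [norm_sub_rev]
          exact hi.2)
      have hc2 : (P1.card : ℝ) ≤ (T + 2 * C1 κ lam) ^ d / (ρ l) ^ d := by
        refine hcc.trans ?_
        rw [← div_pow]
        have e : 1 + 2 * (C1 κ lam * δ / ρ l) / δ = (ρ l + 2 * C1 κ lam) / ρ l := by field_simp
        rw [e]
        gcongr
      calc ∑ s ∈ P1, f l s ≤ P1.card • ρ l :=
            Finset.sum_le_card_nsmul _ _ _ (fun s _ => ov_le_rho h0 _ _)
        _ = P1.card * ρ l := nsmul_eq_mul _ _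
        _ ≤ ((T + 2 * C1 κ lam) ^ d / (ρ l) ^ d) * ρ l := by gcongr
        _ = _ := by ring
    have h2 : ∑ s ∈ (far l).filter (fun s => G < (ℓ s - ℓ t).natAbs), f l s ≤
        24 * Λ / T ^ (d - 1) := by
      set P2 := (far l).filter (fun s => G < (ℓ s - ℓ t).natAbs) with hP2
      have hb : ∀ s ∈ P2, f l s ≤ 24 * Λ / X := by
        intro s hs
        rw [hP2, Finset.mem_filter, hfar] at hs
        simp only [Finset.mem_filter] at hs
        obtain ⟨⟨_, hs2⟩, hs3⟩ := hs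
        push Not at hs2
        have hu : 0 < ‖v t - v s‖ := lt_trans (by positivity) hs2
        refine (ov_le (β t - β s) hu hδ).trans ?_
        have hgap : X * δ ≤ Λ * ‖v t - v s‖ := by
          have g1 : X + 2 ≤ ((ℓ s - ℓ t).natAbs : ℝ) := by
            have g2 : G ≤ (ℓ s - ℓ t).natAbs := hs3.le
            have g3 : (G:ℝ) ≤ ((ℓ s - ℓ t).natAbs : ℝ) := by exact_mod_cast g2
            have g4 := Nat.le_ceil X
            have g5 : (G:ℝ) = ⌈X⌉₊ + 2 := by rw [hG]; push_cast; ring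
            linarith
          have g6 : ((ℓ s - ℓ t).natAbs : ℝ) = |(ℓ s:ℝ) - ℓ t| := by
            rw [Nat.cast_natAbs]
            push_cast
            rfl
          rw [g6] at g1
          have g7 : |(ℓ s:ℝ) - ℓ t| * δ ≤ |ψ (v t) - ψ (v s)| + 2 * δ := by
            have g8 := D.lay s
            have g9 := D.lay t
            calc |(ℓ s:ℝ) - ℓ t| * δ = |(ℓ s:ℝ) * δ - ℓ t * δ| := by
                  rw [← sub_mul, abs_mul, abs_of_pos hδ]
              _ = |(ψ (v t) - ℓ t * δ) - (ψ (v s) - ℓ s * δ) - (ψ (v t) - ψ (v s))| := by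
                  congr 1; ring
              _ ≤ |(ψ (v t) - ℓ t * δ) - (ψ (v s) - ℓ s * δ)| + |ψ (v t) - ψ (v s)| := abs_sub _ _
              _ ≤ (|ψ (v t) - ℓ t * δ| + |ψ (v s) - ℓ s * δ|) + |ψ (v t) - ψ (v s)| := by
                  gcongr
                  exact abs_sub _ _
              _ ≤ (δ + δ) + |ψ (v t) - ψ (v s)| := by gcongr
              _ = _ := by ring
          have g10 := D.lip (v t) (v s) ((D.hv t).trans (by norm_num)) ((D.hv s).trans (by norm_num))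
          nlinarith
        rw [div_le_div_iff₀ hu hX0]
        nlinarith
      calc ∑ s ∈ P2, f l s ≤ P2.card • (24 * Λ / X) := Finset.sum_le_card_nsmul _ _ _ hb
        _ = P2.card * (24 * Λ / X) := nsmul_eq_mul _ _
        _ ≤ N * (24 * Λ / X) := by
            gcongr
            rw [hNd]
            exact_mod_cast Finset.card_le_univ P2
        _ = _ := by
            rw [hX]
            field_simp
    have h3 : ∑ s ∈ (far l).filter (fun s => ¬ G < (ℓ s - ℓ t).natAbs), f l s =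
        ∑ j ∈ Finset.Icc (ℓ t - G) (ℓ t + G), c l j := by
      have e4 : ∑ s ∈ (far l).filter (fun s => ¬ G < (ℓ s - ℓ t).natAbs), f l s =
          ∑ s ∈ P4 l, f l s := by
        rw [hP4]
        simp only
        rw [Finset.sum_filter_ne_zero]
      rw [e4, hc]
      simp only
      rw [Finset.sum_fiberwise_of_maps_to]
      intro s hs
      rw [hP4] at hs
      simp only [Finset.mem_filter] at hs
      have := hs.1.2
      rw [Finset.mem_Icc]
      omega
    have k3 : (ρ l) ^ (d - 1) * ∑ j ∈ Finset.Icc (ℓ t - G) (ℓ t + G), c l j =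
        ∑ j ∈ Finset.Icc (ℓ t - G) (ℓ t + G), (ρ l) ^ (d - 1) * c l j := Finset.mul_sum _ _ _
    rw [hsplit, h3, mul_add, mul_add, k3]
    have k1 : (ρ l) ^ (d - 1) * ∑ s ∈ P.filter (fun s => ‖v t - v s‖ ≤ C1 κ lam * δ / ρ l), f l s ≤
        (T + 2 * C1 κ lam) ^ d := by
      calc _ ≤ (ρ l) ^ (d - 1) * ((T + 2 * C1 κ lam) ^ d * (ρ l / (ρ l) ^ d)) := by gcongr
        _ = (T + 2 * C1 κ lam) ^ d * ((ρ l) ^ (d - 1) * (ρ l / (ρ l) ^ d)) := by ring
        _ = _ := by rw [hpow, mul_one]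
    have k2 : (ρ l) ^ (d - 1) * ∑ s ∈ (far l).filter (fun s => G < (ℓ s - ℓ t).natAbs), f l s ≤
        24 * Λ := by
      have hnn : 0 ≤ ∑ s ∈ (far l).filter (fun s => G < (ℓ s - ℓ t).natAbs), f l s :=
        Finset.sum_nonneg fun s _ => hf0 l s
      calc _ ≤ T ^ (d - 1) * (24 * Λ / T ^ (d - 1)) :=
            mul_le_mul (pow_le_pow_left₀ h0.le hlT _) h2 hnn (by positivity)
        _ = _ := by field_simp
    linarith
  -- the geometry of the members of `c l j`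
  have hmem : ∀ l j, ∀ s ∈ (P4 l).filter (fun s => ℓ s = j), s ∈ P ∧ C1 κ lam * δ / ρ l < ‖v t - v s‖ ∧
      f l s ≠ 0 ∧ ℓ s = j := by
    intro l j s hs
    rw [hP4, hfar] at hs
    simp only [Finset.mem_filter] at hs
    exact ⟨hs.1.1.1.1, not_le.1 hs.1.1.1.2, hs.1.2, hs.2⟩
  have hpair : ∀ j, ∀ s, ℓ s = j → ‖(β t - β s) - (F (ℓ t) - F j)‖ ≤ 2 * K * δ := by
    intro j s hs
    have e : β t - β s - (F (ℓ t) - F j) = (β t - F (ℓ t)) - (β s - F j) := by abel
    rw [e]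
    have h1 := D.pos t
    have h2 := D.pos s
    rw [hs] at h2
    calc _ ≤ ‖β t - F (ℓ t)‖ + ‖β s - F j‖ := norm_sub_le _ _
      _ ≤ K * δ + K * δ := add_le_add h1 h2
      _ = 2 * K * δ := by ring
  have hcase : ∀ j, Good ψ F (ℓ t) j → ((∀ x, ConvexOn ℝ univ (fun u : ℝ => ψ (x + u • (F (ℓ t) - F j)))) ∧
        (j:ℝ) * δ - ℓ t * δ = gg j * δ) ∨
      ((∀ x, ConcaveOn ℝ univ (fun u : ℝ => ψ (x + u • (F (ℓ t) - F j)))) ∧
        (ℓ t:ℝ) * δ - j * δ = gg j * δ) := by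
    intro j hg
    rcases hg with ⟨h1, h2⟩ | ⟨h1, h2⟩
    · left
      refine ⟨h1, ?_⟩
      have e : gg j = (j:ℝ) - ℓ t := by
        rw [hgg]
        simp only
        rw [Nat.cast_natAbs, abs_of_nonneg (by omega)]
        push_cast
        ring
      rw [e]; ring
    · right
      refine ⟨h1, ?_⟩
      have e : gg j = (ℓ t:ℝ) - j := by
        rw [hgg]
        simp only
        rw [Nat.cast_natAbs, abs_of_nonpos (by omega)]
        push_cast
        ring
      rw [e]; ring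
  -- bounds for `c l j`
  have hcb : ∀ l < L, ∀ j, (ρ l) ^ (d - 1) * c l j ≤
      (if gg j * ρ l < B then A1 d T κ Λ lam * ρ l else 0) +
      (if act l j then A2 d T κ Λ * (2 / (gg j + 1)) else 0) := by
    intro l hl j
    have h0 := hρ0 l
    by_cases hz : c l j = 0
    · have e0 : (ρ l) ^ (d - 1) * c l j = 0 := by rw [hz, mul_zero]
      refine e0.le.trans ?_
      have : 0 ≤ gg j := hgg0 j
      positivity
    have hne : ((P4 l).filter (fun s => ℓ s = j)).Nonempty := by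
      rw [Finset.nonempty_iff_ne_empty]
      intro he
      apply hz
      rw [hc]
      simp only
      rw [he, Finset.sum_empty]
    obtain ⟨s0, hs0⟩ := hne
    have hgood : Good ψ F (ℓ t) j := by
      obtain ⟨a1, _, _, a4⟩ := hmem l j s0 hs0
      rw [← a4]
      exact hP s0 a1
    obtain ⟨b1, b2⟩ := layer_bd hd ((P4 l).filter (fun s => ℓ s = j)) v (v t) (F (ℓ t) - F j)
      (fun s => β t - β s) (ψ := ψ) (T := T)
      (κ := κ) (Λ := Λ) (lam := lam) (δ := δ) (ρ := ρ l) (r := j * δ) (r' := ℓ t * δ) (K := K) hκ hκ0 hΛ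
      hlam hδ hδ1 h0 (hρT l hl) D.lip (fun i _ => D.hv i) (D.hv t) (fun i _ => D.reg i)
      (fun i _ k _ hik => D.sep i k hik)
      (fun i hi => by rw [← (hmem l j i hi).2.2.2]; exact D.lay i) (D.lay t)
      (fun i hi => hpair j i (hmem l j i hi).2.2.2)
      (fun i hi => (hmem l j i hi).2.1) (fun i hi => (hmem l j i hi).2.2.1)
    by_cases hcB : gg j * ρ l < B
    · rw [if_pos hcB]
      have h1 : (ρ l) ^ (d - 1) * c l j ≤ A1 d T κ Λ lam * ρ l := by
        calc _ ≤ (ρ l) ^ (d - 1) * (A1 d T κ Λ lam * ((ρ l) ^ 2 / (ρ l) ^ d)) := by gcongr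
          _ = A1 d T κ Λ lam * ρ l * ((ρ l) ^ (d - 1) * (ρ l / (ρ l) ^ d)) := by ring
          _ = _ := by rw [hpow, mul_one]
      have : 0 ≤ gg j := hgg0 j
      have h2 : 0 ≤ (if act l j then A2 d T κ Λ * (2 / (gg j + 1)) else 0) := by positivity
      linarith
    · push Not at hcB
      rw [if_neg (not_lt.2 hcB), if_pos ⟨hcB, hz⟩, zero_add]
      have hgpos : 0 < gg j := by
        by_contra hcon
        have : gg j = 0 := le_antisymm (not_lt.1 hcon) (hgg0 j)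
        rw [this, zero_mul] at hcB
        linarith
      have hg1 : 1 ≤ gg j := by
        rw [hgg] at hgpos ⊢
        simp only at hgpos ⊢
        exact_mod_cast hgpos
      have b3 := b2 (gg j) hgpos (hcase j hgood) (by linarith)
      calc _ ≤ (ρ l) ^ (d - 1) * (A2 d T κ Λ * (ρ l / (ρ l) ^ d / gg j)) := by gcongr
        _ = A2 d T κ Λ * (1 / gg j) * ((ρ l) ^ (d - 1) * (ρ l / (ρ l) ^ d)) := by ring
        _ = A2 d T κ Λ * (1 / gg j) := by rw [hpow, mul_one]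
        _ ≤ _ := by
            gcongr A2 d T κ Λ * ?_
            rw [div_le_div_iff₀ hgpos (by linarith)]
            linarith
  -- few active windows
  have hfew : ∀ j, (((Finset.range L).filter (fun l => act l j)).card : ℝ) ≤ 4 := by
    intro j
    set W := (Finset.range L).filter (fun l => act l j) with hW
    rcases W.eq_empty_or_nonempty with he | hne
    · rw [he]
      simp
    have hdata : ∀ l ∈ W, l < L ∧ B ≤ gg j * ρ l ∧ ∃ s z, ρ l ≤ z ∧ z ≤ 2 * ρ l ∧ ℓ s = j ∧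
        Good ψ F (ℓ t) j ∧ ‖v s - (v t + z⁻¹ • (F (ℓ t) - F j))‖ ≤ κ * δ / ρ l ∧ κ * δ / ρ l ≤ 1 := by
      intro l hl
      rw [hW, Finset.mem_filter, Finset.mem_range] at hl
      obtain ⟨hlL, hlB, hlc⟩ := hl
      refine ⟨hlL, hlB, ?_⟩
      have hne : ((P4 l).filter (fun s => ℓ s = j)).Nonempty := by
        rw [Finset.nonempty_iff_ne_empty]
        intro he
        apply hlc
        rw [hc]
        simp only
        rw [he, Finset.sum_empty]
      obtain ⟨s, hs⟩ := hne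
      obtain ⟨a1, a2, a3, a4⟩ := hmem l j s hs
      have h0 := hρ0 l
      obtain ⟨z, hz, hzn⟩ := ov_exists a3
      have h1 : ‖(F (ℓ t) - F j) + z • (v t - v s)‖ ≤ κ * δ := by
        calc ‖(F (ℓ t) - F j) + z • (v t - v s)‖ =
              ‖((β t - β s) + z • (v t - v s)) - ((β t - β s) - (F (ℓ t) - F j))‖ := by
              congr 1; abel
          _ ≤ ‖(β t - β s) + z • (v t - v s)‖ + ‖(β t - β s) - (F (ℓ t) - F j)‖ := norm_sub_le _ _
          _ ≤ 6 * δ + 2 * K * δ := add_le_add hzn.le (hpair j s a4)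
          _ = (6 + 2 * K) * δ := by ring
          _ ≤ κ * δ := mul_le_mul_of_nonneg_right hκ hδ.le
      obtain ⟨_, _, g3⟩ := pair_geo hκ0 hlam hδ h0 hz.1 hz.2 h1 a2
      refine ⟨s, z, hz.1, hz.2, a4, ?_, ?_, ?_⟩
      · rw [← a4]
        exact hP s a1
      · have e : v s - (v t + z⁻¹ • (F (ℓ t) - F j)) = -(v t - v s) - z⁻¹ • (F (ℓ t) - F j) := by abel
        rw [e]
        exact g3
      · have h2 : C1 κ lam * δ / ρ l < 2 := by
          refine lt_of_lt_of_le a2 ?_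
          calc ‖v t - v s‖ ≤ ‖v t‖ + ‖v s‖ := norm_sub_le _ _
            _ ≤ 1 + 1 := add_le_add (D.hv t) (D.hv s)
            _ = 2 := by norm_num
        have h3 : 3 * κ * δ / ρ l ≤ C1 κ lam * δ / ρ l := by
          unfold C1
          have : 0 < 6 * κ / lam := by positivity
          gcongr
          linarith
        have h4 : 3 * κ * δ / ρ l = 3 * (κ * δ / ρ l) := by ring
        linarith
    have hclose : ∀ l ∈ W, ∀ l' ∈ W, ρ l ≤ 10 * ρ l' := by
      intro l hl l' hl'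
      obtain ⟨b1, b2, s, z, b3, b4, b5, b6, b7, b8⟩ := hdata l hl
      obtain ⟨c1, c2, s', z', c3, c4, c5, c6, c7, c8⟩ := hdata l' hl'
      have ls := D.lay s
      have ls' := D.lay s'
      rw [b5] at ls
      rw [c5] at ls'
      rcases hcase j b6 with ⟨h1, h2⟩ | ⟨h1, h2⟩
      · exact active_close (T := T) (Λ := Λ) (κ := κ) (g := gg j) (r := j * δ) (r' := ℓ t * δ) hδ hΛ hκ0
          (hρ0 l) (hρ0 l') (hρT l b1) (hρT l' c1) D.lip h1 (D.hv s) (D.hv s') ls ls' (D.lay t) h2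
          (by linarith) (by linarith) b3 c3 c4 b7 c7 b8 c8
      · refine active_close (ψ := fun x => -ψ x) (T := T) (Λ := Λ) (κ := κ) (g := gg j)
          (r := -(j * δ)) (r' := -(ℓ t * δ)) hδ hΛ hκ0
          (hρ0 l) (hρ0 l') (hρT l b1) (hρT l' c1) ?_ (fun x => (h1 x).neg) (D.hv s) (D.hv s') ?_ ?_ ?_
          (by linarith) (by linarith) (by linarith) b3 c3 c4 b7 c7 b8 c8
        · intro y z hy hz
          have : -ψ y - -ψ z = -(ψ y - ψ z) := by ring
          rw [this, abs_neg]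
          exact D.lip y z hy hz
        · have : -ψ (v s) - -((j:ℝ) * δ) = -(ψ (v s) - j * δ) := by ring
          rw [this, abs_neg]
          exact ls
        · have : -ψ (v s') - -((j:ℝ) * δ) = -(ψ (v s') - j * δ) := by ring
          rw [this, abs_neg]
          exact ls'
        · have : -ψ (v t) - -((ℓ t:ℝ) * δ) = -(ψ (v t) - ℓ t * δ) := by ring
          rw [this, abs_neg]
          exact D.lay t
    set l0 := W.min' hne with hl0
    have hsub : W ⊆ Finset.Icc l0 (l0 + 3) := by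
      intro l hl
      rw [Finset.mem_Icc]
      refine ⟨Finset.min'_le _ _ hl, ?_⟩
      by_contra hcon
      push Not at hcon
      have h1 := hclose l hl l0 (Finset.min'_mem _ _)
      rw [hρd] at h1
      simp only at h1
      have h2 : (2:ℝ) ^ (l0 + 4) ≤ 2 ^ l := pow_le_pow_right₀ (by norm_num) (by omega)
      have h3 : (2:ℝ) ^ (l0 + 4) = 16 * 2 ^ l0 := by rw [pow_add]; norm_num; ring
      have h4 : (0:ℝ) < 2 ^ l0 := by positivity
      nlinarith [mul_pos h4 hρ₀]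
    have h5 := Finset.card_le_card hsub
    rw [Nat.card_Icc] at h5
    have h6 : W.card ≤ 4 := by omega
    exact_mod_cast h6
  -- the two sums
  have hsum1 : ∀ l < L, ∑ j ∈ Finset.Icc (ℓ t - G) (ℓ t + G),
      (if gg j * ρ l < B then A1 d T κ Λ lam * ρ l else 0) ≤ 2 * A1 d T κ Λ lam * (B + T) := by
    intro l hl
    have h0 := hρ0 l
    have h1 := sum_int_le (fun g => if (g:ℝ) * ρ l < B then A1 d T κ Λ lam * ρ l else 0)
      (fun g => by positivity) (ℓ t) G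
    refine h1.trans ?_
    have h2 : ∑ g ∈ Finset.range (G + 1), (if (g:ℝ) * ρ l < B then A1 d T κ Λ lam * ρ l else 0) ≤
        (B / ρ l + 1) * (A1 d T κ Λ lam * ρ l) := by
      rw [← Finset.sum_filter, Finset.sum_const, nsmul_eq_mul]
      gcongr
      have h3 : (Finset.range (G + 1)).filter (fun g : ℕ => (g:ℝ) * ρ l < B) ⊆
          Finset.range ⌈B / ρ l⌉₊ := by
        intro g hg
        rw [Finset.mem_filter] at hg
        rw [Finset.mem_range, Nat.lt_ceil, lt_div_iff₀ h0]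
        exact hg.2
      have h4 := Finset.card_le_card h3
      rw [Finset.card_range] at h4
      have h5 : (((Finset.range (G + 1)).filter (fun g : ℕ => (g:ℝ) * ρ l < B)).card : ℝ) ≤
          (⌈B / ρ l⌉₊ : ℝ) := by exact_mod_cast h4
      exact h5.trans (Nat.ceil_lt_add_one (by positivity)).le
    calc _ ≤ 2 * ((B / ρ l + 1) * (A1 d T κ Λ lam * ρ l)) := by gcongr
      _ = 2 * A1 d T κ Λ lam * (B + ρ l) := by field_simp
      _ ≤ _ := by
          have := hρT l hl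
          gcongr
  have hsum2 : ∑ l ∈ Finset.range L, ∑ j ∈ Finset.Icc (ℓ t - G) (ℓ t + G),
      (if act l j then A2 d T κ Λ * (2 / (gg j + 1)) else 0) ≤
        K2 d T κ Λ * (1 + Real.log ((G + 1 : ℕ) : ℝ)) := by
    rw [Finset.sum_comm]
    have h1 : ∀ j ∈ Finset.Icc (ℓ t - G) (ℓ t + G), ∑ l ∈ Finset.range L,
        (if act l j then A2 d T κ Λ * (2 / (gg j + 1)) else 0) ≤
          8 * A2 d T κ Λ * (1 / (gg j + 1)) := by
      intro j _
      rw [← Finset.sum_filter, Finset.sum_const, nsmul_eq_mul]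
      have := hfew j
      have h2 : 0 ≤ gg j := hgg0 j
      calc _ ≤ 4 * (A2 d T κ Λ * (2 / (gg j + 1))) := by gcongr
        _ = _ := by ring
    refine (Finset.sum_le_sum h1).trans ?_
    rw [← Finset.mul_sum]
    have h2 := sum_int_le (fun g => 1 / ((g:ℝ) + 1)) (fun g => by positivity) (ℓ t) G
    have h3 : ∑ g ∈ Finset.range (G + 1), 1 / ((g:ℝ) + 1) ≤ 1 + Real.log ((G + 1 : ℕ) : ℝ) := by
      have h4 := harmonic_le_one_add_log (G + 1)
      have h5 : ((harmonic (G + 1) : ℚ) : ℝ) = ∑ g ∈ Finset.range (G + 1), 1 / ((g:ℝ) + 1) := by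
        unfold harmonic
        push_cast
        apply Finset.sum_congr rfl
        intro g _
        rw [one_div]
      rw [h5] at h4
      exact h4
    unfold K2
    calc _ ≤ 8 * A2 d T κ Λ * (2 * ∑ g ∈ Finset.range (G + 1), 1 / ((g:ℝ) + 1)) := by
          gcongr
      _ ≤ 8 * A2 d T κ Λ * (2 * (1 + Real.log ((G + 1 : ℕ) : ℝ))) := by gcongr
      _ = _ := by ring
  have hGG : G + 1 = ⌈N * T ^ (d - 1)⌉₊ + 3 := by rw [hG]
  calc ∑ l ∈ Finset.range L, (ρ l) ^ (d - 1) * ∑ s ∈ P, f l s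
      ≤ ∑ l ∈ Finset.range L, (((T + 2 * C1 κ lam) ^ d + 24 * Λ + 2 * A1 d T κ Λ lam * (B + T)) +
        ∑ j ∈ Finset.Icc (ℓ t - G) (ℓ t + G),
          (if act l j then A2 d T κ Λ * (2 / (gg j + 1)) else 0)) := by
        apply Finset.sum_le_sum
        intro l hl
        rw [Finset.mem_range] at hl
        have h1 := hone l hl
        have h2 : ∑ j ∈ Finset.Icc (ℓ t - G) (ℓ t + G), (ρ l) ^ (d - 1) * c l j ≤
            ∑ j ∈ Finset.Icc (ℓ t - G) (ℓ t + G),
              (if gg j * ρ l < B then A1 d T κ Λ lam * ρ l else 0) +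
            ∑ j ∈ Finset.Icc (ℓ t - G) (ℓ t + G),
              (if act l j then A2 d T κ Λ * (2 / (gg j + 1)) else 0) := by
          rw [← Finset.sum_add_distrib]
          exact Finset.sum_le_sum fun j _ => hcb l hl j
        have h3 := hsum1 l hl
        linarith
    _ = L * K1 d T κ Λ lam + ∑ l ∈ Finset.range L, ∑ j ∈ Finset.Icc (ℓ t - G) (ℓ t + G),
          (if act l j then A2 d T κ Λ * (2 / (gg j + 1)) else 0) := by
        rw [Finset.sum_add_distrib, Finset.sum_const, Finset.card_range, nsmul_eq_mul]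
        unfold K1
        rw [← hB]
    _ ≤ _ := by
        rw [← hGG]
        linarith

end Pool.Agent.U515.CL
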