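import Pool.Agent.U515.CL.Window

set_option autoImplicit false

/-! All heights, and the tube inequality. -/

open MeasureTheory Set ENNReal NNReal Real Metric

namespace Pool.Agent.U515.CL

open Pool.Agent.H810R3.Tub Pool.Agent.U527.Crv

variable {d : ℕ}

theorem power_id (hd : 1 ≤ d) {N x η q : ℝ} (hN : 0 < N) (hx : 0 < x) :
    N * (x * N ^ (-(1 / d : ℝ))) * ((((x * N ^ (-(1 / d : ℝ))) ^ d)⁻¹ *
      (N * (x * N ^ (-(1 / d : ℝ))) ^ d) ^ η) ^ (q - 1)) =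
    N ^ (q - 1 / d) * x ^ (1 + d * (η - 1) * (q - 1)) := by
  have hd0 : (0:ℝ) < d := by exact_mod_cast hd
  have e0 : (N ^ (-(1 / d : ℝ))) ^ d = N⁻¹ := by
    rw [← Real.rpow_natCast, ← Real.rpow_mul hN.le, ← Real.rpow_neg_one]
    congr 1
    field_simp
  have hy : 0 < x ^ d := by positivity
  rw [mul_pow, e0]
  have e1 : N * (x ^ d * N⁻¹) = x ^ d := by field_simp
  rw [e1]
  have e2 : (x ^ d * N⁻¹)⁻¹ * (x ^ d) ^ η = N * (x ^ d) ^ (η - 1) := by
    rw [Real.rpow_sub_one hy.ne', mul_inv, inv_inv]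
    ring
  rw [e2, Real.mul_rpow hN.le (by positivity), ← Real.rpow_mul hy.le, ← Real.rpow_natCast x d,
    ← Real.rpow_mul hx.le]
  have e3 : N ^ (q - 1 / d) = N * (N ^ (-(1 / d : ℝ)) * N ^ (q - 1)) := by
    calc N ^ (q - 1 / d) = N ^ ((1:ℝ) + (-(1 / d : ℝ) + (q - 1))) := by congr 1; ring
      _ = N ^ (1:ℝ) * (N ^ (-(1 / d : ℝ)) * N ^ (q - 1)) := by
          rw [Real.rpow_add hN, Real.rpow_add hN]
      _ = _ := by rw [Real.rpow_one]
  have e4 : x ^ (1 + d * (η - 1) * (q - 1)) = x * x ^ ((d:ℝ) * ((η - 1) * (q - 1))) := by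
    rw [Real.rpow_add hx, Real.rpow_one]
    congr 2
    ring
  rw [e3, e4]
  ring

/-- The constant. -/
noncomputable def E0 (d : ℕ) (T κ Λ lam q : ℝ) : ℝ :=
  2 * (3 ^ d * om d) + 2 * (3 ^ d * om d *
    (2 * A3 d T κ Λ lam ((1 - 1 / (d * (q - 1))) / 2)) ^ (q - 1) *
      (1 - (1 / 2) ^ ((d * (q - 1) - 1) / 2))⁻¹)

/-- The sum over all heights, exponents at most `2`. -/
theorem total (hd : 1 ≤ d) {T κ Λ lam q : ℝ} (hκ0 : 0 < κ) (hΛ : 0 ≤ Λ) (hlam : 0 < lam)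
    (hT : 0 < T) (hq : 1 + 1 / (d:ℝ) < q) (hq2 : q ≤ 2) {ι : Type} [Fintype ι] [Nonempty ι]
    {ψ : Vec d → ℝ} (hψ : Dir ψ) {F : ℤ → Vec d} {v β : ι → Vec d} {ℓ : ι → ℤ} {δ K : ℝ}
    (D : Data ψ F v β ℓ Λ lam δ K) (hκ : 6 + 2 * K ≤ κ) (hδ : 0 < δ) (hδ1 : δ ≤ 1) :
    ∫⁻ z in Icc (-T) T, ∫⁻ x, (Uf δ v β x z) ^ q ≤
      ENNReal.ofReal (E0 d T κ Λ lam q * (δ ^ d * (Fintype.card ι : ℝ) ^ (q - 1 / d))) := by
  classical
  have hom := om_pos (d := d)
  have hd0 : (0:ℝ) < d := by exact_mod_cast hd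
  have hd1 : (0:ℝ) < 1 / d := by positivity
  have hN1 : (1:ℝ) ≤ Fintype.card ι := by exact_mod_cast Fintype.card_pos
  set N : ℝ := (Fintype.card ι : ℝ) with hNd
  have hN : 0 < N := by linarith
  have hq1 : 1 < q := by linarith
  have hdq : 1 < d * (q - 1) := by
    have : 1 / (d:ℝ) < q - 1 := by linarith
    rw [div_lt_iff₀ hd0] at this
    linarith
  set η : ℝ := (1 - 1 / (d * (q - 1))) / 2 with hη
  have hinv : 1 / (d * (q - 1)) < 1 := by rw [div_lt_one (by linarith)]; exact hdq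
  have hinv0 : 0 < 1 / (d * (q - 1)) := by positivity
  have hη0 : 0 < η := by rw [hη]; linarith
  have hη1 : η ≤ 1 := by rw [hη]; linarith
  set e : ℝ := (d * (q - 1) - 1) / 2 with he
  have he0 : 0 < e := by rw [he]; linarith
  have hee : 1 + d * (η - 1) * (q - 1) = -e := by
    have hne : (d:ℝ) * (q - 1) ≠ 0 := by positivity
    have h1 : d * (η - 1) * (q - 1) = (d * (q - 1)) * (η - 1) := by ring
    rw [h1, hη, he]
    generalize (d:ℝ) * (q - 1) = Y at hne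
    field_simp
    ring
  have hA3 : 0 ≤ A3 d T κ Λ lam η := by
    unfold A3 A1 A2 C1
    positivity
  set BB : ℝ := 3 ^ d * om d * (2 * A3 d T κ Λ lam η) ^ (q - 1) with hBB
  have hBB0 : 0 ≤ BB := by positivity
  set ρ₀ : ℝ := N ^ (-(1 / d : ℝ)) with hρ₀
  have hρ₀0 : 0 < ρ₀ := Real.rpow_pos_of_pos hN _
  -- one region, for both signs
  have hreg : ∀ (ψ' : Vec d → ℝ) (w : ι → Vec d), Dir ψ' → Data ψ' F w β ℓ Λ lam δ K →
      ∀ l : ℕ, 2 ^ l * ρ₀ ≤ T →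
      ∫⁻ z in Icc (2 ^ l * ρ₀) (2 * (2 ^ l * ρ₀)), ∫⁻ x, (Uf δ w β x z) ^ q ≤
        ENNReal.ofReal (BB * (δ ^ d * N ^ (q - 1 / d)) * ((1 / 2) ^ e) ^ l) := by
    intro ψ' w hψ' D' l hlT
    have hNρ : 1 ≤ N * (2 ^ l * ρ₀) ^ d := by
      have e0 : ρ₀ ^ d = N⁻¹ := by
        rw [hρ₀, ← Real.rpow_natCast, ← Real.rpow_mul hN.le, ← Real.rpow_neg_one]
        congr 1
        field_simp
      rw [mul_pow, e0]
      have e1 : N * ((2 ^ l) ^ d * N⁻¹) = (2 ^ l) ^ d := by field_simp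
      rw [e1]
      exact one_le_pow₀ (one_le_pow₀ (by norm_num))
    have h1 := window (T := T) hd hκ0 hΛ hlam hη0 hη1 hq1.le hq2 hψ' D' hκ hδ hδ1
      (by positivity) hlT hNρ
    refine h1.trans ?_
    apply ENNReal.ofReal_le_ofReal
    apply le_of_eq
    rw [← hNd, power_id hd hN (by positivity), hee, hBB, mul_pow]
    have e2 : ((2:ℝ) ^ l) ^ (-e) = ((1 / 2) ^ e) ^ l := by
      rw [one_div, Real.inv_rpow (by norm_num), ← Real.rpow_neg (by norm_num), ← Real.rpow_natCast,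
        ← Real.rpow_mul (by norm_num), ← Real.rpow_natCast, ← Real.rpow_mul (by norm_num)]
      congr 1
      ring
    rw [e2]
    ring
  obtain ⟨L, hL1, hL2⟩ : ∃ L : ℕ, T ≤ 2 ^ L * ρ₀ ∧ ∀ l < L, 2 ^ l * ρ₀ < T := by
    have hex : ∃ L : ℕ, T ≤ 2 ^ L * ρ₀ := by
      obtain ⟨L, hL⟩ := pow_unbounded_of_one_lt (T / ρ₀) (by norm_num : (1:ℝ) < 2)
      refine ⟨L, ?_⟩
      rw [div_lt_iff₀ hρ₀0] at hL
      exact hL.le
    refine ⟨Nat.find hex, Nat.find_spec hex, ?_⟩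
    intro l hl
    exact not_le.1 (Nat.find_min hex hl)
  have hcover : Icc (-T) T ⊆ Icc (-ρ₀) ρ₀ ∪ ((⋃ l ∈ Finset.range L, Icc (2 ^ l * ρ₀) (2 * (2 ^ l * ρ₀))) ∪
      ⋃ l ∈ Finset.range L, -Icc (2 ^ l * ρ₀) (2 * (2 ^ l * ρ₀))) := by
    intro z hz
    by_cases h1 : |z| ≤ ρ₀
    · left
      exact abs_le.1 h1
    · right
      push Not at h1
      have hzT : |z| ≤ T := abs_le.2 hz
      obtain ⟨l, hl1, hl2, hl3⟩ : ∃ l < L, 2 ^ l * ρ₀ ≤ |z| ∧ |z| ≤ 2 * (2 ^ l * ρ₀) := by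
        have hex : ∃ m : ℕ, |z| ≤ 2 ^ m * ρ₀ := ⟨L, hzT.trans hL1⟩
        set m := Nat.find hex with hm
        have hm1 : |z| ≤ 2 ^ m * ρ₀ := Nat.find_spec hex
        have hm0 : m ≠ 0 := by
          intro h0
          rw [h0, pow_zero, one_mul] at hm1
          linarith
        obtain ⟨l, hl⟩ := Nat.exists_eq_succ_of_ne_zero hm0
        have hmL : m ≤ L := Nat.find_min' hex (hzT.trans hL1)
        refine ⟨l, by omega, ?_, ?_⟩
        · have h2 : ¬ |z| ≤ 2 ^ l * ρ₀ := Nat.find_min hex (by omega)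
          linarith
        · rw [hl, Nat.succ_eq_add_one, pow_succ] at hm1
          linarith
      rcases le_total 0 z with h0 | h0
      · left
        rw [abs_of_nonneg h0] at hl2 hl3
        exact mem_iUnion₂.2 ⟨l, Finset.mem_range.2 hl1, hl2, hl3⟩
      · right
        rw [abs_of_nonpos h0] at hl2 hl3
        exact mem_iUnion₂.2 ⟨l, Finset.mem_range.2 hl1, by
          rw [Set.mem_neg]
          exact ⟨hl2, hl3⟩⟩
  set Fz : ℝ → ℝ≥0∞ := fun z => ∫⁻ x, (Uf δ v β x z) ^ q with hFz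
  have hr : (((1:ℝ) / 2) ^ e) < 1 := Real.rpow_lt_one (by norm_num) (by norm_num) he0
  have hr0 : (0:ℝ) < (1 / 2) ^ e := by positivity
  have hr2 : 0 < (1 - ((1:ℝ) / 2) ^ e)⁻¹ := inv_pos.2 (by linarith)
  have hsum : ∀ (ψ' : Vec d → ℝ) (w : ι → Vec d), Dir ψ' → Data ψ' F w β ℓ Λ lam δ K →
      ∑ l ∈ Finset.range L, ∫⁻ z in Icc (2 ^ l * ρ₀) (2 * (2 ^ l * ρ₀)), ∫⁻ x, (Uf δ w β x z) ^ q ≤
        ENNReal.ofReal (BB * (1 - (1 / 2) ^ e)⁻¹ * (δ ^ d * N ^ (q - 1 / d))) := by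
    intro ψ' w hψ' D'
    calc _ ≤ ∑ l ∈ Finset.range L, ENNReal.ofReal (BB * (δ ^ d * N ^ (q - 1 / d)) * ((1 / 2) ^ e) ^ l) := by
          apply Finset.sum_le_sum
          intro l hl
          exact hreg ψ' w hψ' D' l (hL2 l (Finset.mem_range.1 hl)).le
      _ = ENNReal.ofReal (BB * (δ ^ d * N ^ (q - 1 / d)) *
          ∑ l ∈ Finset.range L, (((1:ℝ) / 2) ^ e) ^ l) := by
          rw [← ENNReal.ofReal_sum_of_nonneg (fun l _ => by positivity), Finset.mul_sum]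
      _ ≤ ENNReal.ofReal (BB * (δ ^ d * N ^ (q - 1 / d)) * (1 - (1 / 2) ^ e)⁻¹) := by
          apply ENNReal.ofReal_le_ofReal
          gcongr
          rw [← tsum_geometric_of_lt_one hr0.le hr]
          exact (summable_geometric_of_lt_one hr0.le hr).sum_le_tsum _ (fun i _ => by positivity)
      _ = _ := by
          congr 1
          ring
  have hsmall : ∫⁻ z in Icc (-ρ₀) ρ₀, Fz z ≤
      ENNReal.ofReal (2 * (3 ^ d * om d) * (δ ^ d * N ^ (q - 1 / d))) := by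
    refine (small hd v β hδ hρ₀0 hq1.le).trans ?_
    apply ENNReal.ofReal_le_ofReal
    rw [← hNd, mul_pow]
    have e1 : ρ₀ * (N ^ (q - 1) * N) = N ^ (q - 1 / d) := by
      rw [hρ₀, ← Real.rpow_add_one hN.ne', ← Real.rpow_add hN]
      congr 1
      ring
    rw [← e1]
    apply le_of_eq
    ring
  calc ∫⁻ z in Icc (-T) T, Fz z
      ≤ ∫⁻ z in Icc (-ρ₀) ρ₀ ∪ ((⋃ l ∈ Finset.range L, Icc (2 ^ l * ρ₀) (2 * (2 ^ l * ρ₀))) ∪
      ⋃ l ∈ Finset.range L, -Icc (2 ^ l * ρ₀) (2 * (2 ^ l * ρ₀))), Fz z := lintegral_mono_set hcover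
    _ ≤ (∫⁻ z in Icc (-ρ₀) ρ₀, Fz z) + ((∑ l ∈ Finset.range L, ∫⁻ z in Icc (2 ^ l * ρ₀) (2 * (2 ^ l * ρ₀)), Fz z) +
        ∑ l ∈ Finset.range L, ∫⁻ z in -Icc (2 ^ l * ρ₀) (2 * (2 ^ l * ρ₀)), Fz z) := by
        refine (lintegral_union_le _ _ _).trans ?_
        gcongr
        refine (lintegral_union_le _ _ _).trans ?_
        gcongr
        · exact lint_biUnion_le _ _ _
        · exact lint_biUnion_le _ _ _
    _ ≤ ENNReal.ofReal (2 * (3 ^ d * om d) * (δ ^ d * N ^ (q - 1 / d))) +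
        (ENNReal.ofReal (BB * (1 - (1 / 2) ^ e)⁻¹ * (δ ^ d * N ^ (q - 1 / d))) +
        ENNReal.ofReal (BB * (1 - (1 / 2) ^ e)⁻¹ * (δ ^ d * N ^ (q - 1 / d)))) := by
        gcongr
        · exact hsum ψ v hψ D
        · have h5 := hsum _ _ hψ.neg D.neg
          refine le_trans (le_of_eq ?_) h5
          apply Finset.sum_congr rfl
          intro l _
          exact reflect v β δ q _
    _ = _ := by
        rw [← ENNReal.ofReal_add (by positivity) (by positivity),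
          ← ENNReal.ofReal_add (by positivity) (by positivity)]
        congr 1
        unfold E0
        rw [← hη, ← he, ← hBB]
        ring

/-- Exponents at most `2`, slices. -/
theorem slices_two (hd : 1 ≤ d) {K Λ lam : ℝ} (hK : 0 ≤ K) (hΛ : 0 ≤ Λ) (hlam : 0 < lam) (S : ℝ≥0)
    {q : ℝ} (hq : 1 + 1 / (d:ℝ) < q) (hq2 : q ≤ 2) :
    ∃ E : ℝ, 0 < E ∧ ∀ (ψ : Vec d → ℝ), Dir ψ → ∀ (F : ℤ → Vec d) (δ : ℝ), 0 < δ → δ < 1 →
      ∀ (ι : Type) [Fintype ι] [Nonempty ι] (v β : ι → Vec d) (s : ι → ℝ) (ℓ : ι → ℤ),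
        Data ψ F v β ℓ Λ lam δ K → (∀ i, |s i| ≤ S) →
        ∫⁻ t : ℝ, ∫⁻ x : Vec d, Fe δ v β s x t ^ q ≤
          ENNReal.ofReal (E * (δ ^ d * (Fintype.card ι : ℝ) ^ (q - 1 / d))) := by
  have hom := om_pos (d := d)
  have hd0 : (0:ℝ) < d := by exact_mod_cast hd
  have hd1 : (0:ℝ) < 1 / d := by positivity
  have hq0 : 0 < q := by linarith
  have hS0 : (0:ℝ) ≤ S := S.2
  set T : ℝ := S + 3 / 2 with hT
  have hT0 : 0 < T := by rw [hT]; linarith
  set κ : ℝ := 6 + 2 * K with hκ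
  have hκ0 : 0 < κ := by rw [hκ]; linarith
  refine ⟨max 1 (E0 d T κ Λ lam q), by positivity, ?_⟩
  intro ψ hψ F δ hδ hδ1 ι _ _ v β s ℓ D hs
  have h1 := total hd hκ0 hΛ hlam hT0 hq hq2 hψ D hκ.ge hδ hδ1.le
  calc ∫⁻ t : ℝ, ∫⁻ x : Vec d, Fe δ v β s x t ^ q
      ≤ ∫⁻ t : ℝ, (Icc (-T) T).indicator (fun t => ∫⁻ x : Vec d, (Uf δ v β x t) ^ q) t := by
        apply lintegral_mono
        intro t
        by_cases ht : t ∈ Icc (-T) T
        · rw [indicator_of_mem ht]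
          apply lintegral_mono
          intro x
          have h2 := Fe_le_Uf hδ hδ1 v β s D.hv hs x t
          rw [← hT, indicator_of_mem ht] at h2
          exact ENNReal.rpow_le_rpow h2 hq0.le
        · rw [indicator_of_notMem ht]
          have h3 : ∀ x, Fe δ v β s x t ^ q = 0 := by
            intro x
            have h2 := Fe_le_Uf hδ hδ1 v β s D.hv hs x t
            rw [← hT, indicator_of_notMem ht] at h2
            rw [nonpos_iff_eq_zero.1 h2, ENNReal.zero_rpow_of_pos hq0]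
          simp [h3]
    _ = ∫⁻ t in Icc (-T) T, ∫⁻ x : Vec d, (Uf δ v β x t) ^ q := lintegral_indicator measurableSet_Icc _
    _ ≤ _ := h1
    _ ≤ _ := by
        apply ENNReal.ofReal_le_ofReal
        gcongr
        exact le_max_right _ _

/-- All exponents, slices. -/
theorem slices (hd : 2 ≤ d) {K Λ lam : ℝ} (hK : 0 ≤ K) (hΛ : 0 ≤ Λ) (hlam : 0 < lam) (S : ℝ≥0)
    {q : ℝ} (hq : 1 + 1 / (d:ℝ) < q) :
    ∃ E : ℝ, 0 < E ∧ ∀ (ψ : Vec d → ℝ), Dir ψ → ∀ (F : ℤ → Vec d) (δ : ℝ), 0 < δ → δ < 1 →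
      ∀ (ι : Type) [Fintype ι] [Nonempty ι] (v β : ι → Vec d) (s : ι → ℝ) (ℓ : ι → ℤ),
        Data ψ F v β ℓ Λ lam δ K → (∀ i, |s i| ≤ S) →
        ∫⁻ t : ℝ, ∫⁻ x : Vec d, Fe δ v β s x t ^ q ≤
          ENNReal.ofReal (E * (δ ^ d * (Fintype.card ι : ℝ) ^ (q - 1 / d))) := by
  rcases le_total q 2 with hq2 | hq2
  · exact slices_two (by omega) hK hΛ hlam S hq hq2
  have hd0 : (0:ℝ) < d := by exact_mod_cast (by omega : 0 < d)
  have hd2 : 1 + 1 / (d:ℝ) < 2 := by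
    have h1 : (2:ℝ) ≤ d := by exact_mod_cast hd
    have h2 : 1 / (d:ℝ) ≤ 1 / 2 := one_div_le_one_div_of_le (by norm_num) h1
    linarith
  obtain ⟨E, hE, h⟩ := slices_two (d := d) (by omega) hK hΛ hlam S hd2 le_rfl
  refine ⟨E, hE, ?_⟩
  intro ψ hψ F δ hδ hδ1 ι _ _ v β s ℓ D hs
  have h2 := h ψ hψ F δ hδ hδ1 ι v β s ℓ D hs
  have hN1 : (1:ℝ) ≤ Fintype.card ι := by exact_mod_cast Fintype.card_pos
  set N : ℝ := (Fintype.card ι : ℝ) with hNd
  have hN : 0 < N := by linarith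
  have hFN : ∀ x t, Fe δ v β s x t ≤ ENNReal.ofReal N := by
    intro x t
    unfold Fe
    calc _ ≤ ∑ _i : ι, (1:ℝ≥0∞) := by
          apply Finset.sum_le_sum
          intro i _
          exact indicator_le_self' (fun _ _ => zero_le_one) _
      _ = ENNReal.ofReal N := by simp [hNd]
  calc ∫⁻ t : ℝ, ∫⁻ x : Vec d, Fe δ v β s x t ^ q
      ≤ ∫⁻ t : ℝ, ∫⁻ x : Vec d, ENNReal.ofReal (N ^ (q - 2)) * Fe δ v β s x t ^ (2:ℝ) := by
        apply lintegral_mono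
        intro t
        apply lintegral_mono
        intro x
        beta_reduce
        have e : q = (q - 2) + 2 := by ring
        conv_lhs => rw [e, ENNReal.rpow_add_of_nonneg _ _ (by linarith) (by norm_num)]
        rw [← ENNReal.ofReal_rpow_of_pos hN]
        gcongr
        exact hFN x t
    _ = ENNReal.ofReal (N ^ (q - 2)) * ∫⁻ t : ℝ, ∫⁻ x : Vec d, Fe δ v β s x t ^ (2:ℝ) := by
        simp only [lintegral_const_mul' _ _ ENNReal.ofReal_ne_top]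
    _ ≤ ENNReal.ofReal (N ^ (q - 2)) * ENNReal.ofReal (E * (δ ^ d * N ^ ((2:ℝ) - 1 / d))) := by gcongr
    _ = ENNReal.ofReal (N ^ (q - 2) * (E * (δ ^ d * N ^ ((2:ℝ) - 1 / d)))) :=
        (ENNReal.ofReal_mul (by positivity)).symm
    _ = _ := by
        congr 1
        have h5 : N ^ (q - 1 / d) = N ^ (q - 2) * N ^ ((2:ℝ) - 1 / d) := by
          rw [← Real.rpow_add hN]
          congr 1
          ring
        rw [h5]
        ring

/-- The tube inequality. -/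
theorem tubes (hd : 2 ≤ d) {K Λ lam : ℝ} (hK : 0 ≤ K) (hΛ : 0 ≤ Λ) (hlam : 0 < lam) (S : ℝ≥0)
    {q : ℝ} (hq : ((d : ℝ) + 1) / d < q) :
    ∃ C : ℝ, 0 < C ∧ ∀ (ψ : Vec d → ℝ), Dir ψ → ∀ (F : ℤ → Vec d) (δ : ℝ), 0 < δ → δ < 1 →
      ∀ (ι : Type) [Fintype ι] (v β : ι → Vec d) (s : ι → ℝ) (ℓ : ι → ℤ),
        Data ψ F v β ℓ Λ lam δ K → (∀ i, |s i| ≤ S) →
        eLpNorm (fun y : Space d => ∑ i,
            (tube δ (dir (v i)) (WithLp.toLp 2 (β i + s i • v i, s i))).indicator (fun _ => (1 : ℝ)) y)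
            (ENNReal.ofReal q) volume
          ≤ ENNReal.ofReal (C * δ ^ ((d : ℝ) / q) * (Fintype.card ι : ℝ) ^ (1 - 1 / (q * d))) := by
  have hd0 : (0 : ℝ) < d := by exact_mod_cast (by omega : 0 < d)
  have hq' : 1 + 1 / (d:ℝ) < q := by
    refine lt_of_le_of_lt (le_of_eq ?_) hq
    field_simp
  have hq0 : 0 < q := lt_trans (by positivity) hq
  obtain ⟨E, hE, h⟩ := slices hd hK hΛ hlam S hq'
  refine ⟨E ^ (1 / q), by positivity, ?_⟩
  intro ψ hψ F δ hδ hδ1 ι _ v β s ℓ D hs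
  rcases isEmpty_or_nonempty ι with he | hne
  · have : (fun y : Space d => ∑ i,
            (tube δ (dir (v i)) (WithLp.toLp 2 (β i + s i • v i, s i))).indicator (fun _ => (1 : ℝ)) y) =
          fun _ => 0 := by
      funext y
      simp
    rw [this, eLpNorm_zero']
    exact zero_le
  have hN1 : (1:ℝ) ≤ Fintype.card ι := by exact_mod_cast Fintype.card_pos
  have hint := h ψ hψ F δ hδ hδ1 ι v β s ℓ D hs
  set N : ℝ := (Fintype.card ι : ℝ) with hNd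
  have hN : 0 < N := by linarith
  set f : Space d → ℝ := fun y => ∑ i,
    (tube δ (dir (v i)) (WithLp.toLp 2 (β i + s i • v i, s i))).indicator (fun _ => (1 : ℝ)) y with hf
  have hfm : Measurable f := by
    apply Finset.measurable_sum
    intro i _
    exact measurable_const.indicator (tube_closed _ _ _).measurableSet
  have hmp := WithLp.volume_preserving_toLp (Vec d) ℝ
  have hS : ∫⁻ y : Space d, ‖f y‖ₑ ^ q = ∫⁻ t : ℝ, ∫⁻ x : Vec d, Fe δ v β s x t ^ q := by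
    have hg : Measurable (fun y : Space d => ‖f y‖ₑ ^ q) := hfm.enorm.pow_const _
    rw [← hmp.lintegral_comp hg]
    have hg2 : Measurable (fun p : Vec d × ℝ => ‖f (WithLp.toLp 2 p)‖ₑ ^ q) := hg.comp hmp.measurable
    rw [Measure.volume_eq_prod, lintegral_prod_symm _ hg2.aemeasurable]
    refine lintegral_congr fun t => lintegral_congr fun x => ?_
    rw [hf]
    simp only
    rw [enorm_sum]
  have hp0 : ENNReal.ofReal q ≠ 0 := by
    rw [ne_eq, ENNReal.ofReal_eq_zero, not_le]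
    exact hq0
  rw [eLpNorm_eq_lintegral_rpow_enorm_toReal hp0 ENNReal.ofReal_ne_top, ENNReal.toReal_ofReal hq0.le, hS]
  calc (∫⁻ t : ℝ, ∫⁻ x : Vec d, Fe δ v β s x t ^ q) ^ (1 / q)
      ≤ (ENNReal.ofReal (E * (δ ^ d * N ^ (q - 1 / d)))) ^ (1 / q) :=
        ENNReal.rpow_le_rpow hint (by positivity)
    _ = ENNReal.ofReal ((E * (δ ^ d * N ^ (q - 1 / d))) ^ (1 / q)) :=
        ENNReal.ofReal_rpow_of_pos (by positivity)
    _ = _ := by
        congr 1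
        rw [Real.mul_rpow hE.le (by positivity), Real.mul_rpow (by positivity) (by positivity),
          ← Real.rpow_natCast δ d, ← Real.rpow_mul hδ.le, ← Real.rpow_mul hN.le]
        have f3 : (d : ℝ) * (1 / q) = d / q := by ring
        have f4 : (q - 1 / d) * (1 / q) = 1 - 1 / (q * d) := by field_simp
        rw [f3, f4]
        ring

end Pool.Agent.U515.CL
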