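import Pool.Agent.U515.CL.Crit
import Pool.Agent.U515.CL.Final

set_option autoImplicit false

/-! The critical exponent. -/

open MeasureTheory Set ENNReal NNReal Real Metric

namespace Pool.Agent.U515.CL

open Pool.Agent.H810R3.Tub Pool.Agent.U527.Crv

variable {d : ℕ}

/-- The sum of all the overlap times over all windows. -/
theorem all_crit (hd : 1 ≤ d) {T κ Λ lam : ℝ} (hκ0 : 0 < κ) (hΛ : 0 ≤ Λ) (hlam : 0 < lam)
    {ι : Type} [Fintype ι] {ψ : Vec d → ℝ} (hψ : Dir ψ) {F : ℤ → Vec d}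
    {v β : ι → Vec d} {ℓ : ι → ℤ} {δ K ρ₀ : ℝ} (D : Data ψ F v β ℓ Λ lam δ K)
    (hκ : 6 + 2 * K ≤ κ) (hδ : 0 < δ) (hδ1 : δ ≤ 1) (hρ₀ : 0 < ρ₀) (L : ℕ)
    (hL : ∀ l < L, 2 ^ l * ρ₀ ≤ T) (hT : 0 < T) :
    ∑ l ∈ Finset.range L, (2 ^ l * ρ₀) ^ (d - 1) *
        ∑ t, ∑ s, ov δ (2 ^ l * ρ₀) (β t - β s) (v t - v s) ≤
      2 * ((Fintype.card ι : ℝ) * (L * K1 d T κ Λ lam + K2 d T κ Λ *
        (1 + Real.log ((⌈(Fintype.card ι : ℝ) * T ^ (d - 1)⌉₊ + 3 : ℕ) : ℝ)))) := by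
  classical
  set B : ℝ := L * K1 d T κ Λ lam + K2 d T κ Λ *
        (1 + Real.log ((⌈(Fintype.card ι : ℝ) * T ^ (d - 1)⌉₊ + 3 : ℕ) : ℝ)) with hB
  set f : ℕ → ι → ι → ℝ := fun l t s => ov δ (2 ^ l * ρ₀) (β t - β s) (v t - v s) with hf
  have hf0 : ∀ l t s, 0 ≤ f l t s := fun l t s => ov_nonneg _ _
  have hsym : ∀ l t s, f l t s = f l s t := by
    intro l t s
    rw [hf]
    simp only
    rw [← ov_neg, neg_sub, neg_sub]
  have h1 : ∀ t, ∑ l ∈ Finset.range L, (2 ^ l * ρ₀) ^ (d - 1) *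
      ∑ s, (if Good ψ F (ℓ t) (ℓ s) then f l t s else 0) ≤ B := by
    intro t
    have h := crit_fixed hd hκ0 hΛ hlam D hκ hδ hδ1 hρ₀ L hL hT t
      (Finset.univ.filter (fun s => Good ψ F (ℓ t) (ℓ s))) (fun s hs => (Finset.mem_filter.1 hs).2)
    refine le_trans (le_of_eq ?_) h
    apply Finset.sum_congr rfl
    intro l _
    rw [Finset.sum_filter]
  have h2 : ∀ l t s, f l t s ≤ (if Good ψ F (ℓ t) (ℓ s) then f l t s else 0) +
      (if Good ψ F (ℓ s) (ℓ t) then f l s t else 0) := by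
    intro l t s
    rcases good_or hψ F (ℓ t) (ℓ s) with h | h
    · rw [if_pos h]
      split_ifs
      · linarith [hf0 l s t]
      · linarith
    · rw [if_pos h, hsym l t s]
      split_ifs
      · linarith [hf0 l s t]
      · linarith
  have h3 : ∀ l, ∑ t, ∑ s, f l t s ≤ 2 * ∑ t, ∑ s, (if Good ψ F (ℓ t) (ℓ s) then f l t s else 0) := by
    intro l
    calc ∑ t, ∑ s, f l t s ≤ ∑ t, ∑ s, ((if Good ψ F (ℓ t) (ℓ s) then f l t s else 0) +
        (if Good ψ F (ℓ s) (ℓ t) then f l s t else 0)) :=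
          Finset.sum_le_sum fun t _ => Finset.sum_le_sum fun s _ => h2 l t s
      _ = ∑ t, ∑ s, (if Good ψ F (ℓ t) (ℓ s) then f l t s else 0) +
          ∑ t, ∑ s, (if Good ψ F (ℓ s) (ℓ t) then f l s t else 0) := by
          simp only [Finset.sum_add_distrib]
      _ = ∑ t, ∑ s, (if Good ψ F (ℓ t) (ℓ s) then f l t s else 0) +
          ∑ s, ∑ t, (if Good ψ F (ℓ s) (ℓ t) then f l s t else 0) := by
          congr 1
          exact Finset.sum_comm
      _ = _ := by ring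
  calc ∑ l ∈ Finset.range L, (2 ^ l * ρ₀) ^ (d - 1) * ∑ t, ∑ s, f l t s
      ≤ ∑ l ∈ Finset.range L, (2 ^ l * ρ₀) ^ (d - 1) *
          (2 * ∑ t, ∑ s, (if Good ψ F (ℓ t) (ℓ s) then f l t s else 0)) := by
        gcongr with l _
        exact h3 l
    _ = 2 * ∑ t, ∑ l ∈ Finset.range L, (2 ^ l * ρ₀) ^ (d - 1) *
          ∑ s, (if Good ψ F (ℓ t) (ℓ s) then f l t s else 0) := by
        rw [Finset.sum_comm, Finset.mul_sum]
        apply Finset.sum_congr rfl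
        intro l _
        rw [← mul_assoc, mul_comm _ (2:ℝ), mul_assoc, Finset.mul_sum]
    _ ≤ 2 * ∑ _t : ι, B := by
        gcongr with t _
        exact h1 t
    _ = _ := by
        rw [Finset.sum_const, nsmul_eq_mul, Finset.card_univ]

/-- One window at the critical exponent. -/
theorem window_crit (hd : 1 ≤ d) {ι : Type} [Fintype ι] [Nonempty ι] {δ ρ : ℝ} (hδ : 0 < δ)
    (hρ : 0 < ρ) (v β : ι → Vec d) :
    ∫⁻ z in Icc ρ (2 * ρ), ∫⁻ x, Uf δ v β x z ^ (1 + 1 / (d:ℝ)) ≤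
      ENNReal.ofReal ((3 * δ) ^ d * om d * ((Fintype.card ι : ℝ) + ρ ^ (d - 1) *
        ∑ t, ∑ s, ov δ ρ (β t - β s) (v t - v s))) := by
  have hom := om_pos (d := d)
  have hd0 : (0:ℝ) < d := by exact_mod_cast hd
  have hd1 : (1:ℝ) ≤ d := by exact_mod_cast hd
  have hi : 1 / (d:ℝ) ≤ 1 := by rw [div_le_one hd0]; exact hd1
  have hi0 : 0 < 1 / (d:ℝ) := by positivity
  set N : ℝ := (Fintype.card ι : ℝ) with hNd
  have hN : 0 < N := by rw [hNd]; exact_mod_cast Fintype.card_pos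
  set W : ℝ := (3 * δ) ^ d * om d with hW
  have hW0 : 0 < W := by positivity
  set O : ℝ := ∑ t, ∑ s, ov δ ρ (β t - β s) (v t - v s) with hO
  have hO0 : 0 ≤ O := Finset.sum_nonneg fun t _ => Finset.sum_nonneg fun s _ => ov_nonneg _ _
  set μ : Measure (ℝ × Vec d) := (volume.restrict (Icc ρ (2 * ρ))).prod volume with hμ
  have hm := Uf_meas δ v β
  have i1 : ∫⁻ p, Uf δ v β p.2 p.1 ∂μ ≤ ENNReal.ofReal (ρ * (N * W)) := by
    rw [hμ, lintegral_prod _ hm.aemeasurable]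
    exact (L1 hd hδ hρ v β).le
  have i2 : ∫⁻ p, Uf δ v β p.2 p.1 ^ 2 ∂μ ≤ ENNReal.ofReal (W * O) := by
    rw [hμ, lintegral_prod _ (hm.pow_const _).aemeasurable]
    exact L2 hd hδ v β
  have h3 := interp3 (μ := μ) hm (L := ∞) (Filter.Eventually.of_forall fun _ => le_top) i1 i2
    (q₀ := 1 + 1 / (d:ℝ)) (β := 0) (by linarith) (by linarith) le_rfl
  rw [add_zero, ENNReal.rpow_zero, one_mul, hμ, lintegral_prod _ (hm.pow_const _).aemeasurable] at h3
  refine h3.trans ?_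
  have e0 : 2 - (1 + 1 / (d:ℝ)) = 1 - 1 / d := by ring
  have e1 : 1 + 1 / (d:ℝ) - 1 = 1 / d := by ring
  rw [e0, e1, ENNReal.ofReal_rpow_of_nonneg (by positivity) (by linarith),
    ENNReal.ofReal_rpow_of_nonneg (by positivity) (by linarith), ← ENNReal.ofReal_mul (by positivity)]
  apply ENNReal.ofReal_le_ofReal
  set m : ℝ := ρ ^ (d - 1) * O / N with hmd
  have hm0 : 0 ≤ m := by positivity
  have hOm : W * O = (ρ * (N * W)) * (m * (ρ ^ d)⁻¹) := by
    have e : ρ ^ d = ρ ^ (d - 1) * ρ := by rw [← pow_succ, Nat.sub_add_cancel hd]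
    rw [hmd, e]
    field_simp
  have hA : 0 < ρ * (N * W) := by positivity
  rw [hOm, Real.mul_rpow (x := ρ * (N * W)) hA.le (by positivity), ← mul_assoc, ← Real.rpow_add hA]
  have e2 : 1 - 1 / (d:ℝ) + 1 / d = 1 := by ring
  rw [e2, Real.rpow_one, Real.mul_rpow hm0 (by positivity)]
  have e3 : ((ρ ^ d)⁻¹) ^ (1 / (d:ℝ)) = ρ⁻¹ := by
    rw [Real.inv_rpow (by positivity), ← Real.rpow_natCast ρ d, ← Real.rpow_mul hρ.le,
      mul_one_div_cancel hd0.ne', Real.rpow_one]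
  rw [e3]
  have h4 : m ^ (1 / (d:ℝ)) ≤ 1 + m := by
    rcases le_total m 1 with h | h
    · have := Real.rpow_le_one hm0 h hi0.le
      linarith
    · have : m ^ (1 / (d:ℝ)) ≤ m ^ (1:ℝ) := Real.rpow_le_rpow_of_exponent_le h hi
      rw [Real.rpow_one] at this
      linarith
  calc ρ * (N * W) * (m ^ (1 / (d:ℝ)) * ρ⁻¹) = N * W * m ^ (1 / (d:ℝ)) := by field_simp
    _ ≤ N * W * (1 + m) := by gcongr
    _ = W * (N + ρ ^ (d - 1) * O) := by rw [hmd]; field_simp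

/-- The number of the windows. -/
theorem number {T N ρ₀ : ℝ} (hd : 1 ≤ d) (hT : 0 < T) (hN : 1 ≤ N) (hρ₀ : ρ₀ = N ^ (-(1 / d : ℝ)))
    (L : ℕ) (hL : ∀ l < L, 2 ^ l * ρ₀ < T) : (L:ℝ) ≤ (1 + 2 * |Real.log T| + 2) * (1 + Real.log N) := by
  have hd0 : (0:ℝ) < d := by exact_mod_cast hd
  have hd1 : (1:ℝ) ≤ d := by exact_mod_cast hd
  have hN0 : 0 < N := by linarith
  have hlogN : 0 ≤ Real.log N := Real.log_nonneg hN
  have hpos : 0 ≤ |Real.log T| := abs_nonneg _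
  rcases Nat.eq_zero_or_pos L with h0 | h0
  · rw [h0]
    push_cast
    positivity
  have h1 := hL (L - 1) (by omega)
  have hρ0 : 0 < ρ₀ := by rw [hρ₀]; positivity
  have h2 : Real.log (2 ^ (L - 1) * ρ₀) ≤ Real.log T := Real.log_le_log (by positivity) h1.le
  rw [Real.log_mul (by positivity) hρ0.ne', Real.log_pow, hρ₀, Real.log_rpow hN0,
    Nat.cast_sub h0] at h2
  have h3 : (1:ℝ) / 2 ≤ Real.log 2 := by
    have := Real.log_two_gt_d9
    linarith
  have h4 : 1 / (d:ℝ) * Real.log N ≤ Real.log N := by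
    have : 1 / (d:ℝ) ≤ 1 := by rw [div_le_one hd0]; exact hd1
    nlinarith
  have h5 : Real.log T ≤ |Real.log T| := le_abs_self _
  push_cast at h2
  have h6 : ((L:ℝ) - 1) * (1 / 2) ≤ |Real.log T| + Real.log N := by
    have h7 : (0:ℝ) ≤ (L:ℝ) - 1 := by
      have : (1:ℝ) ≤ L := by exact_mod_cast h0
      linarith
    nlinarith
  nlinarith [mul_nonneg hpos hlogN]

/-- The sum over all heights, critical exponent. -/
theorem crit_total (hd : 1 ≤ d) {T κ Λ lam : ℝ} (hκ0 : 0 < κ) (hΛ : 0 ≤ Λ) (hlam : 0 < lam)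
    (hT : 0 < T) : ∃ E : ℝ, 0 < E ∧ ∀ (ι : Type) [Fintype ι] [Nonempty ι]
    (ψ : Vec d → ℝ), Dir ψ → ∀ (F : ℤ → Vec d) (v β : ι → Vec d) (ℓ : ι → ℤ) (δ K : ℝ),
    Data ψ F v β ℓ Λ lam δ K → 6 + 2 * K ≤ κ → 0 < δ → δ ≤ 1 →
    ∫⁻ z in Icc (-T) T, ∫⁻ x, (Uf δ v β x z) ^ (1 + 1 / (d:ℝ)) ≤
      ENNReal.ofReal (E * (δ ^ d * ((Fintype.card ι : ℝ) * (1 + Real.log (Fintype.card ι : ℝ))))) := by
  classical
  have hom := om_pos (d := d)
  have hd0 : (0:ℝ) < d := by exact_mod_cast hd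
  have hA1 : 0 ≤ A1 d T κ Λ lam := by unfold A1; positivity
  have hA2 : 0 ≤ A2 d T κ Λ := by unfold A2; positivity
  have hC1 : 0 < C1 κ lam := by unfold C1; positivity
  have hK1 : 0 ≤ K1 d T κ Λ lam := by unfold K1; positivity
  have hK2 : 0 ≤ K2 d T κ Λ := by unfold K2; positivity
  set M : ℝ := 1 + 2 * |Real.log T| + 2 with hM
  have hM0 : 0 ≤ M := by positivity
  set M2 : ℝ := 1 + Real.log (T ^ (d - 1) + 4) with hM2
  have hM20 : 0 ≤ M2 := by
    have : 0 ≤ Real.log (T ^ (d - 1) + 4) := Real.log_nonneg (by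
      have : 0 < T ^ (d - 1) := by positivity
      linarith)
    linarith
  refine ⟨3 ^ d * om d * (2 + 2 * (M + 2 * (M * K1 d T κ Λ lam + K2 d T κ Λ * M2))), by positivity, ?_⟩
  intro ι _ _ ψ hψ F v β ℓ δ K D hκ hδ hδ1
  have hN1 : (1:ℝ) ≤ Fintype.card ι := by exact_mod_cast Fintype.card_pos
  set N : ℝ := (Fintype.card ι : ℝ) with hNd
  have hN : 0 < N := by linarith
  have hlog : 0 ≤ Real.log N := Real.log_nonneg hN1
  set ρ₀ : ℝ := N ^ (-(1 / d : ℝ)) with hρ₀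
  have hρ₀0 : 0 < ρ₀ := Real.rpow_pos_of_pos hN _
  set W : ℝ := (3 * δ) ^ d * om d with hW
  have hW0 : 0 ≤ W := by positivity
  obtain ⟨L, hL1, hL2⟩ : ∃ L : ℕ, T ≤ 2 ^ L * ρ₀ ∧ ∀ l < L, 2 ^ l * ρ₀ < T := by
    have hex : ∃ L : ℕ, T ≤ 2 ^ L * ρ₀ := by
      obtain ⟨L, hL⟩ := pow_unbounded_of_one_lt (T / ρ₀) (by norm_num : (1:ℝ) < 2)
      refine ⟨L, ?_⟩
      rw [div_lt_iff₀ hρ₀0] at hL
      exact hL.le
    refine ⟨Nat.find hex, Nat.find_spec hex, ?_⟩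
    intro l hl
    exact not_le.1 (Nat.find_min hex hl)
  have hcover : Icc (-T) T ⊆ Icc (-ρ₀) ρ₀ ∪ ((⋃ l ∈ Finset.range L, Icc (2 ^ l * ρ₀) (2 * (2 ^ l * ρ₀))) ∪
      ⋃ l ∈ Finset.range L, -Icc (2 ^ l * ρ₀) (2 * (2 ^ l * ρ₀))) := by
    intro z hz
    by_cases h1 : |z| ≤ ρ₀
    · left
      exact abs_le.1 h1
    · right
      push Not at h1
      have hzT : |z| ≤ T := abs_le.2 hz
      obtain ⟨l, hl1, hl2, hl3⟩ : ∃ l < L, 2 ^ l * ρ₀ ≤ |z| ∧ |z| ≤ 2 * (2 ^ l * ρ₀) := by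
        have hex : ∃ m : ℕ, |z| ≤ 2 ^ m * ρ₀ := ⟨L, hzT.trans hL1⟩
        set m := Nat.find hex with hm
        have hm1 : |z| ≤ 2 ^ m * ρ₀ := Nat.find_spec hex
        have hm0 : m ≠ 0 := by
          intro h0
          rw [h0, pow_zero, one_mul] at hm1
          linarith
        obtain ⟨l, hl⟩ := Nat.exists_eq_succ_of_ne_zero hm0
        have hmL : m ≤ L := Nat.find_min' hex (hzT.trans hL1)
        refine ⟨l, by omega, ?_, ?_⟩
        · have h2 : ¬ |z| ≤ 2 ^ l * ρ₀ := Nat.find_min hex (by omega)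
          linarith
        · rw [hl, Nat.succ_eq_add_one, pow_succ] at hm1
          linarith
      rcases le_total 0 z with h0 | h0
      · left
        rw [abs_of_nonneg h0] at hl2 hl3
        exact mem_iUnion₂.2 ⟨l, Finset.mem_range.2 hl1, hl2, hl3⟩
      · right
        rw [abs_of_nonpos h0] at hl2 hl3
        exact mem_iUnion₂.2 ⟨l, Finset.mem_range.2 hl1, by
          rw [Set.mem_neg]
          exact ⟨hl2, hl3⟩⟩
  have hLM := number hd hT hN1 hρ₀ L hL2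
  rw [← hM] at hLM
  have hceil : 1 + Real.log ((⌈N * T ^ (d - 1)⌉₊ + 3 : ℕ) : ℝ) ≤ M2 * (1 + Real.log N) := by
    have h1 : ((⌈N * T ^ (d - 1)⌉₊ + 3 : ℕ) : ℝ) ≤ N * (T ^ (d - 1) + 4) := by
      have := Nat.ceil_lt_add_one (by positivity : 0 ≤ N * T ^ (d - 1))
      push_cast
      nlinarith
    have h2 : Real.log ((⌈N * T ^ (d - 1)⌉₊ + 3 : ℕ) : ℝ) ≤ Real.log N + Real.log (T ^ (d - 1) + 4) := by
      rw [← Real.log_mul hN.ne' (by positivity)]
      exact Real.log_le_log (by positivity) h1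
    have h3 : 0 ≤ Real.log (T ^ (d - 1) + 4) := Real.log_nonneg (by
      have : 0 < T ^ (d - 1) := by positivity
      linarith)
    rw [hM2]
    nlinarith
  set Fz : ℝ → ℝ≥0∞ := fun z => ∫⁻ x, (Uf δ v β x z) ^ (1 + 1 / (d:ℝ)) with hFz
  have hsum : ∀ (ψ' : Vec d → ℝ) (w : ι → Vec d), Dir ψ' → Data ψ' F w β ℓ Λ lam δ K →
      ∑ l ∈ Finset.range L, ∫⁻ z in Icc (2 ^ l * ρ₀) (2 * (2 ^ l * ρ₀)),
        ∫⁻ x, (Uf δ w β x z) ^ (1 + 1 / (d:ℝ)) ≤
        ENNReal.ofReal (W * (N * ((M + 2 * (M * K1 d T κ Λ lam + K2 d T κ Λ * M2)) *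
          (1 + Real.log N)))) := by
    intro ψ' w hψ' D'
    calc _ ≤ ∑ l ∈ Finset.range L, ENNReal.ofReal (W * (N + (2 ^ l * ρ₀) ^ (d - 1) *
          ∑ t, ∑ s, ov δ (2 ^ l * ρ₀) (β t - β s) (w t - w s))) := by
          apply Finset.sum_le_sum
          intro l _
          exact window_crit hd hδ (by positivity) w β
      _ = ENNReal.ofReal (∑ l ∈ Finset.range L, W * (N + (2 ^ l * ρ₀) ^ (d - 1) *
          ∑ t, ∑ s, ov δ (2 ^ l * ρ₀) (β t - β s) (w t - w s))) := by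
          rw [← ENNReal.ofReal_sum_of_nonneg]
          intro l _
          have h0 : 0 ≤ ∑ t, ∑ s, ov δ (2 ^ l * ρ₀) (β t - β s) (w t - w s) :=
            Finset.sum_nonneg fun t _ => Finset.sum_nonneg fun s _ => ov_nonneg _ _
          positivity
      _ ≤ _ := by
          apply ENNReal.ofReal_le_ofReal
          rw [← Finset.mul_sum, Finset.sum_add_distrib, Finset.sum_const, Finset.card_range,
            nsmul_eq_mul]
          have h1 := all_crit hd hκ0 hΛ hlam hψ' D' hκ hδ hδ1 hρ₀0 L (fun l hl => (hL2 l hl).le) hT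
          rw [← hNd] at h1
          have h2 : L * K1 d T κ Λ lam + K2 d T κ Λ *
              (1 + Real.log ((⌈N * T ^ (d - 1)⌉₊ + 3 : ℕ) : ℝ)) ≤
              (M * K1 d T κ Λ lam + K2 d T κ Λ * M2) * (1 + Real.log N) := by
            have k1 : L * K1 d T κ Λ lam ≤ (M * (1 + Real.log N)) * K1 d T κ Λ lam := by gcongr
            have k2 : K2 d T κ Λ * (1 + Real.log ((⌈N * T ^ (d - 1)⌉₊ + 3 : ℕ) : ℝ)) ≤
              K2 d T κ Λ * (M2 * (1 + Real.log N)) := by gcongr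
            linarith
          gcongr W * ?_
          calc _ ≤ L * N + 2 * (N * ((M * K1 d T κ Λ lam + K2 d T κ Λ * M2) * (1 + Real.log N))) := by
                refine add_le_add le_rfl (h1.trans ?_)
                gcongr
            _ ≤ (M * (1 + Real.log N)) * N + 2 * (N * ((M * K1 d T κ Λ lam + K2 d T κ Λ * M2) *
                (1 + Real.log N))) := by gcongr
            _ = _ := by ring
  have hsmall : ∫⁻ z in Icc (-ρ₀) ρ₀, Fz z ≤ ENNReal.ofReal (W * (N * (2 * (1 + Real.log N)))) := by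
    refine (small hd v β hδ hρ₀0 (by
      have : 0 < 1 / (d:ℝ) := by positivity
      linarith)).trans ?_
    apply ENNReal.ofReal_le_ofReal
    rw [← hNd, ← hW]
    have e1 : ρ₀ * N ^ (1 + 1 / (d:ℝ) - 1) = 1 := by
      rw [hρ₀, ← Real.rpow_add hN]
      have : -(1 / (d:ℝ)) + (1 + 1 / (d:ℝ) - 1) = 0 := by ring
      rw [this, Real.rpow_zero]
    calc 2 * ρ₀ * (N ^ (1 + 1 / (d:ℝ) - 1) * (N * W)) = W * (N * 2) * (ρ₀ * N ^ (1 + 1 / (d:ℝ) - 1)) := by
          ring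
      _ = W * (N * (2 * (1 + 0))) := by rw [e1]; ring
      _ ≤ _ := by gcongr
  calc ∫⁻ z in Icc (-T) T, Fz z
      ≤ ∫⁻ z in Icc (-ρ₀) ρ₀ ∪ ((⋃ l ∈ Finset.range L, Icc (2 ^ l * ρ₀) (2 * (2 ^ l * ρ₀))) ∪
      ⋃ l ∈ Finset.range L, -Icc (2 ^ l * ρ₀) (2 * (2 ^ l * ρ₀))), Fz z := lintegral_mono_set hcover
    _ ≤ (∫⁻ z in Icc (-ρ₀) ρ₀, Fz z) + ((∑ l ∈ Finset.range L, ∫⁻ z in Icc (2 ^ l * ρ₀) (2 * (2 ^ l * ρ₀)), Fz z) +
        ∑ l ∈ Finset.range L, ∫⁻ z in -Icc (2 ^ l * ρ₀) (2 * (2 ^ l * ρ₀)), Fz z) := by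
        refine (lintegral_union_le _ _ _).trans ?_
        gcongr
        refine (lintegral_union_le _ _ _).trans ?_
        gcongr
        · exact lint_biUnion_le _ _ _
        · exact lint_biUnion_le _ _ _
    _ ≤ ENNReal.ofReal (W * (N * (2 * (1 + Real.log N)))) +
        (ENNReal.ofReal (W * (N * ((M + 2 * (M * K1 d T κ Λ lam + K2 d T κ Λ * M2)) *
          (1 + Real.log N)))) +
        ENNReal.ofReal (W * (N * ((M + 2 * (M * K1 d T κ Λ lam + K2 d T κ Λ * M2)) *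
          (1 + Real.log N))))) := by
        gcongr
        · exact hsum ψ v hψ D
        · have h5 := hsum _ _ hψ.neg D.neg
          refine le_trans (le_of_eq ?_) h5
          apply Finset.sum_congr rfl
          intro l _
          exact reflect v β δ _ _
    _ = _ := by
        rw [← ENNReal.ofReal_add (by positivity) (by positivity),
          ← ENNReal.ofReal_add (by positivity) (by positivity)]
        congr 1
        rw [hW, mul_pow]
        ring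

end Pool.Agent.U515.CL
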