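import Pool.Agent.U515.CL.Layer

set_option autoImplicit false

/-! The overlap times of one tube with all tubes in the layers on the good side. -/

open MeasureTheory Set ENNReal Real Metric

namespace Pool.Agent.U515.CL

open Pool.Agent.H810R3.Tub Pool.Agent.U527.Crv

variable {d : ℕ}

theorem sum_pow_le {η : ℝ} (hη : 0 < η) (hη1 : η ≤ 1) (G : ℕ) :
    ∑ g ∈ Finset.range G, ((g:ℝ) + 1) ^ (η - 1) ≤ (G:ℝ) ^ η / η := by
  induction G with
  | zero => simp [Real.zero_rpow hη.ne']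
  | succ m ih =>
    rw [Finset.sum_range_succ]
    have hm : (0:ℝ) < (m:ℝ) + 1 := by positivity
    have h1 := _root_.rpow_one_add_le_one_add_mul_self (s := -(1 / ((m:ℝ) + 1)))
      (by rw [neg_le_neg_iff, div_le_one hm]; linarith [(Nat.cast_nonneg m : (0:ℝ) ≤ m)]) hη.le hη1
    have e1 : 1 + -(1 / ((m:ℝ) + 1)) = m / (m + 1) := by field_simp; ring
    rw [e1, Real.div_rpow (Nat.cast_nonneg _) hm.le, div_le_iff₀ (by positivity)] at h1
    have e2 : (1 + η * -(1 / ((m:ℝ) + 1))) * ((m:ℝ) + 1) ^ η =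
        ((m:ℝ) + 1) ^ η - η * ((m:ℝ) + 1) ^ (η - 1) := by
      rw [Real.rpow_sub_one hm.ne']
      ring
    rw [e2] at h1
    push_cast
    calc ∑ g ∈ Finset.range m, ((g:ℝ) + 1) ^ (η - 1) + ((m:ℝ) + 1) ^ (η - 1)
        ≤ (m:ℝ) ^ η / η + ((m:ℝ) + 1) ^ (η - 1) := by gcongr
      _ ≤ (((m:ℝ) + 1) ^ η - η * ((m:ℝ) + 1) ^ (η - 1)) / η + ((m:ℝ) + 1) ^ (η - 1) := by gcongr
      _ = ((m:ℝ) + 1) ^ η / η := by field_simp; ring

theorem sum_int_le (f : ℕ → ℝ) (hf : ∀ g, 0 ≤ f g) (i : ℤ) (G : ℕ) :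
    ∑ j ∈ Finset.Icc (i - G) (i + G), f (j - i).natAbs ≤ 2 * ∑ g ∈ Finset.range (G + 1), f g := by
  classical
  set P := (Finset.range (G + 1)).image (fun g : ℕ => i + (g:ℤ)) with hP
  set Q := (Finset.range (G + 1)).image (fun g : ℕ => i - (g:ℤ)) with hQ
  have hsub : Finset.Icc (i - G) (i + G) ⊆ P ∪ Q := by
    intro j hj
    rw [Finset.mem_Icc] at hj
    rw [Finset.mem_union, hP, hQ, Finset.mem_image, Finset.mem_image]
    rcases le_total i j with h | h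
    · left
      exact ⟨(j - i).natAbs, by rw [Finset.mem_range]; omega, by omega⟩
    · right
      exact ⟨(j - i).natAbs, by rw [Finset.mem_range]; omega, by omega⟩
  have h1 : ∑ j ∈ P, f (j - i).natAbs = ∑ g ∈ Finset.range (G + 1), f g := by
    rw [hP, Finset.sum_image]
    · apply Finset.sum_congr rfl
      intro g _
      congr 1
      omega
    · intro a _ b _ hab
      simp only at hab
      omega
  have h2 : ∑ j ∈ Q, f (j - i).natAbs = ∑ g ∈ Finset.range (G + 1), f g := by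
    rw [hQ, Finset.sum_image]
    · apply Finset.sum_congr rfl
      intro g _
      congr 1
      omega
    · intro a _ b _ hab
      simp only at hab
      omega
  calc _ ≤ ∑ j ∈ P ∪ Q, f (j - i).natAbs :=
        Finset.sum_le_sum_of_subset_of_nonneg hsub (fun _ _ _ => hf _)
    _ ≤ ∑ j ∈ P ∪ Q, f (j - i).natAbs + ∑ j ∈ P ∩ Q, f (j - i).natAbs :=
        le_add_of_nonneg_right (Finset.sum_nonneg fun _ _ => hf _)
    _ = ∑ j ∈ P, f (j - i).natAbs + ∑ j ∈ Q, f (j - i).natAbs := Finset.sum_union_inter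
    _ = _ := by rw [h1, h2]; ring

/-- The layer `j` is on the good side of the layer `i`. -/
def Good (ψ : Vec d → ℝ) (F : ℤ → Vec d) (i j : ℤ) : Prop :=
  ((∀ x, ConvexOn ℝ univ (fun t : ℝ => ψ (x + t • (F i - F j)))) ∧ i ≤ j) ∨
    ((∀ x, ConcaveOn ℝ univ (fun t : ℝ => ψ (x + t • (F i - F j)))) ∧ j ≤ i)

/-- The hypotheses on the family of slopes and positions. -/
structure Data {ι : Type} (ψ : Vec d → ℝ) (F : ℤ → Vec d) (v β : ι → Vec d) (ℓ : ι → ℤ)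
    (Λ lam δ K : ℝ) : Prop where
  lip : ∀ y z, ‖y‖ ≤ 2 → ‖z‖ ≤ 2 → |ψ y - ψ z| ≤ Λ * ‖y - z‖
  hv : ∀ i, ‖v i‖ ≤ 1
  reg : ∀ i, ∃ e : Vec d, ‖e‖ = 1 ∧ ∀ y θ, ‖y - v i‖ ≤ lam → 0 ≤ θ → θ ≤ lam →
      ψ y + lam * θ ≤ ψ (y + θ • e)
  sep : ∀ i j, i ≠ j → δ ≤ ‖v i - v j‖
  lay : ∀ i, |ψ (v i) - ℓ i * δ| ≤ δ
  pos : ∀ i, ‖β i - F (ℓ i)‖ ≤ K * δ

/-- The weight of one layer. -/
theorem one_layer (hd : 1 ≤ d) {T κ Λ lam η : ℝ} (hκ0 : 0 < κ) (hΛ : 0 ≤ Λ) (hlam : 0 < lam)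
    (hη : 0 < η) (hη1 : η ≤ 1) {ι : Type} [Fintype ι] {ψ : Vec d → ℝ} {F : ℤ → Vec d}
    {v β : ι → Vec d} {ℓ : ι → ℤ} {δ K ρ : ℝ} (D : Data ψ F v β ℓ Λ lam δ K)
    (hκ : 6 + 2 * K ≤ κ) (hδ : 0 < δ) (hδ1 : δ ≤ 1) (hρ : 0 < ρ) (hρT : ρ ≤ T) (t : ι) (j : ℤ)
    (hg : Good ψ F (ℓ t) j) (S : Finset ι) (hS : ∀ s ∈ S, ℓ s = j)
    (hfar : ∀ s ∈ S, C1 κ lam * δ / ρ < ‖v t - v s‖)
    (hne : ∀ s ∈ S, ov δ ρ (β t - β s) (v t - v s) ≠ 0) :
    ∑ s ∈ S, ov δ ρ (β t - β s) (v t - v s) ≤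
      (A1 d T κ Λ lam * (3 * T + 2 * Λ * κ + 1 + T) + 2 * A2 d T κ Λ) *
        (ρ / ρ ^ d) * ρ ^ η * (((j - ℓ t).natAbs : ℝ) + 1) ^ (η - 1) := by
  have hT : 0 < T := lt_of_lt_of_le hρ hρT
  have hA1 : 0 ≤ A1 d T κ Λ lam := by unfold A1; positivity
  have hA2 : 0 ≤ A2 d T κ Λ := by unfold A2; positivity
  set g : ℝ := ((j - ℓ t).natAbs : ℝ) with hgd
  have hg0 : 0 ≤ g := Nat.cast_nonneg _
  obtain ⟨b1, b2⟩ := layer_bd hd S v (v t) (F (ℓ t) - F j) (fun s => β t - β s) (ψ := ψ) (T := T)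
    (κ := κ) (Λ := Λ) (lam := lam) (δ := δ) (ρ := ρ) (r := j * δ) (r' := ℓ t * δ) (K := K) hκ hκ0 hΛ
    hlam hδ hδ1 hρ hρT D.lip (fun i _ => D.hv i) (D.hv t) (fun i _ => D.reg i)
    (fun i _ k _ hik => D.sep i k hik) (fun i hi => by rw [← hS i hi]; exact D.lay i) (D.lay t)
    (fun i hi => by
      have e : β t - β i - (F (ℓ t) - F j) = (β t - F (ℓ t)) - (β i - F j) := by abel
      rw [e]
      have h1 := D.pos t
      have h2 := D.pos i
      rw [hS i hi] at h2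
      calc _ ≤ ‖β t - F (ℓ t)‖ + ‖β i - F j‖ := norm_sub_le _ _
        _ ≤ K * δ + K * δ := add_le_add h1 h2
        _ = 2 * K * δ := by ring) hfar hne

  have hg1 : (0:ℝ) < g + 1 := by linarith
  have hw : 0 < ρ ^ η * (g + 1) ^ (η - 1) := by positivity
  by_cases hc : g * ρ < 3 * T + 2 * Λ * κ + 1
  · -- near layers
    have h1 : ρ ≤ (3 * T + 2 * Λ * κ + 1 + T) * (ρ ^ η * (g + 1) ^ (η - 1)) := by
      set Y : ℝ := 3 * T + 2 * Λ * κ + 1 + T with hY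
      have hY1 : 1 ≤ Y := by
        have : 0 ≤ 2 * Λ * κ := by positivity
        rw [hY]; linarith
      have h2 : (ρ * (g + 1)) ^ (1 - η) ≤ Y := by
        calc (ρ * (g + 1)) ^ (1 - η) ≤ Y ^ (1 - η) := by
              apply Real.rpow_le_rpow (by positivity) _ (by linarith)
              rw [hY]; nlinarith
          _ ≤ Y ^ (1:ℝ) := Real.rpow_le_rpow_of_exponent_le hY1 (by linarith)
          _ = Y := Real.rpow_one Y
      have e1 : ρ = (ρ * (g + 1)) ^ (1 - η) * (ρ ^ η * (g + 1) ^ (η - 1)) := by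
        rw [Real.mul_rpow hρ.le hg1.le]
        have e2 : ρ ^ (1 - η) * ρ ^ η = ρ := by
          rw [← Real.rpow_add hρ]; simp
        have e3 : (g + 1) ^ (1 - η) * (g + 1) ^ (η - 1) = 1 := by
          rw [← Real.rpow_add hg1]; simp
        calc ρ = ρ * 1 := by ring
          _ = (ρ ^ (1 - η) * ρ ^ η) * ((g + 1) ^ (1 - η) * (g + 1) ^ (η - 1)) := by rw [e2, e3]
          _ = _ := by ring
      calc ρ = (ρ * (g + 1)) ^ (1 - η) * (ρ ^ η * (g + 1) ^ (η - 1)) := e1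
        _ ≤ _ := by gcongr
    calc _ ≤ A1 d T κ Λ lam * (ρ ^ 2 / ρ ^ d) := b1
      _ = A1 d T κ Λ lam * (ρ / ρ ^ d) * ρ := by ring
      _ ≤ A1 d T κ Λ lam * (ρ / ρ ^ d) * ((3 * T + 2 * Λ * κ + 1 + T) * (ρ ^ η * (g + 1) ^ (η - 1))) := by
          gcongr
      _ ≤ _ := by
          have h3 : 0 ≤ 2 * A2 d T κ Λ * (ρ / ρ ^ d) * (ρ ^ η * (g + 1) ^ (η - 1)) := by positivity
          nlinarith
  · push Not at hc
    have h0 : 0 ≤ 2 * Λ * κ := by positivity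
    have hgρ : 1 ≤ g * ρ := by linarith
    have hgpos : 0 < g := by
      by_contra hcon
      have : g = 0 := le_antisymm (not_lt.1 hcon) hg0
      rw [this, zero_mul] at hgρ
      linarith
    have hg1' : 1 ≤ g := by
      rw [hgd] at hgpos ⊢
      exact_mod_cast hgpos
    have hcase : ((∀ x, ConvexOn ℝ univ (fun u : ℝ => ψ (x + u • (F (ℓ t) - F j)))) ∧
          (j:ℝ) * δ - ℓ t * δ = g * δ) ∨
        ((∀ x, ConcaveOn ℝ univ (fun u : ℝ => ψ (x + u • (F (ℓ t) - F j)))) ∧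
          (ℓ t:ℝ) * δ - j * δ = g * δ) := by
      rcases hg with ⟨h1, h2⟩ | ⟨h1, h2⟩
      · left
        refine ⟨h1, ?_⟩
        have e : g = (j:ℝ) - ℓ t := by
          rw [hgd, Nat.cast_natAbs, abs_of_nonneg (by omega)]
          push_cast
          ring
        rw [e]; ring
      · right
        refine ⟨h1, ?_⟩
        have e : g = (ℓ t:ℝ) - j := by
          rw [hgd, Nat.cast_natAbs, abs_of_nonpos (by omega)]
          push_cast
          ring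
        rw [e]; ring
    have b3 := b2 g hgpos hcase (by linarith)
    have h1 : 1 / g ≤ 2 * (ρ ^ η * (g + 1) ^ (η - 1)) := by
      have h2 : 1 / g ≤ 2 / (g + 1) := by
        rw [div_le_div_iff₀ hgpos hg1]
        linarith
      have h3 : 1 ≤ (ρ * (g + 1)) ^ η := Real.one_le_rpow (by nlinarith) hη.le
      have e1 : 2 * (ρ ^ η * (g + 1) ^ (η - 1)) = 2 / (g + 1) * (ρ * (g + 1)) ^ η := by
        rw [Real.mul_rpow hρ.le hg1.le, Real.rpow_sub_one hg1.ne']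
        ring
      rw [e1]
      refine h2.trans ?_
      have : 0 ≤ 2 / (g + 1) := by positivity
      nlinarith
    calc _ ≤ A2 d T κ Λ * (ρ / ρ ^ d / g) := b3
      _ = A2 d T κ Λ * (ρ / ρ ^ d) * (1 / g) := by ring
      _ ≤ A2 d T κ Λ * (ρ / ρ ^ d) * (2 * (ρ ^ η * (g + 1) ^ (η - 1))) := by gcongr
      _ ≤ _ := by
          have h3 : 0 ≤ A1 d T κ Λ lam * (3 * T + 2 * Λ * κ + 1 + T) * (ρ / ρ ^ d) *
            (ρ ^ η * (g + 1) ^ (η - 1)) := by positivity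
          nlinarith

/-- The constant. -/
noncomputable def A3 (d : ℕ) (T κ Λ lam η : ℝ) : ℝ :=
  (T + 2 * C1 κ lam) ^ d + 24 * Λ +
    (A1 d T κ Λ lam * (3 * T + 2 * Λ * κ + 1 + T) + 2 * A2 d T κ Λ) * (2 * ((1 + 4 * T) / η))

theorem fixed_sum (hd : 1 ≤ d) {T κ Λ lam η : ℝ} (hκ0 : 0 < κ) (hΛ : 0 ≤ Λ) (hlam : 0 < lam)
    (hη : 0 < η) (hη1 : η ≤ 1) {ι : Type} [Fintype ι] {ψ : Vec d → ℝ} {F : ℤ → Vec d}
    {v β : ι → Vec d} {ℓ : ι → ℤ} {δ K ρ : ℝ} (D : Data ψ F v β ℓ Λ lam δ K)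
    (hκ : 6 + 2 * K ≤ κ) (hδ : 0 < δ) (hδ1 : δ ≤ 1) (hρ : 0 < ρ) (hρT : ρ ≤ T)
    (hN : 1 ≤ (Fintype.card ι : ℝ) * ρ ^ d) (t : ι) (P : Finset ι)
    (hP : ∀ s ∈ P, Good ψ F (ℓ t) (ℓ s)) :
    ∑ s ∈ P, ov δ ρ (β t - β s) (v t - v s) ≤
      A3 d T κ Λ lam η * ((ρ / ρ ^ d) * ((Fintype.card ι : ℝ) * ρ ^ d) ^ η) := by
  classical
  have hT : 0 < T := lt_of_lt_of_le hρ hρT
  have hA1 : 0 ≤ A1 d T κ Λ lam := by unfold A1; positivity
  have hA2 : 0 ≤ A2 d T κ Λ := by unfold A2; positivity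
  have hC1 : 0 < C1 κ lam := by unfold C1; positivity
  set N : ℝ := (Fintype.card ι : ℝ) with hNd
  have hN0 : 0 ≤ N := Nat.cast_nonneg _
  have hNpos : 0 < N := by
    by_contra hcon
    have : N = 0 := le_antisymm (not_lt.1 hcon) hN0
    rw [this, zero_mul] at hN
    linarith
  set X : ℝ := N * ρ ^ d / ρ with hX
  have hX0 : 0 < X := by positivity
  have hXT : 4 ≤ 4 * T * X := by
    have : 1 ≤ T * X := by
      rw [hX]
      calc 1 ≤ N * ρ ^ d := hN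
        _ = ρ * (N * ρ ^ d / ρ) := by field_simp
        _ ≤ T * (N * ρ ^ d / ρ) := by gcongr
    linarith
  set G : ℕ := ⌈X⌉₊ + 2 with hG
  set f : ι → ℝ := fun s => ov δ ρ (β t - β s) (v t - v s) with hf
  have hf0 : ∀ s, 0 ≤ f s := fun s => ov_nonneg _ _
  set AA : ℝ := A1 d T κ Λ lam * (3 * T + 2 * Λ * κ + 1 + T) + 2 * A2 d T κ Λ with hAA
  have hAA0 : 0 ≤ AA := by positivity
  have hNη : 1 ≤ (N * ρ ^ d) ^ η := Real.one_le_rpow hN hη.le
  -- near part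
  set P1 := P.filter (fun s => ‖v t - v s‖ ≤ C1 κ lam * δ / ρ) with hP1
  set P2 := (P.filter (fun s => ¬ ‖v t - v s‖ ≤ C1 κ lam * δ / ρ)).filter
    (fun s => G < (ℓ s - ℓ t).natAbs) with hP2
  set P3 := (P.filter (fun s => ¬ ‖v t - v s‖ ≤ C1 κ lam * δ / ρ)).filter
    (fun s => ¬ G < (ℓ s - ℓ t).natAbs) with hP3
  have hsplit : ∑ s ∈ P, f s = ∑ s ∈ P1, f s + (∑ s ∈ P2, f s + ∑ s ∈ P3, f s) := by
    rw [hP2, hP3, Finset.sum_filter_add_sum_filter_not, hP1, Finset.sum_filter_add_sum_filter_not]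
  have h1 : ∑ s ∈ P1, f s ≤ (T + 2 * C1 κ lam) ^ d * (ρ / ρ ^ d) := by
    have hc := packing hd P1 v (v t) (R := C1 κ lam * δ / ρ) (ε := δ) hδ (by positivity)
      (fun i _ j _ hij => D.sep i j hij) (fun i hi => by
        rw [hP1, Finset.mem_filter] at hi
        rw [norm_sub_rev]
        exact hi.2)
    have hc2 : (P1.card : ℝ) ≤ (T + 2 * C1 κ lam) ^ d / ρ ^ d := by
      refine hc.trans ?_
      rw [← div_pow]
      have e : 1 + 2 * (C1 κ lam * δ / ρ) / δ = (ρ + 2 * C1 κ lam) / ρ := by field_simp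
      rw [e]
      gcongr
    calc ∑ s ∈ P1, f s ≤ P1.card • ρ :=
          Finset.sum_le_card_nsmul _ _ _ (fun s _ => ov_le_rho hρ _ _)
      _ = P1.card * ρ := nsmul_eq_mul _ _
      _ ≤ ((T + 2 * C1 κ lam) ^ d / ρ ^ d) * ρ := by gcongr
      _ = _ := by ring
  have h2 : ∑ s ∈ P2, f s ≤ 24 * Λ * (ρ / ρ ^ d) := by
    have hb : ∀ s ∈ P2, f s ≤ 24 * Λ / X := by
      intro s hs
      rw [hP2, Finset.mem_filter, Finset.mem_filter] at hs
      obtain ⟨⟨_, hs2⟩, hs3⟩ := hs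
      push Not at hs2
      have hu : 0 < ‖v t - v s‖ := lt_trans (by positivity) hs2
      refine (ov_le (β t - β s) hu hδ).trans ?_
      have hgap : X * δ ≤ Λ * ‖v t - v s‖ := by
        have g1 : X + 2 ≤ ((ℓ s - ℓ t).natAbs : ℝ) := by
          have g2 : G ≤ (ℓ s - ℓ t).natAbs := hs3.le
          have g3 : (G:ℝ) ≤ ((ℓ s - ℓ t).natAbs : ℝ) := by exact_mod_cast g2
          have g4 := Nat.le_ceil X
          have g5 : (G:ℝ) = ⌈X⌉₊ + 2 := by rw [hG]; push_cast; ring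
          linarith
        have g6 : ((ℓ s - ℓ t).natAbs : ℝ) = |(ℓ s:ℝ) - ℓ t| := by
          rw [Nat.cast_natAbs]
          push_cast
          rfl
        rw [g6] at g1
        have g7 : |(ℓ s:ℝ) - ℓ t| * δ ≤ |ψ (v t) - ψ (v s)| + 2 * δ := by
          have g8 := D.lay s
          have g9 := D.lay t
          calc |(ℓ s:ℝ) - ℓ t| * δ = |(ℓ s:ℝ) * δ - ℓ t * δ| := by
                rw [← sub_mul, abs_mul, abs_of_pos hδ]
            _ = |(ψ (v t) - ℓ t * δ) - (ψ (v s) - ℓ s * δ) - (ψ (v t) - ψ (v s))| := by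
                congr 1; ring
            _ ≤ |(ψ (v t) - ℓ t * δ) - (ψ (v s) - ℓ s * δ)| + |ψ (v t) - ψ (v s)| := abs_sub _ _
            _ ≤ (|ψ (v t) - ℓ t * δ| + |ψ (v s) - ℓ s * δ|) + |ψ (v t) - ψ (v s)| := by
                gcongr
                exact abs_sub _ _
            _ ≤ (δ + δ) + |ψ (v t) - ψ (v s)| := by gcongr
            _ = _ := by ring
        have g10 := D.lip (v t) (v s) ((D.hv t).trans (by norm_num)) ((D.hv s).trans (by norm_num))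
        nlinarith
      rw [div_le_div_iff₀ hu hX0]
      nlinarith
    calc ∑ s ∈ P2, f s ≤ P2.card • (24 * Λ / X) := Finset.sum_le_card_nsmul _ _ _ hb
      _ = P2.card * (24 * Λ / X) := nsmul_eq_mul _ _
      _ ≤ N * (24 * Λ / X) := by
          gcongr
          rw [hNd]
          exact_mod_cast Finset.card_le_univ P2
      _ = _ := by
          rw [hX]
          field_simp
  have h3 : ∑ s ∈ P3, f s ≤ AA * (2 * ((1 + 4 * T) / η)) * ((ρ / ρ ^ d) * (N * ρ ^ d) ^ η) := by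
    set P4 := P3.filter (fun s => f s ≠ 0) with hP4
    have e4 : ∑ s ∈ P3, f s = ∑ s ∈ P4, f s := by
      rw [hP4, Finset.sum_filter_ne_zero]
    rw [e4]
    have hmaps : ∀ s ∈ P4, ℓ s ∈ Finset.Icc (ℓ t - G) (ℓ t + G) := by
      intro s hs
      rw [hP4, Finset.mem_filter, hP3, Finset.mem_filter] at hs
      have := hs.1.2
      rw [Finset.mem_Icc]
      omega
    rw [← Finset.sum_fiberwise_of_maps_to hmaps]
    have hlay : ∀ j ∈ Finset.Icc (ℓ t - G) (ℓ t + G), ∑ s ∈ P4.filter (fun s => ℓ s = j), f s ≤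
        (AA * (ρ / ρ ^ d) * ρ ^ η) * (((j - ℓ t).natAbs : ℝ) + 1) ^ (η - 1) := by
      intro j _
      rcases (P4.filter (fun s => ℓ s = j)).eq_empty_or_nonempty with he | ⟨s0, hs0⟩
      · rw [he, Finset.sum_empty]
        positivity
      have hmem : ∀ s ∈ P4.filter (fun s => ℓ s = j), s ∈ P ∧ C1 κ lam * δ / ρ < ‖v t - v s‖ ∧
          f s ≠ 0 ∧ ℓ s = j := by
        intro s hs
        rw [Finset.mem_filter, hP4, Finset.mem_filter, hP3, Finset.mem_filter,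
          Finset.mem_filter] at hs
        exact ⟨hs.1.1.1.1, not_le.1 hs.1.1.1.2, hs.1.2, hs.2⟩
      have hgood : Good ψ F (ℓ t) j := by
        obtain ⟨a1, _, _, a4⟩ := hmem s0 hs0
        rw [← a4]
        exact hP s0 a1
      exact one_layer hd hκ0 hΛ hlam hη hη1 D hκ hδ hδ1 hρ hρT t j hgood _
        (fun s hs => (hmem s hs).2.2.2) (fun s hs => (hmem s hs).2.1) (fun s hs => (hmem s hs).2.2.1)
    calc _ ≤ ∑ j ∈ Finset.Icc (ℓ t - G) (ℓ t + G),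
          (AA * (ρ / ρ ^ d) * ρ ^ η) * (((j - ℓ t).natAbs : ℝ) + 1) ^ (η - 1) := Finset.sum_le_sum hlay
      _ = (AA * (ρ / ρ ^ d) * ρ ^ η) * ∑ j ∈ Finset.Icc (ℓ t - G) (ℓ t + G),
          (((j - ℓ t).natAbs : ℝ) + 1) ^ (η - 1) := by rw [Finset.mul_sum]
      _ ≤ (AA * (ρ / ρ ^ d) * ρ ^ η) * (2 * ∑ g ∈ Finset.range (G + 1), ((g:ℝ) + 1) ^ (η - 1)) := by
          gcongr
          exact sum_int_le (fun g => ((g:ℝ) + 1) ^ (η - 1)) (fun g => by positivity) (ℓ t) G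
      _ ≤ (AA * (ρ / ρ ^ d) * ρ ^ η) * (2 * (((G + 1 : ℕ) : ℝ) ^ η / η)) := by
          gcongr
          exact sum_pow_le hη hη1 (G + 1)
      _ ≤ (AA * (ρ / ρ ^ d) * ρ ^ η) * (2 * (((1 + 4 * T) * X ^ η) / η)) := by
          gcongr
          have g1 : ((G + 1 : ℕ) : ℝ) ≤ (1 + 4 * T) * X := by
            have g2 := Nat.ceil_lt_add_one hX0.le
            rw [hG]
            push_cast
            nlinarith
          calc ((G + 1 : ℕ) : ℝ) ^ η ≤ ((1 + 4 * T) * X) ^ η :=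
                Real.rpow_le_rpow (Nat.cast_nonneg _) g1 hη.le
            _ = (1 + 4 * T) ^ η * X ^ η := Real.mul_rpow (by positivity) hX0.le
            _ ≤ (1 + 4 * T) ^ (1:ℝ) * X ^ η := by
                gcongr
                · linarith
            _ = _ := by rw [Real.rpow_one]
      _ = _ := by
          have e5 : (N * ρ ^ d) ^ η = ρ ^ η * X ^ η := by
            rw [← Real.mul_rpow hρ.le hX0.le, hX]
            congr 1
            field_simp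
          rw [e5]
          ring
  rw [hsplit]
  unfold A3
  rw [← hAA]
  have hR0 : 0 ≤ ρ / ρ ^ d := by positivity
  have k1 : (T + 2 * C1 κ lam) ^ d * (ρ / ρ ^ d) ≤
      (T + 2 * C1 κ lam) ^ d * ((ρ / ρ ^ d) * (N * ρ ^ d) ^ η) := by
    gcongr
    nlinarith
  have k2 : 24 * Λ * (ρ / ρ ^ d) ≤ 24 * Λ * ((ρ / ρ ^ d) * (N * ρ ^ d) ^ η) := by
    gcongr
    nlinarith
  linarith

end Pool.Agent.U515.CL
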