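import Pool.Agent.U527.Crv.Fin

set_option autoImplicit false

/-! Counting slopes in layers of a function that is convex along the lines of one direction. -/

open MeasureTheory Set ENNReal Real Metric

namespace Pool.Agent.U515.CL

open Pool.Agent.H810R3.Tub Pool.Agent.U527.Crv

variable {d : ℕ}

/-- Slopes of a function that is convex along a line. -/
theorem conv_step {ψ : Vec d → ℝ} {w : Vec d}
    (hc : ∀ x, ConvexOn ℝ univ (fun t : ℝ => ψ (x + t • w))) (y : Vec d) {s a : ℝ} (hs : 0 < s)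
    (ha : 0 < a) : (ψ y - ψ (y - s • w)) / s ≤ (ψ (y + a • w) - ψ y) / a := by
  have h := (hc (y - s • w)).slope_mono_adjacent (mem_univ (0:ℝ)) (mem_univ (s + a)) hs
    (by linarith : s < s + a)
  simp only [zero_smul, add_zero, sub_zero, sub_add_cancel, add_sub_cancel_left] at h
  have e : y - s • w + (s + a) • w = y + a • w := by
    rw [add_smul]
    abel
  rw [e] at h
  exact h

/-- Division of a neighbourhood of a segment into pieces. -/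
theorem classes {α : Type*} (S : Finset α) (x : α → Vec d) (p w : Vec d) {A b B : ℝ}
    (hA : 0 ≤ A) (hb : 0 < b) (hB : 0 ≤ B)
    (hin : ∀ i ∈ S, ∃ t : ℝ, 0 ≤ t ∧ t ≤ A ∧ ‖x i - (p + t • w)‖ ≤ b)
    (hcl : ∀ S' ⊆ S, (∀ i ∈ S', ∀ j ∈ S', ‖x i - x j‖ ≤ 3 * b) → (S'.card : ℝ) ≤ B) :
    (S.card : ℝ) ≤ (A * ‖w‖ / b + 1) * B := by
  classical
  choose! t ht0 htA htx using hin
  set k : α → ℕ := fun i => ⌊t i * ‖w‖ / b⌋₊ with hk
  have h1 : ∀ a ∈ S.image k, (S.filter (fun i => k i = a)).card ≤ ⌊B⌋₊ := by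
    intro a _
    apply Nat.le_floor
    apply hcl _ (Finset.filter_subset _ _)
    intro i hi j hj
    rw [Finset.mem_filter] at hi hj
    have e1 : ⌊t i * ‖w‖ / b⌋₊ = ⌊t j * ‖w‖ / b⌋₊ := hi.2.trans hj.2.symm
    have p1 : 0 ≤ t i * ‖w‖ / b := by have := ht0 i hi.1; positivity
    have p2 : 0 ≤ t j * ‖w‖ / b := by have := ht0 j hj.1; positivity
    have a1 := Nat.floor_le p1
    have a2 := Nat.lt_floor_add_one (t i * ‖w‖ / b)
    have a3 := Nat.floor_le p2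
    have a4 := Nat.lt_floor_add_one (t j * ‖w‖ / b)
    rw [e1] at a1 a2
    have h5 : |t i * ‖w‖ / b - t j * ‖w‖ / b| ≤ 1 := by
      rw [abs_le]
      constructor <;> linarith
    have h6 : |t i - t j| * ‖w‖ ≤ b := by
      have : |t i * ‖w‖ / b - t j * ‖w‖ / b| = |t i - t j| * ‖w‖ / b := by
        rw [← sub_div, ← sub_mul, abs_div, abs_mul, abs_of_pos hb, abs_of_nonneg (norm_nonneg w)]
      rw [this, div_le_one hb] at h5
      exact h5
    calc ‖x i - x j‖ = ‖(x i - (p + t i • w)) - (x j - (p + t j • w)) + (t i - t j) • w‖ := by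
          congr 1
          rw [sub_smul]
          abel
      _ ≤ ‖(x i - (p + t i • w)) - (x j - (p + t j • w))‖ + ‖(t i - t j) • w‖ := norm_add_le _ _
      _ ≤ ‖x i - (p + t i • w)‖ + ‖x j - (p + t j • w)‖ + ‖(t i - t j) • w‖ := by
          gcongr
          exact norm_sub_le _ _
      _ ≤ b + b + b := by
          gcongr
          · exact htx i hi.1
          · exact htx j hj.1
          · rw [norm_smul, Real.norm_eq_abs]
            exact h6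
      _ = 3 * b := by ring
  have h2 := Finset.card_le_mul_card_image S ⌊B⌋₊ h1
  have h3 : (S.image k).card ≤ ⌊A * ‖w‖ / b⌋₊ + 1 := by
    refine (Finset.card_le_card (t := Finset.range (⌊A * ‖w‖ / b⌋₊ + 1)) ?_).trans (by simp)
    intro a ha
    rw [Finset.mem_image] at ha
    obtain ⟨i, hi, rfl⟩ := ha
    rw [Finset.mem_range, Nat.lt_succ_iff]
    apply Nat.floor_le_floor
    have := htA i hi
    gcongr
  have h4 : (S.card : ℝ) ≤ (⌊B⌋₊ : ℝ) * ((⌊A * ‖w‖ / b⌋₊ : ℝ) + 1) := by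
    have h5 : S.card ≤ ⌊B⌋₊ * (⌊A * ‖w‖ / b⌋₊ + 1) := h2.trans (Nat.mul_le_mul_left _ h3)
    exact_mod_cast h5
  refine h4.trans ?_
  rw [mul_comm]
  gcongr
  · exact Nat.floor_le (by positivity)
  · exact Nat.floor_le hB

/-- Separated points near a segment. -/
theorem pack_seg (hd : 1 ≤ d) {α : Type*} (S : Finset α) (x : α → Vec d) (p w : Vec d) {A b δ : ℝ}
    (hA : 0 ≤ A) (hb : 0 < b) (hδ : 0 < δ) (hsep : ∀ i ∈ S, ∀ j ∈ S, i ≠ j → δ ≤ ‖x i - x j‖)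
    (hin : ∀ i ∈ S, ∃ t : ℝ, 0 ≤ t ∧ t ≤ A ∧ ‖x i - (p + t • w)‖ ≤ b) :
    (S.card : ℝ) ≤ (A * ‖w‖ / b + 1) * (1 + 6 * b / δ) ^ d := by
  refine classes S x p w hA hb (by positivity) hin ?_
  intro S' hS' hd'
  rcases S'.eq_empty_or_nonempty with rfl | ⟨i0, hi0⟩
  · simp
    positivity
  have := packing hd S' x (x i0) (R := 3 * b) (ε := δ) hδ (by positivity)
    (fun i hi j hj hij => hsep i (hS' hi) j (hS' hj) hij) (fun i hi => hd' i hi i0 hi0)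
  refine this.trans (le_of_eq ?_)
  congr 2
  ring

/-- The translates of the points of a layer are separated. -/
theorem layer_prod {α : Type*} (S : Finset α) (x : α → Vec d) (u : Vec d) {ψ : Vec d → ℝ} {δ Λ r : ℝ}
    (m : ℕ) (hδ : 0 < δ) (hδ1 : δ ≤ 1) (hΛ : 0 ≤ Λ)
    (hlip : ∀ y z, ‖y‖ ≤ 2 → ‖z‖ ≤ 2 → |ψ y - ψ z| ≤ Λ * ‖y - z‖)
    (hx : ∀ i ∈ S, ‖x i‖ ≤ 1)
    (hsep : ∀ i ∈ S, ∀ j ∈ S, i ≠ j → δ ≤ ‖x i - x j‖) (hr : ∀ i ∈ S, |ψ (x i) - r| ≤ δ)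
    (hinc : ∀ i ∈ S, ∀ k : ℕ, 1 ≤ k → k < m → ψ (x i) + (3 + Λ) * δ ≤ ψ (x i + (k:ℝ) • u)) :
    ∀ a ∈ S ×ˢ Finset.range m, ∀ b ∈ S ×ˢ Finset.range m, a ≠ b →
      δ ≤ ‖(x a.1 + (a.2:ℝ) • u) - (x b.1 + (b.2:ℝ) • u)‖ := by
  have key : ∀ i ∈ S, ∀ j ∈ S, ∀ k l : ℕ, l < k → k < m →
      δ ≤ ‖(x i + (k:ℝ) • u) - (x j + (l:ℝ) • u)‖ := by
    intro i hi j hj k l hlk hkm
    by_contra hcon
    push Not at hcon
    have e : (x i + (k:ℝ) • u) - (x j + (l:ℝ) • u) = (x i + ((k - l : ℕ) : ℝ) • u) - x j := by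
      rw [Nat.cast_sub hlk.le, sub_smul]
      abel
    rw [e] at hcon
    have h1 := hinc i hi (k - l) (by omega) (by omega)
    have h2 : ‖x i + ((k - l : ℕ) : ℝ) • u‖ ≤ 2 := by
      calc ‖x i + ((k - l : ℕ) : ℝ) • u‖ = ‖((x i + ((k - l : ℕ) : ℝ) • u) - x j) + x j‖ := by
            rw [sub_add_cancel]
        _ ≤ ‖(x i + ((k - l : ℕ) : ℝ) • u) - x j‖ + ‖x j‖ := norm_add_le _ _
        _ ≤ 1 + 1 := add_le_add (hcon.le.trans hδ1) (hx j hj)
        _ = 2 := by norm_num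
    have h3 := abs_le.1 (hlip _ _ h2 ((hx j hj).trans (by norm_num)))
    have h4 : Λ * ‖x i + ((k - l : ℕ) : ℝ) • u - x j‖ ≤ Λ * δ := mul_le_mul_of_nonneg_left hcon.le hΛ
    have h5 := abs_le.1 (hr i hi)
    have h6 := abs_le.1 (hr j hj)
    nlinarith [h3.2, h5.1, h6.2]
  rintro ⟨i, k⟩ ha ⟨j, l⟩ hb hab
  rw [Finset.mem_product, Finset.mem_range] at ha hb
  simp only at ha hb ⊢
  rcases lt_trichotomy k l with h | h | h
  · rw [norm_sub_rev]
    exact key j hb.1 i ha.1 l k h hb.2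
  · subst h
    rw [add_sub_add_right_eq_sub]
    apply hsep i ha.1 j hb.1
    rintro rfl
    exact hab rfl
  · exact key i ha.1 j hb.1 k l h ha.2

/-- The number of the slopes of a layer near a segment, transversal case. -/
theorem count2 (hd : 1 ≤ d) {α : Type*} (S : Finset α) (x : α → Vec d) (p w : Vec d) {ψ : Vec d → ℝ}
    {δ Λ r r' ρ b D : ℝ} (hδ : 0 < δ) (hδ1 : δ ≤ 1) (hΛ : 0 ≤ Λ) (hρ : 0 < ρ) (hb : 0 < b) (hb1 : b ≤ 1)
    (hD : 0 < D)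
    (hlip : ∀ y z, ‖y‖ ≤ 2 → ‖z‖ ≤ 2 → |ψ y - ψ z| ≤ Λ * ‖y - z‖)
    (hc : ∀ x, ConvexOn ℝ univ (fun t : ℝ => ψ (x + t • w)))
    (hx : ∀ i ∈ S, ‖x i‖ ≤ 1) (hp : ‖p‖ ≤ 1)
    (hsep : ∀ i ∈ S, ∀ j ∈ S, i ≠ j → δ ≤ ‖x i - x j‖) (hr : ∀ i ∈ S, |ψ (x i) - r| ≤ δ)
    (hr' : |ψ p - r'| ≤ δ) (hrr : D + 2 * δ + Λ * b ≤ r - r')
    (hin : ∀ i ∈ S, ∃ z : ℝ, ρ ≤ z ∧ ‖x i - (p + z⁻¹ • w)‖ ≤ b) :
    (S.card : ℝ) * (D / ((3 + Λ) * δ)) ≤ (2 / ρ * ‖w‖ / b + 1) * (1 + 6 * b / δ) ^ d := by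
  set a : ℝ := (3 + Λ) * δ / (ρ * D) with ha
  have ha0 : 0 < a := by positivity
  set m : ℕ := ⌊1 / (ρ * a)⌋₊ + 1 with hm
  have hma : D / ((3 + Λ) * δ) ≤ m := by
    have h1 := Nat.lt_floor_add_one (1 / (ρ * a))
    have h2 : 1 / (ρ * a) = D / ((3 + Λ) * δ) := by
      rw [ha]
      field_simp
    rw [hm]
    push_cast
    rw [← h2]
    exact h1.le
  have hinc : ∀ i ∈ S, ∀ k : ℕ, 1 ≤ k → k < m → ψ (x i) + (3 + Λ) * δ ≤ ψ (x i + (k:ℝ) • (a • w)) := by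
    intro i hi k hk1 hkm
    obtain ⟨z, hz, hzx⟩ := hin i hi
    have hz0 : 0 < z := lt_of_lt_of_le hρ hz
    have hk0 : (1:ℝ) ≤ k := by exact_mod_cast hk1
    have h1 := conv_step hc (x i) (s := z⁻¹) (a := k * a) (by positivity) (by positivity)
    have h2 : ‖(x i - z⁻¹ • w) - p‖ ≤ b := by
      have e : (x i - z⁻¹ • w) - p = x i - (p + z⁻¹ • w) := by abel
      rw [e]
      exact hzx
    have h3 : ‖x i - z⁻¹ • w‖ ≤ 2 := by
      calc ‖x i - z⁻¹ • w‖ = ‖((x i - z⁻¹ • w) - p) + p‖ := by rw [sub_add_cancel]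
        _ ≤ ‖(x i - z⁻¹ • w) - p‖ + ‖p‖ := norm_add_le _ _
        _ ≤ 1 + 1 := add_le_add (h2.trans hb1) hp
        _ = 2 := by norm_num
    have h4 := abs_le.1 (hlip _ _ h3 (hp.trans (by norm_num)))
    have h5 := abs_le.1 (hr i hi)
    have h6 := abs_le.1 hr'
    have h7 : Λ * ‖(x i - z⁻¹ • w) - p‖ ≤ Λ * b := mul_le_mul_of_nonneg_left h2 hΛ
    have h8 : D ≤ ψ (x i) - ψ (x i - z⁻¹ • w) := by linarith [h4.2, h5.1, h6.2]
    have h9 : D * ρ ≤ (ψ (x i) - ψ (x i - z⁻¹ • w)) / z⁻¹ := by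
      rw [div_inv_eq_mul]
      exact mul_le_mul h8 hz hρ.le (hD.le.trans h8)
    have h10 : D * ρ ≤ (ψ (x i + (k * a) • w) - ψ (x i)) / (k * a) := h9.trans h1
    rw [le_div_iff₀ (by positivity)] at h10
    have h11 : (3 + Λ) * δ ≤ D * ρ * (k * a) := by
      have e : D * ρ * (k * a) = k * ((3 + Λ) * δ) := by
        rw [ha]
        field_simp
      rw [e]
      have : 0 ≤ (3 + Λ) * δ := by positivity
      nlinarith
    rw [smul_smul]
    linarith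
  have hprod := layer_prod S x (a • w) m hδ hδ1 hΛ hlip hx hsep hr hinc
  have h1 := pack_seg hd (S ×ˢ Finset.range m) (fun q => x q.1 + (q.2:ℝ) • (a • w)) p w
    (A := 2 / ρ) (b := b) (by positivity) hb hδ hprod (by
      rintro ⟨i, k⟩ hik
      rw [Finset.mem_product, Finset.mem_range] at hik
      simp only at hik ⊢
      obtain ⟨z, hz, hzx⟩ := hin i hik.1
      have hz0 : 0 < z := lt_of_lt_of_le hρ hz
      refine ⟨z⁻¹ + k * a, by positivity, ?_, ?_⟩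
      · have h2 : z⁻¹ ≤ ρ⁻¹ := inv_anti₀ hρ hz
        have h3 : (k:ℝ) ≤ 1 / (ρ * a) := by
          have h4 : k ≤ ⌊1 / (ρ * a)⌋₊ := by omega
          exact (Nat.le_floor_iff (by positivity)).1 h4
        have h5 : k * a ≤ ρ⁻¹ := by
          calc k * a ≤ 1 / (ρ * a) * a := by gcongr
            _ = ρ⁻¹ := by field_simp
        calc z⁻¹ + k * a ≤ ρ⁻¹ + ρ⁻¹ := add_le_add h2 h5
          _ = 2 / ρ := by ring
      · have e : x i + (k:ℝ) • (a • w) - (p + (z⁻¹ + k * a) • w) = x i - (p + z⁻¹ • w) := by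
          rw [add_smul, smul_smul]
          abel
        rw [e]
        exact hzx)
  rw [Finset.card_product, Finset.card_range] at h1
  push_cast at h1
  refine le_trans ?_ h1
  gcongr

/-- The number of the slopes of a layer near a segment, general case. -/
theorem count1 (hd : 1 ≤ d) {α : Type*} (S : Finset α) (x : α → Vec d) (p w : Vec d) {ψ : Vec d → ℝ}
    {δ Λ lam r ρ b : ℝ} (hδ : 0 < δ) (hδ1 : δ ≤ 1) (hΛ : 0 ≤ Λ) (hρ : 0 < ρ) (hb : 0 < b)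
    (hlam : 0 < lam) (hbl : 3 * b ≤ lam)
    (hlip : ∀ y z, ‖y‖ ≤ 2 → ‖z‖ ≤ 2 → |ψ y - ψ z| ≤ Λ * ‖y - z‖)
    (hx : ∀ i ∈ S, ‖x i‖ ≤ 1)
    (hreg : ∀ i ∈ S, ∃ e : Vec d, ‖e‖ = 1 ∧ ∀ y θ, ‖y - x i‖ ≤ lam → 0 ≤ θ → θ ≤ lam →
      ψ y + lam * θ ≤ ψ (y + θ • e))
    (hsep : ∀ i ∈ S, ∀ j ∈ S, i ≠ j → δ ≤ ‖x i - x j‖) (hr : ∀ i ∈ S, |ψ (x i) - r| ≤ δ)
    (hin : ∀ i ∈ S, ∃ z : ℝ, ρ ≤ z ∧ ‖x i - (p + z⁻¹ • w)‖ ≤ b) :
    (S.card : ℝ) ≤ (1 / ρ * ‖w‖ / b + 1) * ((3 + Λ) * δ / lam / b * (1 + 8 * b / δ) ^ d) := by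
  apply classes S x p w (by positivity) hb (by positivity)
  · intro i hi
    obtain ⟨z, hz, hzx⟩ := hin i hi
    have hz0 : 0 < z := lt_of_lt_of_le hρ hz
    exact ⟨z⁻¹, by positivity, by rw [one_div]; exact inv_anti₀ hρ hz, hzx⟩
  intro S' hS' hd'
  rcases S'.eq_empty_or_nonempty with rfl | ⟨i0, hi0⟩
  · simp
    positivity
  obtain ⟨e, he, hinc0⟩ := hreg i0 (hS' hi0)
  set τ : ℝ := (3 + Λ) * δ / lam with hτ
  have hτ0 : 0 < τ := by positivity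
  set m : ℕ := ⌊b / τ⌋₊ + 1 with hm
  have hmb : b / τ ≤ m := by
    rw [hm]
    push_cast
    exact (Nat.lt_floor_add_one _).le
  have hkb : ∀ k : ℕ, k < m → k * τ ≤ b := by
    intro k hk
    have h4 : k ≤ ⌊b / τ⌋₊ := by omega
    have h5 : (k:ℝ) ≤ b / τ := (Nat.le_floor_iff (by positivity)).1 h4
    rwa [le_div_iff₀ hτ0] at h5
  have hprod := layer_prod S' x (τ • e) (ψ := ψ) (r := r) m hδ hδ1 hΛ hlip (fun i hi => hx i (hS' hi))
    (fun i hi j hj hij => hsep i (hS' hi) j (hS' hj) hij) (fun i hi => hr i (hS' hi)) (by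
      intro i hi k hk1 hkm
      have h1 := hinc0 (x i) (k * τ) ((hd' i hi i0 hi0).trans hbl) (by positivity)
        ((hkb k hkm).trans (by linarith))
      rw [smul_smul]
      refine le_trans ?_ h1
      have hk0 : (1:ℝ) ≤ k := by exact_mod_cast hk1
      have e1 : lam * (k * τ) = k * ((3 + Λ) * δ) := by
        rw [hτ]
        field_simp
      rw [e1]
      have : 0 ≤ (3 + Λ) * δ := by positivity
      nlinarith)
  have h1 := packing hd (S' ×ˢ Finset.range m) (fun q => x q.1 + (q.2:ℝ) • (τ • e)) (x i0)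
    (R := 4 * b) (ε := δ) hδ (by positivity) hprod (by
      rintro ⟨i, k⟩ hik
      rw [Finset.mem_product, Finset.mem_range] at hik
      simp only at hik ⊢
      calc ‖x i + (k:ℝ) • (τ • e) - x i0‖ = ‖(x i - x i0) + (k * τ) • e‖ := by
            congr 1
            rw [smul_smul]
            abel
        _ ≤ ‖x i - x i0‖ + ‖(k * τ) • e‖ := norm_add_le _ _
        _ ≤ 3 * b + b := by
            gcongr
            · exact hd' i hik.1 i0 hi0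
            · rw [norm_smul, he, mul_one, Real.norm_eq_abs, abs_of_nonneg (by positivity)]
              exact hkb k hik.2
        _ = 4 * b := by ring)
  rw [Finset.card_product, Finset.card_range] at h1
  push_cast at h1
  have h2 : (S'.card : ℝ) * (b / τ) ≤ (1 + 8 * b / δ) ^ d := by
    calc (S'.card : ℝ) * (b / τ) ≤ S'.card * m := by gcongr
      _ ≤ (1 + 2 * (4 * b) / δ) ^ d := h1
      _ = _ := by congr 2; ring
  have h3 : (S'.card : ℝ) = τ / b * (S'.card * (b / τ)) := by field_simp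
  rw [h3]
  gcongr

end Pool.Agent.U515.CL
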