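import Pool.Agent.U515.CL.Geo

set_option autoImplicit false

/-! The overlap times of one tube with the tubes of one layer. -/

open MeasureTheory Set ENNReal Real Metric

namespace Pool.Agent.U515.CL

open Pool.Agent.H810R3.Tub Pool.Agent.U527.Crv

variable {d : ℕ}

/-- The time which two tubes with difference of positions `b` and of slopes `u` spend together. -/
noncomputable def ovl (δ ρ : ℝ) (b u : Vec d) : ℝ≥0∞ :=
  volume {z : ℝ | z ∈ Icc ρ (2 * ρ) ∧ ‖b + z • u‖ < 6 * δ}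

theorem ovl_le_rho {δ ρ : ℝ} (b u : Vec d) : ovl δ ρ b u ≤ ENNReal.ofReal ρ := by
  unfold ovl
  calc _ ≤ volume (Icc ρ (2 * ρ)) := measure_mono fun z hz => hz.1
    _ = _ := by
      rw [Real.volume_Icc]
      congr 1
      ring

theorem ovl_ne_top {δ ρ : ℝ} (b u : Vec d) : ovl δ ρ b u ≠ ∞ :=
  ((ovl_le_rho b u).trans_lt ENNReal.ofReal_lt_top).ne

theorem ovl_exists {δ ρ : ℝ} {b u : Vec d} (h : ovl δ ρ b u ≠ 0) :
    ∃ z ∈ Icc ρ (2 * ρ), ‖b + z • u‖ < 6 * δ := by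
  by_contra hcon
  push Not at hcon
  apply h
  unfold ovl
  have : {z : ℝ | z ∈ Icc ρ (2 * ρ) ∧ ‖b + z • u‖ < 6 * δ} = ∅ := by
    ext z
    simp only [mem_setOf_eq, mem_empty_iff_false, iff_false, not_and, not_lt]
    exact hcon z
  rw [this, measure_empty]

theorem ovl_neg {δ ρ : ℝ} (b u : Vec d) : ovl δ ρ (-b) (-u) = ovl δ ρ b u := by
  unfold ovl
  congr 1
  ext z
  simp only [mem_setOf_eq]
  rw [smul_neg, ← neg_add, norm_neg]

theorem ovl_le {δ ρ : ℝ} (b : Vec d) {u : Vec d} (hu : 0 < ‖u‖) (hδ : 0 < δ) :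
    ovl δ ρ b u ≤ ENNReal.ofReal (24 * δ / ‖u‖) := by
  by_cases h : ovl δ ρ b u = 0
  · rw [h]
    exact zero_le
  obtain ⟨z0, _, hz0⟩ := ovl_exists h
  unfold ovl
  calc _ ≤ volume (Icc (z0 - 12 * δ / ‖u‖) (z0 + 12 * δ / ‖u‖)) := by
        apply measure_mono
        intro z hz
        have h1 : |z - z0| * ‖u‖ ≤ 12 * δ := by
          calc |z - z0| * ‖u‖ = ‖(b + z • u) - (b + z0 • u)‖ := by
                rw [add_sub_add_left_eq_sub, ← sub_smul, norm_smul, Real.norm_eq_abs]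
            _ ≤ ‖b + z • u‖ + ‖b + z0 • u‖ := norm_sub_le _ _
            _ ≤ 6 * δ + 6 * δ := add_le_add hz.2.le hz0.le
            _ = 12 * δ := by ring
        have h2 : |z - z0| ≤ 12 * δ / ‖u‖ := by rwa [le_div_iff₀ hu]
        have h3 := abs_le.1 h2
        constructor <;> linarith [h3.1, h3.2]
    _ = _ := by
      rw [Real.volume_Icc]
      congr 1
      ring

/-- The real value of the overlap time. -/
noncomputable def ov (δ ρ : ℝ) (b u : Vec d) : ℝ := (ovl δ ρ b u).toReal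

theorem ov_nonneg {δ ρ : ℝ} (b u : Vec d) : 0 ≤ ov δ ρ b u := ENNReal.toReal_nonneg

theorem ovl_eq {δ ρ : ℝ} (b u : Vec d) : ovl δ ρ b u = ENNReal.ofReal (ov δ ρ b u) :=
  (ENNReal.ofReal_toReal (ovl_ne_top b u)).symm

theorem ov_neg {δ ρ : ℝ} (b u : Vec d) : ov δ ρ (-b) (-u) = ov δ ρ b u := by
  unfold ov
  rw [ovl_neg]

theorem ov_le_rho {δ ρ : ℝ} (hρ : 0 < ρ) (b u : Vec d) : ov δ ρ b u ≤ ρ := by
  unfold ov
  exact ENNReal.toReal_le_of_le_ofReal hρ.le (ovl_le_rho b u)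

theorem ov_le {δ ρ : ℝ} (b : Vec d) {u : Vec d} (hu : 0 < ‖u‖) (hδ : 0 < δ) :
    ov δ ρ b u ≤ 24 * δ / ‖u‖ := by
  unfold ov
  exact ENNReal.toReal_le_of_le_ofReal (by positivity) (ovl_le b hu hδ)

theorem ov_exists {δ ρ : ℝ} {b u : Vec d} (h : ov δ ρ b u ≠ 0) :
    ∃ z ∈ Icc ρ (2 * ρ), ‖b + z • u‖ < 6 * δ := by
  apply ovl_exists
  intro h0
  apply h
  unfold ov
  rw [h0, ENNReal.toReal_zero]

/-- Constants. -/
noncomputable def A1 (d : ℕ) (T κ Λ lam : ℝ) : ℝ := 192 * (3 + Λ) * (T + 8 * κ) ^ d / (lam * κ ^ 2)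

noncomputable def A2 (d : ℕ) (T κ Λ : ℝ) : ℝ := 1152 * (3 + Λ) * (T + 6 * κ) ^ d / κ

noncomputable def C1 (κ lam : ℝ) : ℝ := 3 * κ + 6 * κ / lam

/-- Geometry of one pair of tubes that meet and are far apart. -/
theorem pair_geo {κ lam δ ρ z : ℝ} {w u : Vec d} (hκ : 0 < κ) (hlam : 0 < lam) (hδ : 0 < δ) (hρ : 0 < ρ)
    (hz1 : ρ ≤ z) (hz2 : z ≤ 2 * ρ) (hw : ‖w + z • u‖ ≤ κ * δ) (hu : C1 κ lam * δ / ρ < ‖u‖) :
    2 * κ * δ ≤ ‖w‖ ∧ ‖w‖ / (4 * ρ) ≤ ‖u‖ ∧ ‖-u - z⁻¹ • w‖ ≤ κ * δ / ρ := by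
  have hz0 : 0 < z := lt_of_lt_of_le hρ hz1
  have hC : 3 * κ ≤ C1 κ lam := by
    unfold C1
    have : 0 < 6 * κ / lam := by positivity
    linarith
  have h1 : 3 * κ * δ ≤ ‖z • u‖ := by
    rw [norm_smul, Real.norm_eq_abs, abs_of_pos hz0]
    rw [div_lt_iff₀ hρ] at hu
    have h2 : ‖u‖ * ρ ≤ ‖u‖ * z := mul_le_mul_of_nonneg_left hz1 (norm_nonneg u)
    have h3 : 3 * κ * δ ≤ C1 κ lam * δ := mul_le_mul_of_nonneg_right hC hδ.le
    nlinarith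
  have h2 : ‖z • u‖ ≤ ‖w + z • u‖ + ‖w‖ := by
    calc ‖z • u‖ = ‖(w + z • u) - w‖ := by congr 1; abel
      _ ≤ _ := norm_sub_le _ _
  have h3 : ‖w‖ ≤ ‖w + z • u‖ + ‖z • u‖ := by
    calc ‖w‖ = ‖(w + z • u) - z • u‖ := by congr 1; abel
      _ ≤ _ := norm_sub_le _ _
  have h4 : 2 * κ * δ ≤ ‖w‖ := by linarith
  refine ⟨h4, ?_, ?_⟩
  · have h5 : ‖w‖ / 2 ≤ ‖z • u‖ := by linarith
    rw [norm_smul, Real.norm_eq_abs, abs_of_pos hz0] at h5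
    rw [div_le_iff₀ (by positivity)]
    nlinarith [norm_nonneg u]
  · have e : -u - z⁻¹ • w = -(z⁻¹ • (w + z • u)) := by
      rw [smul_add, smul_smul, inv_mul_cancel₀ hz0.ne', one_smul]
      abel
    rw [e, norm_neg, norm_smul, norm_inv, Real.norm_eq_abs, abs_of_pos hz0, inv_mul_eq_div]
    gcongr

/-- The overlap times of one tube with the tubes of one layer, both bounds. -/
theorem layer_bd (hd : 1 ≤ d) {ι : Type} (S : Finset ι) (v : ι → Vec d) (p w : Vec d)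
    (bb : ι → Vec d) {ψ : Vec d → ℝ} {T κ Λ lam δ ρ r r' K : ℝ} (hκ : 6 + 2 * K ≤ κ) (hκ0 : 0 < κ)
    (hΛ : 0 ≤ Λ) (hlam : 0 < lam) (hδ : 0 < δ) (hδ1 : δ ≤ 1) (hρ : 0 < ρ) (hρT : ρ ≤ T)
    (hlip : ∀ y z, ‖y‖ ≤ 2 → ‖z‖ ≤ 2 → |ψ y - ψ z| ≤ Λ * ‖y - z‖)
    (hv : ∀ i ∈ S, ‖v i‖ ≤ 1) (hp : ‖p‖ ≤ 1)
    (hreg : ∀ i ∈ S, ∃ e : Vec d, ‖e‖ = 1 ∧ ∀ y θ, ‖y - v i‖ ≤ lam → 0 ≤ θ → θ ≤ lam →
      ψ y + lam * θ ≤ ψ (y + θ • e))
    (hsep : ∀ i ∈ S, ∀ j ∈ S, i ≠ j → δ ≤ ‖v i - v j‖)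
    (hr : ∀ i ∈ S, |ψ (v i) - r| ≤ δ) (hr' : |ψ p - r'| ≤ δ)
    (hw : ∀ i ∈ S, ‖bb i - w‖ ≤ 2 * K * δ)
    (hfar : ∀ i ∈ S, C1 κ lam * δ / ρ < ‖p - v i‖)
    (hne : ∀ i ∈ S, ov δ ρ (bb i) (p - v i) ≠ 0) :
    ∑ i ∈ S, ov δ ρ (bb i) (p - v i) ≤ A1 d T κ Λ lam * (ρ ^ 2 / ρ ^ d) ∧
    ∀ g : ℝ, 0 < g → (((∀ x, ConvexOn ℝ univ (fun t : ℝ => ψ (x + t • w))) ∧ r - r' = g * δ) ∨
        ((∀ x, ConcaveOn ℝ univ (fun t : ℝ => ψ (x + t • w))) ∧ r' - r = g * δ)) →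
      3 * T + 2 * Λ * κ ≤ g * ρ →
      ∑ i ∈ S, ov δ ρ (bb i) (p - v i) ≤ A2 d T κ Λ * (ρ / ρ ^ d / g) := by
  have hT : 0 < T := lt_of_lt_of_le hρ hρT
  set b : ℝ := κ * δ / ρ with hb
  have hb0 : 0 < b := by positivity
  have hA1 : 0 ≤ A1 d T κ Λ lam := by unfold A1; positivity
  have hA2 : 0 ≤ A2 d T κ Λ := by unfold A2; positivity
  rcases S.eq_empty_or_nonempty with rfl | ⟨i0, hi0⟩
  · simp only [Finset.sum_empty]
    exact ⟨by positivity, fun g hg _ _ => by positivity⟩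
  have geo : ∀ i ∈ S, ∃ z, ρ ≤ z ∧ ‖v i - (p + z⁻¹ • w)‖ ≤ b ∧ 2 * κ * δ ≤ ‖w‖ ∧
      ‖w‖ / (4 * ρ) ≤ ‖p - v i‖ := by
    intro i hi
    obtain ⟨z, hz, hzn⟩ := ov_exists (hne i hi)
    have h1 : ‖w + z • (p - v i)‖ ≤ κ * δ := by
      calc ‖w + z • (p - v i)‖ = ‖(bb i + z • (p - v i)) - (bb i - w)‖ := by congr 1; abel
        _ ≤ ‖bb i + z • (p - v i)‖ + ‖bb i - w‖ := norm_sub_le _ _
        _ ≤ 6 * δ + 2 * K * δ := add_le_add hzn.le (hw i hi)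
        _ = (6 + 2 * K) * δ := by ring
        _ ≤ κ * δ := mul_le_mul_of_nonneg_right hκ hδ.le
    obtain ⟨g1, g2, g3⟩ := pair_geo hκ0 hlam hδ hρ hz.1 hz.2 h1 (hfar i hi)
    refine ⟨z, hz.1, ?_, g1, g2⟩
    have e : v i - (p + z⁻¹ • w) = -(p - v i) - z⁻¹ • w := by abel
    rw [e]
    exact g3
  obtain ⟨_, _, _, hw2, _⟩ := geo i0 hi0
  have hw0 : 0 < ‖w‖ := lt_of_lt_of_le (by positivity) hw2
  have hin : ∀ i ∈ S, ∃ z : ℝ, ρ ≤ z ∧ ‖v i - (p + z⁻¹ • w)‖ ≤ b := by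
    intro i hi
    obtain ⟨z, h1, h2, _⟩ := geo i hi
    exact ⟨z, h1, h2⟩
  -- the far condition makes `b` small
  have hbd : C1 κ lam * δ / ρ < 2 := by
    refine lt_of_lt_of_le (hfar i0 hi0) ?_
    calc ‖p - v i0‖ ≤ ‖p‖ + ‖v i0‖ := norm_sub_le _ _
      _ ≤ 1 + 1 := add_le_add hp (hv i0 hi0)
      _ = 2 := by norm_num
  have hbd1 : b ≤ 1 := by
    have h1 : 3 * κ * δ / ρ ≤ C1 κ lam * δ / ρ := by
      unfold C1
      have : 0 < 6 * κ / lam := by positivity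
      gcongr
      linarith
    have h2 : 3 * κ * δ / ρ = 3 * b := by rw [hb]; ring
    linarith
  have hbd2 : 3 * b ≤ lam := by
    have h1 : 6 * κ / lam * δ / ρ ≤ C1 κ lam * δ / ρ := by
      unfold C1
      gcongr
      linarith
    have h2 : 6 * κ / lam * δ / ρ = 6 * b / lam := by rw [hb]; ring
    have h3 : 6 * b / lam < 2 := by linarith
    rw [div_lt_iff₀ hlam] at h3
    linarith
  -- the sum is at most the number times a common bound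
  have hsum : ∑ i ∈ S, ov δ ρ (bb i) (p - v i) ≤ S.card * (96 * δ * ρ / ‖w‖) := by
    rw [← nsmul_eq_mul]
    apply Finset.sum_le_card_nsmul
    intro i hi
    obtain ⟨_, _, _, _, h4⟩ := geo i hi
    have h5 : 0 < ‖p - v i‖ := lt_of_lt_of_le (by positivity) h4
    refine (ov_le _ h5 hδ).trans ?_
    calc 24 * δ / ‖p - v i‖ ≤ 24 * δ / (‖w‖ / (4 * ρ)) := by gcongr
      _ = _ := by field_simp; ring
  have hT6 : (1 + 6 * b / δ) ^ d ≤ (T + 6 * κ) ^ d / ρ ^ d := by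
    rw [← div_pow]
    have e : 1 + 6 * b / δ = (ρ + 6 * κ) / ρ := by rw [hb]; field_simp
    rw [e]
    gcongr
  have hT8 : (1 + 8 * b / δ) ^ d ≤ (T + 8 * κ) ^ d / ρ ^ d := by
    rw [← div_pow]
    have e : 1 + 8 * b / δ = (ρ + 8 * κ) / ρ := by rw [hb]; field_simp
    rw [e]
    gcongr
  have hone : 1 ≤ ‖w‖ / (κ * δ) := by
    rw [le_div_iff₀ (by positivity)]
    nlinarith [mul_pos hκ0 hδ]
  constructor
  · have hc := count1 hd S v p w hδ hδ1 hΛ hρ hb0 hlam hbd2 hlip hv hreg hsep hr hin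
    have e1 : 1 / ρ * ‖w‖ / b = ‖w‖ / (κ * δ) := by rw [hb]; field_simp
    have e2 : (3 + Λ) * δ / lam / b = (3 + Λ) * ρ / (lam * κ) := by rw [hb]; field_simp
    rw [e1, e2] at hc
    have hc2 : (S.card : ℝ) ≤ (2 * (‖w‖ / (κ * δ))) * ((3 + Λ) * ρ / (lam * κ) *
        ((T + 8 * κ) ^ d / ρ ^ d)) := by
      refine hc.trans ?_
      gcongr
      linarith
    refine hsum.trans ?_
    calc (S.card : ℝ) * (96 * δ * ρ / ‖w‖) ≤ ((2 * (‖w‖ / (κ * δ))) * ((3 + Λ) * ρ / (lam * κ) *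
        ((T + 8 * κ) ^ d / ρ ^ d))) * (96 * δ * ρ / ‖w‖) := by gcongr
      _ = _ := by
        unfold A1
        field_simp
        ring
  · intro g hg hcase hgρ
    have hD : 0 < g * δ / 4 := by positivity
    have hrr : ∀ x : ℝ, x = g * δ → g * δ / 4 + 2 * δ + Λ * b ≤ x := by
      intro x hx
      rw [hx, hb]
      have h1 : 2 * δ ≤ 2 * T * δ / ρ := by
        rw [le_div_iff₀ hρ]
        nlinarith
      have h2 : (3 * T + 2 * Λ * κ) * δ / ρ ≤ g * δ := by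
        rw [div_le_iff₀ hρ]
        nlinarith
      have e3 : (3 * T + 2 * Λ * κ) * δ / ρ = 3 / 2 * (2 * T * δ / ρ) + 2 * (Λ * (κ * δ / ρ)) := by ring
      rw [e3] at h2
      have h4 : 0 ≤ Λ * (κ * δ / ρ) := by positivity
      have h5 : 0 ≤ 2 * T * δ / ρ := by positivity
      nlinarith
    have hc : (S.card : ℝ) * (g * δ / 4 / ((3 + Λ) * δ)) ≤
        (2 / ρ * ‖w‖ / b + 1) * (1 + 6 * b / δ) ^ d := by
      rcases hcase with ⟨hconv, hgap⟩ | ⟨hconc, hgap⟩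
      · exact count2 hd S v p w hδ hδ1 hΛ hρ hb0 hbd1 hD hlip hconv hv hp hsep hr hr'
          (hrr _ hgap) hin
      · refine count2 hd S v p w (ψ := fun x => -ψ x) (r := -r) (r' := -r') hδ hδ1 hΛ hρ hb0 hbd1 hD
          ?_ ?_ hv hp hsep ?_ ?_ (hrr _ (by linarith)) hin
        · intro y z hy hz
          have : -ψ y - -ψ z = -(ψ y - ψ z) := by ring
          rw [this, abs_neg]
          exact hlip y z hy hz
        · intro x
          exact (hconc x).neg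
        · intro i hi
          have : -ψ (v i) - -r = -(ψ (v i) - r) := by ring
          rw [this, abs_neg]
          exact hr i hi
        · have : -ψ p - -r' = -(ψ p - r') := by ring
          rw [this, abs_neg]
          exact hr'
    have e1 : 2 / ρ * ‖w‖ / b = 2 * (‖w‖ / (κ * δ)) := by rw [hb]; field_simp
    have e2 : g * δ / 4 / ((3 + Λ) * δ) = g / (4 * (3 + Λ)) := by field_simp
    rw [e1, e2] at hc
    have hc2 : (S.card : ℝ) * (g / (4 * (3 + Λ))) ≤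
        (3 * (‖w‖ / (κ * δ))) * ((T + 6 * κ) ^ d / ρ ^ d) := by
      refine hc.trans ?_
      gcongr
      linarith
    refine hsum.trans ?_
    calc (S.card : ℝ) * (96 * δ * ρ / ‖w‖)
        = (S.card : ℝ) * (g / (4 * (3 + Λ))) * ((4 * (3 + Λ)) / g * (96 * δ * ρ / ‖w‖)) := by
          field_simp
      _ ≤ (3 * (‖w‖ / (κ * δ))) * ((T + 6 * κ) ^ d / ρ ^ d) *
          ((4 * (3 + Λ)) / g * (96 * δ * ρ / ‖w‖)) := by gcongr
      _ = _ := by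
        unfold A2
        field_simp
        ring

end Pool.Agent.U515.CL
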