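import Pool.Agent.U515.CL.Fixed

set_option autoImplicit false

/-! One window of heights. -/

open MeasureTheory Set ENNReal Real Metric

namespace Pool.Agent.U515.CL

open Pool.Agent.H810R3.Tub Pool.Agent.U527.Crv

variable {d : ℕ}

/-- Along every direction `ψ` is convex on all lines or concave on all lines. -/
def Dir (ψ : Vec d → ℝ) : Prop :=
  ∀ w : Vec d, (∀ x, ConvexOn ℝ univ (fun t : ℝ => ψ (x + t • w))) ∨
    (∀ x, ConcaveOn ℝ univ (fun t : ℝ => ψ (x + t • w)))

theorem conv_neg {ψ : Vec d → ℝ} {w : Vec d}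
    (h : ∀ x, ConvexOn ℝ univ (fun t : ℝ => ψ (x + t • w))) :
    ∀ x, ConvexOn ℝ univ (fun t : ℝ => ψ (x + t • (-w))) := by
  intro x
  have h1 := (h x).comp_linearMap (-LinearMap.id : ℝ →ₗ[ℝ] ℝ)
  rw [preimage_univ] at h1
  have e : (fun t : ℝ => ψ (x + t • (-w))) =
      (fun t : ℝ => ψ (x + t • w)) ∘ (-LinearMap.id : ℝ →ₗ[ℝ] ℝ) := by
    funext t
    simp only [Function.comp_apply, LinearMap.neg_apply, LinearMap.id_apply, smul_neg, neg_smul]
  rw [e]
  exact h1

theorem conc_neg {ψ : Vec d → ℝ} {w : Vec d}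
    (h : ∀ x, ConcaveOn ℝ univ (fun t : ℝ => ψ (x + t • w))) :
    ∀ x, ConcaveOn ℝ univ (fun t : ℝ => ψ (x + t • (-w))) := by
  intro x
  have h1 := (h x).comp_linearMap (-LinearMap.id : ℝ →ₗ[ℝ] ℝ)
  rw [preimage_univ] at h1
  have e : (fun t : ℝ => ψ (x + t • (-w))) =
      (fun t : ℝ => ψ (x + t • w)) ∘ (-LinearMap.id : ℝ →ₗ[ℝ] ℝ) := by
    funext t
    simp only [Function.comp_apply, LinearMap.neg_apply, LinearMap.id_apply, smul_neg, neg_smul]
  rw [e]
  exact h1

theorem good_or {ψ : Vec d → ℝ} (h : Dir ψ) (F : ℤ → Vec d) (i j : ℤ) :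
    Good ψ F i j ∨ Good ψ F j i := by
  have e : F j - F i = -(F i - F j) := by abel
  rcases h (F i - F j) with h1 | h1 <;> rcases le_total i j with h2 | h2
  · exact Or.inl (Or.inl ⟨h1, h2⟩)
  · right; left
    refine ⟨?_, h2⟩
    rw [e]
    exact conv_neg h1
  · right; right
    refine ⟨?_, h2⟩
    rw [e]
    exact conc_neg h1
  · exact Or.inl (Or.inr ⟨h1, h2⟩)

theorem Data.neg {ι : Type} {ψ : Vec d → ℝ} {F : ℤ → Vec d} {v β : ι → Vec d} {ℓ : ι → ℤ}
    {Λ lam δ K : ℝ} (D : Data ψ F v β ℓ Λ lam δ K) :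
    Data (fun x => ψ (-x)) F (fun i => -v i) β ℓ Λ lam δ K where
  lip := by
    intro y z hy hz
    have := D.lip (-y) (-z) (by rwa [norm_neg]) (by rwa [norm_neg])
    rwa [← neg_sub', norm_neg] at this
  hv := fun i => by rw [norm_neg]; exact D.hv i
  reg := by
    intro i
    obtain ⟨e, he, h⟩ := D.reg i
    refine ⟨-e, by rwa [norm_neg], ?_⟩
    intro y θ hy h0 h1
    have h2 := h (-y) θ (by
      have e1 : -y - v i = -(y - -v i) := by abel
      rw [e1, norm_neg]
      exact hy) h0 h1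
    have e2 : -(y + θ • -e) = -y + θ • e := by rw [smul_neg]; abel
    rw [e2]
    exact h2
  sep := by
    intro i j hij
    rw [← neg_sub', norm_neg]
    exact D.sep i j hij
  lay := by
    intro i
    simp only [neg_neg]
    exact D.lay i
  pos := D.pos

theorem Dir.neg {ψ : Vec d → ℝ} (h : Dir ψ) : Dir (fun x => ψ (-x)) := by
  intro w
  have e : ∀ (x : Vec d) (t : ℝ), -(x + t • w) = -x + t • (-w) := by
    intro x t
    rw [smul_neg]
    abel
  simp only [e]
  rcases h (-w) with h1 | h1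
  · exact Or.inl fun x => h1 (-x)
  · exact Or.inr fun x => h1 (-x)

/-- The sum of all the overlap times. -/
theorem all_sum (hd : 1 ≤ d) {T κ Λ lam η : ℝ} (hκ0 : 0 < κ) (hΛ : 0 ≤ Λ) (hlam : 0 < lam)
    (hη : 0 < η) (hη1 : η ≤ 1) {ι : Type} [Fintype ι] {ψ : Vec d → ℝ} (hψ : Dir ψ)
    {F : ℤ → Vec d} {v β : ι → Vec d} {ℓ : ι → ℤ} {δ K ρ : ℝ} (D : Data ψ F v β ℓ Λ lam δ K)
    (hκ : 6 + 2 * K ≤ κ) (hδ : 0 < δ) (hδ1 : δ ≤ 1) (hρ : 0 < ρ) (hρT : ρ ≤ T)
    (hN : 1 ≤ (Fintype.card ι : ℝ) * ρ ^ d) :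
    ∑ t, ∑ s, ov δ ρ (β t - β s) (v t - v s) ≤
      2 * ((Fintype.card ι : ℝ) *
        (A3 d T κ Λ lam η * ((ρ / ρ ^ d) * ((Fintype.card ι : ℝ) * ρ ^ d) ^ η))) := by
  classical
  set f : ι → ι → ℝ := fun t s => ov δ ρ (β t - β s) (v t - v s) with hf
  have hf0 : ∀ t s, 0 ≤ f t s := fun t s => ov_nonneg _ _
  have hsym : ∀ t s, f t s = f s t := by
    intro t s
    rw [hf]
    simp only
    rw [← ov_neg, neg_sub, neg_sub]
  set B : ℝ := A3 d T κ Λ lam η * ((ρ / ρ ^ d) * ((Fintype.card ι : ℝ) * ρ ^ d) ^ η) with hB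
  have h1 : ∀ t, ∑ s, (if Good ψ F (ℓ t) (ℓ s) then f t s else 0) ≤ B := by
    intro t
    rw [← Finset.sum_filter]
    apply fixed_sum hd hκ0 hΛ hlam hη hη1 D hκ hδ hδ1 hρ hρT hN t
    intro s hs
    exact (Finset.mem_filter.1 hs).2
  have h2 : ∀ t s, f t s ≤ (if Good ψ F (ℓ t) (ℓ s) then f t s else 0) +
      (if Good ψ F (ℓ s) (ℓ t) then f s t else 0) := by
    intro t s
    rcases good_or hψ F (ℓ t) (ℓ s) with h | h
    · rw [if_pos h]
      split_ifs
      · linarith [hf0 s t]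
      · linarith
    · rw [if_pos h, hsym t s]
      split_ifs
      · linarith [hf0 s t]
      · linarith
  calc ∑ t, ∑ s, f t s ≤ ∑ t, ∑ s, ((if Good ψ F (ℓ t) (ℓ s) then f t s else 0) +
      (if Good ψ F (ℓ s) (ℓ t) then f s t else 0)) :=
        Finset.sum_le_sum fun t _ => Finset.sum_le_sum fun s _ => h2 t s
    _ = ∑ t, ∑ s, (if Good ψ F (ℓ t) (ℓ s) then f t s else 0) +
        ∑ t, ∑ s, (if Good ψ F (ℓ s) (ℓ t) then f s t else 0) := by
        simp only [Finset.sum_add_distrib]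
    _ = ∑ t, ∑ s, (if Good ψ F (ℓ t) (ℓ s) then f t s else 0) +
        ∑ s, ∑ t, (if Good ψ F (ℓ s) (ℓ t) then f s t else 0) := by
        congr 1
        exact Finset.sum_comm
    _ ≤ ∑ _t : ι, B + ∑ _s : ι, B :=
        add_le_add (Finset.sum_le_sum fun t _ => h1 t) (Finset.sum_le_sum fun t _ => h1 t)
    _ = _ := by
        rw [Finset.sum_const, nsmul_eq_mul, Finset.card_univ]
        ring

section slab

variable {ι : Type} [Fintype ι]

theorem cell_int (hd : 1 ≤ d) {δ : ℝ} (hδ : 0 < δ) (a : Vec d) :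
    ∫⁻ x : Vec d, ENNReal.ofReal (chi (3 * δ) (x - a)) = ENNReal.ofReal ((3 * δ) ^ d * om d) := by
  have h4 := lintegral_sub_right_eq_self (μ := (volume : Measure (Vec d)))
    (fun w => ENNReal.ofReal (chi (3 * δ) w)) a
  rw [h4]
  have h5 : ∀ w : Vec d, ENNReal.ofReal (chi (3 * δ) w) =
      (ball (0:Vec d) (3 * δ)).indicator (fun _ => 1) w := by
    intro w
    unfold chi
    by_cases hw : w ∈ ball (0 : Vec d) (3 * δ)
    · rw [indicator_of_mem hw, indicator_of_mem hw, ENNReal.ofReal_one]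
    · rw [indicator_of_notMem hw, indicator_of_notMem hw, ENNReal.ofReal_zero]
  simp only [h5]
  rw [lintegral_indicator measurableSet_ball, setLIntegral_const, one_mul]
  exact vol_ball hd (by positivity)

theorem Uf_meas (δ : ℝ) (v β : ι → Vec d) :
    Measurable (fun p : ℝ × Vec d => Uf δ v β p.2 p.1) := by
  unfold Uf
  apply Finset.measurable_sum
  intro t _
  exact ((chi_meas _).comp (by fun_prop)).ennreal_ofReal

theorem L1 (hd : 1 ≤ d) {δ ρ : ℝ} (hδ : 0 < δ) (hρ : 0 < ρ) (v β : ι → Vec d) :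
    ∫⁻ z in Icc ρ (2 * ρ), ∫⁻ x, Uf δ v β x z =
      ENNReal.ofReal (ρ * (Fintype.card ι * ((3 * δ) ^ d * om d))) := by
  have hom := om_pos (d := d)
  have h2 : ∀ z, ∫⁻ x, Uf δ v β x z = ENNReal.ofReal (Fintype.card ι * ((3 * δ) ^ d * om d)) := by
    intro z
    unfold Uf
    have hm : ∀ t, Measurable fun x : Vec d => ENNReal.ofReal (chi (3 * δ) (x - β t - z • v t)) :=
      fun t => ((chi_meas _).comp (by fun_prop)).ennreal_ofReal
    rw [lintegral_finsetSum _ (fun t _ => hm t)]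
    have h3 : ∀ t, ∫⁻ x : Vec d, ENNReal.ofReal (chi (3 * δ) (x - β t - z • v t)) =
        ENNReal.ofReal ((3 * δ) ^ d * om d) := by
      intro t
      have e : ∀ y : Vec d, y - β t - z • v t = y - (β t + z • v t) := fun y => by abel
      simp only [e]
      exact cell_int hd hδ _
    simp only [h3]
    rw [Finset.sum_const, nsmul_eq_mul, Finset.card_univ, ← ENNReal.ofReal_natCast,
      ← ENNReal.ofReal_mul (Nat.cast_nonneg _)]
  simp only [h2]
  rw [setLIntegral_const, Real.volume_Icc, ← ENNReal.ofReal_mul (by positivity)]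
  congr 1
  ring

theorem L2 (hd : 1 ≤ d) {δ ρ : ℝ} (hδ : 0 < δ) (v β : ι → Vec d) :
    ∫⁻ z in Icc ρ (2 * ρ), ∫⁻ x, Uf δ v β x z ^ 2 ≤
      ENNReal.ofReal (((3 * δ) ^ d * om d) * ∑ t, ∑ s, ov δ ρ (β t - β s) (v t - v s)) := by
  have hom := om_pos (d := d)
  set W : ℝ := (3 * δ) ^ d * om d with hW
  have hW0 : 0 ≤ W := by positivity
  set A : ι → ι → Set ℝ := fun t s => {z : ℝ | ‖(β t - β s) + z • (v t - v s)‖ < 6 * δ} with hA
  have hAm : ∀ t s, MeasurableSet (A t s) := by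
    intro t s
    apply IsOpen.measurableSet
    exact isOpen_lt (by fun_prop) continuous_const
  have hm : ∀ (z : ℝ) t, Measurable fun x : Vec d => ENNReal.ofReal (chi (3 * δ) (x - β t - z • v t)) :=
    fun z t => ((chi_meas _).comp (by fun_prop)).ennreal_ofReal
  have hmm : ∀ (z : ℝ) t s, Measurable fun x : Vec d =>
      ENNReal.ofReal (chi (3 * δ) (x - β t - z • v t)) *
        ENNReal.ofReal (chi (3 * δ) (x - β s - z • v s)) := fun z t s => (hm z t).mul (hm z s)
  have hms : ∀ (z : ℝ) t, Measurable fun x : Vec d =>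
      ∑ s, ENNReal.ofReal (chi (3 * δ) (x - β t - z • v t)) *
        ENNReal.ofReal (chi (3 * δ) (x - β s - z • v s)) := fun z t =>
    Finset.measurable_sum _ fun s _ => hmm z t s
  have h1 : ∀ z, ∫⁻ x, Uf δ v β x z ^ 2 ≤ ∑ t, ∑ s, ENNReal.ofReal W * (A t s).indicator 1 z := by
    intro z
    unfold Uf
    simp only [sq, Finset.sum_mul_sum]
    rw [lintegral_finsetSum _ (fun t _ => hms z t)]
    apply Finset.sum_le_sum
    intro t _
    rw [lintegral_finsetSum _ (fun s _ => hmm z t s)]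
    apply Finset.sum_le_sum
    intro s _
    by_cases hz : z ∈ A t s
    · rw [indicator_of_mem hz, Pi.one_apply, mul_one]
      calc _ ≤ ∫⁻ x : Vec d, ENNReal.ofReal (chi (3 * δ) (x - (β t + z • v t))) := by
            apply lintegral_mono
            intro x
            beta_reduce
            have e : x - β t - z • v t = x - (β t + z • v t) := by abel
            rw [e]
            calc _ ≤ ENNReal.ofReal (chi (3 * δ) (x - (β t + z • v t))) * 1 := by
                  gcongr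
                  rw [← ENNReal.ofReal_one]
                  exact ENNReal.ofReal_le_ofReal (chi_le _ _)
              _ = _ := mul_one _
        _ = _ := cell_int hd hδ _
    · rw [indicator_of_notMem hz, mul_zero, nonpos_iff_eq_zero]
      have h0 : ∀ x : Vec d, ENNReal.ofReal (chi (3 * δ) (x - β t - z • v t)) *
          ENNReal.ofReal (chi (3 * δ) (x - β s - z • v s)) = 0 := by
        intro x
        by_cases hx1 : ‖x - β t - z • v t‖ < 3 * δ
        · have hx2 : 3 * δ ≤ ‖x - β s - z • v s‖ := by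
            by_contra hcon
            push Not at hcon
            apply hz
            show ‖(β t - β s) + z • (v t - v s)‖ < 6 * δ
            calc ‖(β t - β s) + z • (v t - v s)‖ = ‖(x - β s - z • v s) - (x - β t - z • v t)‖ := by
                  congr 1
                  rw [smul_sub]
                  abel
              _ ≤ ‖x - β s - z • v s‖ + ‖x - β t - z • v t‖ := norm_sub_le _ _
              _ < 3 * δ + 3 * δ := add_lt_add hcon hx1
              _ = 6 * δ := by ring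
          rw [chi_zero hx2, ENNReal.ofReal_zero, mul_zero]
        · rw [chi_zero (not_lt.1 hx1), ENNReal.ofReal_zero, zero_mul]
      simp only [h0, lintegral_zero]
  calc _ ≤ ∫⁻ z in Icc ρ (2 * ρ), ∑ t, ∑ s, ENNReal.ofReal W * (A t s).indicator 1 z :=
        lintegral_mono h1
    _ = ∑ t, ∑ s, ∫⁻ z in Icc ρ (2 * ρ), ENNReal.ofReal W * (A t s).indicator 1 z := by
        have k1 : ∀ t s, Measurable fun z : ℝ => ENNReal.ofReal W * (A t s).indicator 1 z :=
          fun t s => (measurable_one.indicator (hAm t s)).const_mul _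
        have k2 : ∀ t, Measurable fun z : ℝ => ∑ s, ENNReal.ofReal W * (A t s).indicator 1 z :=
          fun t => Finset.measurable_sum _ fun s _ => k1 t s
        rw [lintegral_finsetSum _ (fun t _ => k2 t)]
        apply Finset.sum_congr rfl
        intro t _
        rw [lintegral_finsetSum _ (fun s _ => k1 t s)]
    _ = ∑ t, ∑ s, ENNReal.ofReal (W * ov δ ρ (β t - β s) (v t - v s)) := by
        apply Finset.sum_congr rfl
        intro t _
        apply Finset.sum_congr rfl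
        intro s _
        rw [lintegral_const_mul' _ _ ENNReal.ofReal_ne_top, lintegral_indicator_one (hAm t s),
          Measure.restrict_apply (hAm t s), ENNReal.ofReal_mul hW0, ← ovl_eq]
        congr 1
        unfold ovl
        congr 1
        ext z
        simp only [hA, mem_inter_iff, mem_setOf_eq]
        tauto
    _ = _ := by
        rw [Finset.mul_sum]
        simp only [Finset.mul_sum]
        rw [ENNReal.ofReal_sum_of_nonneg (fun t _ => Finset.sum_nonneg fun s _ =>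
          mul_nonneg hW0 (ov_nonneg _ _))]
        apply Finset.sum_congr rfl
        intro t _
        rw [ENNReal.ofReal_sum_of_nonneg (fun s _ => mul_nonneg hW0 (ov_nonneg _ _))]

/-- One window, exponents `1 ≤ q ≤ 2`. -/
theorem window (hd : 1 ≤ d) {T κ Λ lam η q : ℝ} (hκ0 : 0 < κ) (hΛ : 0 ≤ Λ) (hlam : 0 < lam)
    (hη : 0 < η) (hη1 : η ≤ 1) (hq : 1 ≤ q) (hq2 : q ≤ 2) {ψ : Vec d → ℝ} (hψ : Dir ψ)
    {F : ℤ → Vec d} {v β : ι → Vec d} {ℓ : ι → ℤ} {δ K ρ : ℝ} (D : Data ψ F v β ℓ Λ lam δ K)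
    (hκ : 6 + 2 * K ≤ κ) (hδ : 0 < δ) (hδ1 : δ ≤ 1) (hρ : 0 < ρ) (hρT : ρ ≤ T)
    (hN : 1 ≤ (Fintype.card ι : ℝ) * ρ ^ d) :
    ∫⁻ z in Icc ρ (2 * ρ), ∫⁻ x, Uf δ v β x z ^ q ≤
      ENNReal.ofReal ((3 * δ) ^ d * om d * (2 * A3 d T κ Λ lam η) ^ (q - 1) *
        ((Fintype.card ι : ℝ) * ρ * ((ρ ^ d)⁻¹ * ((Fintype.card ι : ℝ) * ρ ^ d) ^ η) ^ (q - 1))) := by
  have hom := om_pos (d := d)
  have hT : 0 < T := lt_of_lt_of_le hρ hρT
  have hA3 : 0 ≤ A3 d T κ Λ lam η := by
    unfold A3 A1 A2 C1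
    positivity
  set N : ℝ := (Fintype.card ι : ℝ) with hNd
  have hNpos : 0 < N := by
    by_contra hcon
    have : N = 0 := le_antisymm (not_lt.1 hcon) (Nat.cast_nonneg _)
    rw [this, zero_mul] at hN
    linarith
  set W : ℝ := (3 * δ) ^ d * om d with hW
  have hW0 : 0 < W := by positivity
  set μ : Measure (ℝ × Vec d) := (volume.restrict (Icc ρ (2 * ρ))).prod volume with hμ
  have hm := Uf_meas δ v β
  have i1 : ∫⁻ p, Uf δ v β p.2 p.1 ∂μ ≤ ENNReal.ofReal (ρ * (N * W)) := by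
    rw [hμ, lintegral_prod _ hm.aemeasurable]
    exact (L1 hd hδ hρ v β).le
  have i2 : ∫⁻ p, Uf δ v β p.2 p.1 ^ 2 ∂μ ≤ ENNReal.ofReal (W * (2 * (N *
      (A3 d T κ Λ lam η * ((ρ / ρ ^ d) * (N * ρ ^ d) ^ η))))) := by
    rw [hμ, lintegral_prod _ (hm.pow_const _).aemeasurable]
    refine (L2 hd hδ v β).trans ?_
    apply ENNReal.ofReal_le_ofReal
    rw [← hW]
    gcongr
    exact all_sum hd hκ0 hΛ hlam hη hη1 hψ D hκ hδ hδ1 hρ hρT hN
  have h3 := interp3 (μ := μ) hm (L := ∞) (Filter.Eventually.of_forall fun _ => le_top) i1 i2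
    (q₀ := q) (β := 0) hq hq2 le_rfl
  rw [add_zero, ENNReal.rpow_zero, one_mul, hμ, lintegral_prod _ (hm.pow_const _).aemeasurable] at h3
  refine h3.trans ?_
  rw [ENNReal.ofReal_rpow_of_nonneg (by positivity) (by linarith),
    ENNReal.ofReal_rpow_of_nonneg (by positivity) (by linarith), ← ENNReal.ofReal_mul (by positivity)]
  apply ENNReal.ofReal_le_ofReal
  apply le_of_eq
  have e1 : W * (2 * (N * (A3 d T κ Λ lam η * ((ρ / ρ ^ d) * (N * ρ ^ d) ^ η)))) =
      (ρ * (N * W)) * ((2 * A3 d T κ Λ lam η) * ((ρ ^ d)⁻¹ * (N * ρ ^ d) ^ η)) := by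
    rw [div_eq_mul_inv]
    ring
  rw [e1, Real.mul_rpow (x := ρ * (N * W)) (by positivity) (by positivity), ← mul_assoc,
    ← Real.rpow_add (by positivity)]
  have e2 : 2 - q + (q - 1) = 1 := by ring
  rw [e2, Real.rpow_one, Real.mul_rpow (x := 2 * A3 d T κ Λ lam η) (by positivity) (by positivity)]
  ring

end slab

end Pool.Agent.U515.CL
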